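import Pool.Agent.Run7.h860.Nk.Cor3

/-!
The height of a minimal polynomial.
-/

set_option autoImplicit false

open Finset Polynomial Module

namespace Pool.Agent.Run7.h860.Nk

open NumberField IsDedekindDomain Height
open Pool.Agent.W180.OP (Pl av wt nrm le_nrm nrm_pos nrm_nonneg exists_nrm wt_nonneg
  fv_support_finite)
open Pool.Agent.R405 (Good exists_good logHeight_sum nrm_finite)

theorem coef_lin {M : Type} [Field M] (z : M) (h : M[X]) (j : ℕ) :
    ((X - C z) * h).coeff (j + 1) = h.coeff j - z * h.coeff (j + 1) := by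
  rw [sub_mul, coeff_sub, coeff_X_mul, coeff_C_mul]

theorem coef_lin_zero {M : Type} [Field M] (z : M) (h : M[X]) :
    ((X - C z) * h).coeff 0 = -(z * h.coeff 0) := by
  rw [sub_mul, coeff_sub, coeff_X_mul_zero, coeff_C_mul, zero_sub]

theorem coef_arch {M : Type} [Field M] (F : AbsoluteValue M ℝ) {ι : Type} (T : Finset ι)
    (z : ι → M) (j : ℕ) : F ((∏ i ∈ T, (X - C (z i))).coeff j) ≤ ∏ i ∈ T, (1 + F (z i)) := by
  classical
  induction T using Finset.induction_on generalizing j with
  | empty =>
    simp only [Finset.prod_empty, coeff_one]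
    split_ifs <;> simp
  | insert a T ha ih =>
    rw [Finset.prod_insert ha, Finset.prod_insert ha]
    have h0 : 0 ≤ ∏ i ∈ T, (1 + F (z i)) := Finset.prod_nonneg fun i _ => by
      have := F.nonneg (z i)
      linarith
    have hz := F.nonneg (z a)
    cases j with
    | zero =>
      rw [coef_lin_zero, AbsoluteValue.map_neg, map_mul]
      have := mul_le_mul_of_nonneg_left (ih 0) hz
      nlinarith
    | succ j =>
      rw [coef_lin]
      refine (abv_sub_le F _ _).trans ?_
      rw [map_mul]
      have h1 := ih j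
      have h2 := mul_le_mul_of_nonneg_left (ih (j + 1)) hz
      linarith

theorem coef_na {M : Type} [Field M] (F : AbsoluteValue M ℝ) (hna : IsNonarchimedean F)
    {ι : Type} (T : Finset ι) (z : ι → M) (j : ℕ) :
    F ((∏ i ∈ T, (X - C (z i))).coeff j) ≤ ∏ i ∈ T, max 1 (F (z i)) := by
  classical
  induction T using Finset.induction_on generalizing j with
  | empty =>
    simp only [Finset.prod_empty, coeff_one]
    split_ifs <;> simp
  | insert a T ha ih =>
    rw [Finset.prod_insert ha, Finset.prod_insert ha]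
    have h0 : 0 ≤ ∏ i ∈ T, max 1 (F (z i)) := Finset.prod_nonneg fun i _ =>
      zero_le_one.trans (le_max_left _ _)
    have hz := F.nonneg (z a)
    have hm : F (z a) ≤ max 1 (F (z a)) := le_max_right _ _
    have hm1 : 1 ≤ max 1 (F (z a)) := le_max_left _ _
    cases j with
    | zero =>
      rw [coef_lin_zero, AbsoluteValue.map_neg, map_mul]
      exact mul_le_mul hm (ih 0) (F.nonneg _) (by linarith)
    | succ j =>
      rw [coef_lin, sub_eq_add_neg]
      refine (hna _ _).trans (max_le ?_ ?_)
      · calc F ((∏ i ∈ T, (X - C (z i))).coeff j) ≤ 1 * ∏ i ∈ T, max 1 (F (z i)) := by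
              rw [one_mul]; exact ih j
          _ ≤ _ := mul_le_mul_of_nonneg_right hm1 h0
      · rw [AbsoluteValue.map_neg, map_mul]
        exact mul_le_mul hm (ih (j + 1)) (F.nonneg _) (by linarith)

theorem nrm_pair {M : Type} [Field M] (F : AbsoluteValue M ℝ) (z : M) :
    nrm F ![z, 1] = max 1 (F z) := by
  apply le_antisymm
  · refine Pool.Agent.W180.OP.nrm_le (zero_le_one.trans (le_max_left _ _)) fun i => ?_
    fin_cases i
    · exact le_max_right _ _
    · show F 1 ≤ _
      rw [map_one]
      exact le_max_left _ _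
  · refine max_le ?_ ?_
    · have := le_nrm F ![z, 1] 1
      simpa using this
    · have := le_nrm F ![z, 1] 0
      simpa using this

theorem fv_na {M : Type} [Field M] [NumberField M] (v : HeightOneSpectrum (𝓞 M)) :
    IsNonarchimedean (Pool.Agent.W180.OP.fv v) := by
  intro a b
  exact FinitePlace.add_le (FinitePlace.mk v) a b

theorem ht_prod {M : Type} [Field M] [NumberField M] {d : ℕ} (z : Fin d → M) :
    logHeight (fun l : Fin (d + 1) => (∏ i, (X - C (z i))).coeff l) ≤
      ∑ i, logHeight₁ (z i) + finrank ℚ M * (d * Real.log 2) := by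
  classical
  set x : Fin (d + 1) → M := fun l => (∏ i, (X - C (z i))).coeff l with hx
  have hx0 : x ≠ 0 := by
    intro h
    have h1 := congrFun h (Fin.last d)
    have h2 : (∏ i, (X - C (z i)) : M[X]).coeff d = 1 := by
      have h3 : (∏ i, (X - C (z i)) : M[X]).Monic := monic_prod_of_monic _ _ fun i _ =>
        monic_X_sub_C _
      have h4 : (∏ i, (X - C (z i)) : M[X]).natDegree = d := by
        rw [natDegree_prod_of_monic _ _ fun i _ => monic_X_sub_C _]
        simp
      have h5 : (∏ i, (X - C (z i)) : M[X]).coeff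
          ((∏ i, (X - C (z i)) : M[X]).natDegree) = 1 := h3
      rwa [h4] at h5
    have h3 : (∏ i, (X - C (z i)) : M[X]).coeff d = 0 := h1
    rw [h2] at h3
    exact one_ne_zero h3
  have hp0 : ∀ i, (![z i, 1] : Fin 2 → M) ≠ 0 := by
    intro i h
    have := congrFun h 1
    simp at this
  set T : Finset (HeightOneSpectrum (𝓞 M)) := (nrm_finite x hx0).toFinset ∪
    Finset.univ.biUnion fun i => (nrm_finite _ (hp0 i)).toFinset with hT
  have h1 := logHeight_sum x hx0 T (fun v hv => by
    by_contra hc
    apply hv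
    rw [hT]
    simp only [Finset.mem_union, Set.Finite.mem_toFinset, Set.mem_ofPred_eq]
    exact Or.inl hc)
  have h2 : ∀ i, logHeight₁ (z i) = ∑ w : InfinitePlace M, (w.mult : ℝ) *
      Real.log (max 1 (w.1 (z i))) +
      ∑ v ∈ T, Real.log (max 1 (Pool.Agent.W180.OP.fv v (z i))) := by
    intro i
    rw [logHeight₁_eq_logHeight, logHeight_sum _ (hp0 i) T (fun v hv => by
      by_contra hc
      apply hv
      rw [hT]
      refine Finset.mem_union_right _ (Finset.mem_biUnion.2 ⟨i, Finset.mem_univ i, ?_⟩)
      exact (Set.Finite.mem_toFinset _).2 hc)]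
    simp only [nrm_pair]
  have hpos : ∀ (F : AbsoluteValue M ℝ) i, 0 < max 1 (F (z i)) := fun F i =>
    lt_max_of_lt_left one_pos
  have h3 : ∀ w : InfinitePlace M, Real.log (nrm w.1 x) ≤ d * Real.log 2 +
      ∑ i, Real.log (max 1 (w.1 (z i))) := by
    intro w
    have h4 : nrm w.1 x ≤ 2 ^ d * ∏ i, max 1 (w.1 (z i)) := by
      have h0 : 0 ≤ ∏ i, max 1 (w.1 (z i)) := Finset.prod_nonneg fun i _ => (hpos _ i).le
      refine Pool.Agent.W180.OP.nrm_le (by positivity) fun l => ?_
      refine (coef_arch w.1 Finset.univ z l).trans ?_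
      have h5 : (2 : ℝ) ^ d * ∏ i, max 1 (w.1 (z i)) = ∏ i, (2 * max 1 (w.1 (z i))) := by
        rw [Finset.prod_mul_distrib, Finset.prod_const, Finset.card_univ, Fintype.card_fin]
      rw [h5]
      refine Finset.prod_le_prod (fun i _ => by
        have := w.1.nonneg (z i)
        linarith) fun i _ => ?_
      have h6 := le_max_left 1 (w.1 (z i))
      have h7 := le_max_right 1 (w.1 (z i))
      linarith
    have h5 := Real.log_le_log (nrm_pos _ hx0) h4
    rw [Real.log_mul (by positivity) (Finset.prod_pos fun i _ => hpos _ i).ne', Real.log_pow,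
      Real.log_prod fun i _ => (hpos _ i).ne'] at h5
    exact h5
  have h4 : ∀ v : HeightOneSpectrum (𝓞 M), Real.log (nrm (Pool.Agent.W180.OP.fv v) x) ≤
      ∑ i, Real.log (max 1 (Pool.Agent.W180.OP.fv v (z i))) := by
    intro v
    have h5 : nrm (Pool.Agent.W180.OP.fv v) x ≤
        ∏ i, max 1 (Pool.Agent.W180.OP.fv v (z i)) := by
      refine Pool.Agent.W180.OP.nrm_le (Finset.prod_nonneg fun i _ => (hpos _ i).le) fun l => ?_
      exact coef_na _ (fv_na v) Finset.univ z l
    have h6 := Real.log_le_log (nrm_pos _ hx0) h5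
    rwa [Real.log_prod fun i _ => (hpos _ i).ne'] at h6
  rw [h1]
  simp only [h2]
  rw [Finset.sum_add_distrib]
  have h5 : ∑ w : InfinitePlace M, (w.mult : ℝ) * Real.log (nrm w.1 x) ≤
      finrank ℚ M * (d * Real.log 2) + ∑ i, ∑ w : InfinitePlace M, (w.mult : ℝ) *
        Real.log (max 1 (w.1 (z i))) := by
    have h6 : ∑ w : InfinitePlace M, (w.mult : ℝ) * Real.log (nrm w.1 x) ≤
        ∑ w : InfinitePlace M, ((w.mult : ℝ) * (d * Real.log 2) +
          (w.mult : ℝ) * ∑ i, Real.log (max 1 (w.1 (z i)))) := by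
      refine Finset.sum_le_sum fun w _ => ?_
      rw [← mul_add]
      exact mul_le_mul_of_nonneg_left (h3 w) (Nat.cast_nonneg _)
    refine h6.trans (le_of_eq ?_)
    rw [Finset.sum_add_distrib, ← Finset.sum_mul]
    congr 1
    · congr 1
      have := InfinitePlace.sum_mult_eq (K := M)
      exact_mod_cast this
    · simp only [Finset.mul_sum]
      rw [Finset.sum_comm]
  have h6 : ∑ v ∈ T, Real.log (nrm (Pool.Agent.W180.OP.fv v) x) ≤
      ∑ i, ∑ v ∈ T, Real.log (max 1 (Pool.Agent.W180.OP.fv v (z i))) := by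
    rw [Finset.sum_comm]
    exact Finset.sum_le_sum fun v _ => h4 v
  linarith

variable {k : Type} [Field k] [NumberField k]

/-- the height of a minimal polynomial -/
theorem ht_min {L : Type} [Field L] [NumberField L] [Algebra k L] (x : L) {d : ℕ}
    (hd : finrank k L = d) (z : Fin d → AlgebraicClosure k) (σ : Fin d → (L →ₐ[k] AlgebraicClosure k))
    (hσ : ∀ i, σ i x = z i) (f : k[X])
    (hfz : f.map (algebraMap k (AlgebraicClosure k)) = ∏ i, (X - C (z i))) :
    logHeight (fun l : Fin (d + 1) => f.coeff l) ≤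
      logHeight₁ x + finrank ℚ k * (d * Real.log 2) := by
  classical
  have hfin : FiniteDimensional k L := inferInstance
  let B := Module.finBasis k L
  obtain ⟨M, iM, hNF, iA, hGal, φ, -, hφ⟩ := Pool.Agent.R847.SN.exists_gal k
    (⋃ i, Set.range fun j => σ i (B j)) (Set.finite_iUnion fun i => Set.finite_range _)
  -- the embeddings factor through `M`
  have hfac : ∀ i, ∃ τ : L →+* M, ∀ y, φ (τ y) = σ i y := by
    intro i
    have hmem : ∀ y : L, ∃ m : M, φ m = σ i y := by
      intro y
      choose m hm using fun j => hφ (σ i (B j)) (Set.mem_iUnion.2 ⟨i, j, rfl⟩)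
      refine ⟨∑ j, algebraMap k M (B.repr y j) * m j, ?_⟩
      rw [map_sum]
      conv_rhs => rw [← B.sum_repr y, map_sum]
      refine Finset.sum_congr rfl fun j _ => ?_
      rw [map_mul, AlgHom.commutes, hm, Algebra.smul_def, map_mul, AlgHom.commutes]
    choose τ hτ using hmem
    refine ⟨{ toFun := τ, map_one' := ?_, map_mul' := ?_, map_zero' := ?_, map_add' := ?_ }, hτ⟩
    · apply φ.toRingHom.injective
      show φ (τ 1) = φ 1
      rw [hτ, map_one, map_one]
    · intro a b
      apply φ.toRingHom.injective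
      show φ (τ (a * b)) = φ (τ a * τ b)
      rw [hτ, map_mul, map_mul, hτ, hτ]
    · apply φ.toRingHom.injective
      show φ (τ 0) = φ 0
      rw [hτ, map_zero, map_zero]
    · intro a b
      apply φ.toRingHom.injective
      show φ (τ (a + b)) = φ (τ a + τ b)
      rw [hτ, map_add, map_add, hτ, hτ]
  choose τ hτ using hfac
  have hfM : f.map (algebraMap k M) = ∏ i, (X - C (τ i x)) := by
    apply Polynomial.map_injective (φ : M →+* AlgebraicClosure k) φ.toRingHom.injective
    rw [Polynomial.map_map, Polynomial.map_prod]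
    have h1 : (φ : M →+* AlgebraicClosure k).comp (algebraMap k M) =
        algebraMap k (AlgebraicClosure k) := φ.comp_algebraMap
    rw [h1, hfz]
    refine Finset.prod_congr rfl fun i _ => ?_
    rw [Polynomial.map_sub, Polynomial.map_X, Polynomial.map_C]
    congr 2
    rw [← hσ i]
    exact (hτ i x).symm
  have h1 := ht_prod (fun i => τ i x)
  rw [← hfM] at h1
  simp only [coeff_map] at h1
  rw [Pool.Agent.Helper259.HtExt.logHeight_ext] at h1
  -- the heights of the conjugates
  have hd0 : 0 < d := by rw [← hd]; exact finrank_pos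
  have h2 : ∀ i, (d : ℝ) * logHeight₁ (τ i x) = finrank k M * logHeight₁ x := by
    intro i
    let _ : Algebra L M := (τ i).toAlgebra
    have h3 := Pool.Agent.Helper259.HtExt.logHeight_ext (K := L) (L := M) ![x, 1]
    have h4 : (fun j => algebraMap L M (![x, 1] j)) = ![τ i x, 1] := by
      funext j
      fin_cases j
      · rfl
      · exact map_one (τ i)
    rw [h4, ← logHeight₁_eq_logHeight, ← logHeight₁_eq_logHeight] at h3
    rw [h3]
    have h5 : finrank ℚ L * finrank L M = finrank ℚ M := Module.finrank_mul_finrank ℚ L M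
    have h6 : finrank ℚ k * finrank k M = finrank ℚ M := Module.finrank_mul_finrank ℚ k M
    have h7 : finrank ℚ k * finrank k L = finrank ℚ L := Module.finrank_mul_finrank ℚ k L
    rw [hd] at h7
    have h8 : 0 < finrank ℚ k := finrank_pos
    have h9 : d * finrank L M = finrank k M := by
      have : finrank ℚ k * (d * finrank L M) = finrank ℚ k * finrank k M := by
        rw [h6, ← mul_assoc, h7, h5]
      exact Nat.eq_of_mul_eq_mul_left h8 this
    rw [← h9]
    push_cast
    ring
  have h6 : finrank ℚ k * finrank k M = finrank ℚ M := Module.finrank_mul_finrank ℚ k M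
  have hM0 : (0 : ℝ) < finrank k M := by exact_mod_cast finrank_pos
  have hdr : (0 : ℝ) < d := by exact_mod_cast hd0
  have h3 : ∑ i, logHeight₁ (τ i x) = finrank k M * logHeight₁ x := by
    have h4 : ∀ i, logHeight₁ (τ i x) = finrank k M * logHeight₁ x / d := by
      intro i
      rw [eq_div_iff hdr.ne', ← h2 i]
      ring
    rw [Finset.sum_congr rfl fun i _ => h4 i, Finset.sum_const, Finset.card_univ,
      Fintype.card_fin, nsmul_eq_mul]
    field_simp
  rw [h3, ← h6] at h1
  push_cast at h1
  have h7 : (finrank k M : ℝ) * logHeight (fun l : Fin (d + 1) => f.coeff l) ≤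
      finrank k M * (logHeight₁ x + finrank ℚ k * (d * Real.log 2)) := by
    refine h1.trans (le_of_eq ?_)
    ring
  exact le_of_mul_le_mul_left h7 hM0

end Pool.Agent.Run7.h860.Nk
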