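import Pool.Agent.Run7.h860.Nk.Ind
import Pool.Agent.Run7.h860.Nk.HtF

/-!
The inequality for the points of degree `d` of the projective line.
-/

set_option autoImplicit false

open Finset Polynomial Module

namespace Pool.Agent.Run7.h860.Nk

open NumberField IsDedekindDomain Height
open Pool.Agent.W180.OP (Pl av wt nrm)
open Pool.Agent.R405 (Good)

variable {k : Type} [Field k] [NumberField k]

/-- the places of `k` -/
abbrev Plc (k : Type) [Field k] [NumberField k] : Type := Pl k

/-- enumeration of the conjugates of a generator -/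
theorem exists_enum {L : Type} [Field L] [NumberField L] [Algebra k L] (x : L)
    (hx : IntermediateField.adjoin k {x} = ⊤) :
    ∃ e : Fin (finrank k L) ≃ (L →ₐ[k] AlgebraicClosure k),
      (minpoly k x).natDegree = finrank k L ∧
      (minpoly k x).map (algebraMap k (AlgebraicClosure k)) = ∏ i, (X - C (e i x)) := by
  classical
  have hfin : FiniteDimensional k L := inferInstance
  have hint : IsIntegral k x := IsIntegral.of_finite k x
  have hdeg : (minpoly k x).natDegree = finrank k L := by
    rw [← IntermediateField.adjoin.finrank hint, hx]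
    exact IntermediateField.finrank_top'
  have hcard : Fintype.card (L →ₐ[k] AlgebraicClosure k) = finrank k L := AlgHom.card _ _ _
  let e : Fin (finrank k L) ≃ (L →ₐ[k] AlgebraicClosure k) :=
    (Fintype.equivFinOfCardEq hcard).symm
  refine ⟨e, hdeg, ?_⟩
  have hinj : Function.Injective fun i => e i x := by
    intro i j hij
    apply e.injective
    have h1 : ∀ y ∈ IntermediateField.adjoin k {x}, e i y = e j y := by
      intro y hy
      induction hy using IntermediateField.adjoin_induction with
      | mem y hy =>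
        rw [Set.mem_singleton_iff.1 hy]
        exact hij
      | algebraMap y => rw [AlgHom.commutes, AlgHom.commutes]
      | add y z _ _ hy hz => rw [map_add, map_add, hy, hz]
      | inv y _ hy => rw [map_inv₀, map_inv₀, hy]
      | mul y z _ _ hy hz => rw [map_mul, map_mul, hy, hz]
    apply AlgHom.ext
    intro y
    exact h1 y (by rw [hx]; trivial)
  set p : (AlgebraicClosure k)[X] := (minpoly k x).map (algebraMap k (AlgebraicClosure k)) with hp
  have hpm : p.Monic := (minpoly.monic hint).map _
  have hpd : p.natDegree = finrank k L := by rw [hp, natDegree_map, hdeg]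
  have hqm : (∏ i, (X - C (e i x)) : (AlgebraicClosure k)[X]).Monic :=
    monic_prod_of_monic _ _ fun i _ => monic_X_sub_C _
  have hqd : (∏ i, (X - C (e i x)) : (AlgebraicClosure k)[X]).natDegree = finrank k L := by
    rw [natDegree_prod_of_monic _ _ fun i _ => monic_X_sub_C _]
    simp
  by_contra hne
  have hlt : (p - ∏ i, (X - C (e i x))).natDegree < finrank k L := by
    have h0 : p - ∏ i, (X - C (e i x)) ≠ 0 := sub_ne_zero.2 hne
    rw [natDegree_lt_iff_degree_lt h0, degree_lt_iff_coeff_zero]
    intro m hm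
    rw [coeff_sub]
    rcases hm.eq_or_lt with h | h
    · have h1 : p.coeff p.natDegree = 1 := hpm
      have h2 : (∏ i, (X - C (e i x)) : (AlgebraicClosure k)[X]).coeff
          (∏ i, (X - C (e i x)) : (AlgebraicClosure k)[X]).natDegree = 1 := hqm
      rw [hpd] at h1
      rw [hqd] at h2
      rw [← h, h1, h2, sub_self]
    · rw [coeff_eq_zero_of_natDegree_lt (by omega), coeff_eq_zero_of_natDegree_lt (by omega),
        sub_zero]
  have h0 : p - ∏ i, (X - C (e i x)) = 0 := by
    refine eq_zero_of_natDegree_lt_card_of_eval_eq_zero _ hinj (fun i => ?_) (by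
      rw [Fintype.card_fin]; exact hlt)
    rw [eval_sub, eval_prod, Finset.prod_eq_zero (Finset.mem_univ i) (by simp), sub_zero, hp,
      eval_map, ← aeval_def]
    have h1 : aeval (e i x) (minpoly k x) = e i (aeval x (minpoly k x)) := by
      rw [aeval_algHom_apply]
    rw [h1, minpoly.aeval, map_zero]
  exact hne (sub_eq_zero.1 h0)

/-- the sum over all pairs of conjugates -/
noncomputable def pairSum (F : AbsoluteValue (AlgebraicClosure k) ℝ)
    (D : Finset (AlgebraicClosure k × AlgebraicClosure k)) {L : Type} [Field L] [NumberField L]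
    [Algebra k L] (x : L) : ℝ :=
  ∑ σ : L →ₐ[k] AlgebraicClosure k, ∑ τ : L →ₐ[k] AlgebraicClosure k,
    ∑ a ∈ D, min (lam F a (σ x)) (lam F a (τ x))

theorem main (T : Finset (HeightOneSpectrum (𝓞 k)))
    (ψ : InfinitePlace k → AlgebraicClosure k →+* ℂ)
    (hψ : ∀ w, InfinitePlace.mk ((ψ w).comp (algebraMap k (AlgebraicClosure k))) = w)
    (G : HeightOneSpectrum (𝓞 k) → AbsoluteValue (AlgebraicClosure k) ℝ)
    (hG : ∀ v ∈ T, ∀ y : k, G v (algebraMap k (AlgebraicClosure k) y) = FinitePlace.mk v y)
    (D : Finset (AlgebraicClosure k × AlgebraicClosure k)) (hD0 : ∀ a ∈ D, a ≠ 0)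
    (hD : ∀ a ∈ D, ∀ b ∈ D, a ≠ b → a.1 * b.2 ≠ a.2 * b.1) (hne : D.Nonempty) (d : ℕ) (hd : 0 < d)
    (ε : ℝ) (hε : 0 < ε) (F : Pl k → AbsoluteValue (AlgebraicClosure k) ℝ)
    (hFi : ∀ w, ∀ y, F (Sum.inl w) y = ‖ψ w y‖) (hFf : ∀ v, F (Sum.inr v) = G v) :
    ∃ C0 : ℝ, ∀ (L : Type) [Field L] [NumberField L] [Algebra k L] (x : L),
      IntermediateField.adjoin k {x} = ⊤ → finrank k L = d →
      (∀ a ∈ D, ∀ σ : L →ₐ[k] AlgebraicClosure k, a.1 ≠ a.2 * σ x) →
      ∑ v ∈ (Finset.univ : Finset (InfinitePlace k)).disjSum T, wt v * pairSum (F v) D x ≤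
        (2 + ε) * d * logHeight₁ x + C0 := by
  classical
  have hF : ∀ v ∈ (Finset.univ : Finset (InfinitePlace k)).disjSum T, ∀ x : k,
      F v (algebraMap k (AlgebraicClosure k) x) = av v x := by
    intro v hv x
    rcases v with w | v
    · rw [hFi]
      have h1 := hψ w
      have h2 := congrArg (fun w : InfinitePlace k => w x) h1
      exact h2
    · rw [hFf, hG v (by simpa using hv)]
      rfl
  set b : AlgebraicClosure k × AlgebraicClosure k → AlgebraicClosure k × AlgebraicClosure k :=
    fun a => if a.1 = 0 then (1, 0) else (0, 1) with hb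
  have hb0 : ∀ a ∈ D, a.1 * (b a).2 - a.2 * (b a).1 ≠ 0 := by
    intro a ha
    by_cases h : a.1 = 0
    · simp only [hb, if_pos h, mul_zero, mul_one, zero_sub, neg_ne_zero]
      intro h2
      exact hD0 a ha (Prod.ext h h2)
    · simp only [hb, if_neg h, mul_zero, mul_one, sub_zero]
      exact h
  obtain ⟨K, iK, hNF, iA, hGal, φ, hi, hφ⟩ := Pool.Agent.R847.SN.exists_gal k
    ((D.image Prod.fst ∪ D.image Prod.snd : Finset (AlgebraicClosure k)) : Set (AlgebraicClosure k))
    (Finset.finite_toSet _)
  have hDK : ∀ a ∈ D, ∃ y : K × K, (φ y.1, φ y.2) = a := by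
    intro a ha
    obtain ⟨y1, h1⟩ := hφ a.1 (by
      rw [Finset.mem_coe]
      exact Finset.mem_union_left _ (Finset.mem_image_of_mem _ ha))
    obtain ⟨y2, h2⟩ := hφ a.2 (by
      rw [Finset.mem_coe]
      exact Finset.mem_union_right _ (Finset.mem_image_of_mem _ ha))
    exact ⟨(y1, y2), Prod.ext h1 h2⟩
  have hbK : ∀ a ∈ D, ∃ y : K × K, (φ y.1, φ y.2) = b a := by
    intro a _
    by_cases h : a.1 = 0
    · exact ⟨(1, 0), by simp [hb, h]⟩
    · exact ⟨(0, 1), by simp [hb, h]⟩
  have hgood : ∀ v ∈ (Finset.univ : Finset (InfinitePlace k)).disjSum T,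
      Good v ((F v).comp (φ : K →+* AlgebraicClosure k).injective) := by
    intro v hv
    rcases v with w | v
    · refine good_inf w ((ψ w).comp (φ : K →+* AlgebraicClosure k)) ?_ _ fun y => ?_
      · rw [RingHom.comp_assoc]
        have h1 : (φ : K →+* AlgebraicClosure k).comp (algebraMap k K) =
            algebraMap k (AlgebraicClosure k) := φ.comp_algebraMap
        rw [h1]
        exact hψ w
      · exact hFi w (φ y)
    · refine good_fin v _ fun y => ?_
      show F (Sum.inr v) (φ (algebraMap k K y)) = _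
      rw [φ.commutes, hF _ hv]
      rfl
  obtain ⟨C0, hC0⟩ := ind hd T F hF D b hb0 (fun a ha c hc hac => sub_ne_zero.2 (hD a ha c hc hac))
    hne hi φ hgood hDK hbK ε hε _ ⊤ rfl
  refine ⟨(2 + ε) * d * (finrank ℚ k * (d * Real.log 2)) + C0, ?_⟩
  intro L _ _ _ x hx hLd hxD
  obtain ⟨e0, h1, h2⟩ := exists_enum (k := k) x hx
  subst hLd
  have hint : IsIntegral k x := IsIntegral.of_finite k x
  have h3 := hC0 (minpoly k x) (fun i => e0 i x) (minpoly.monic hint) (minpoly.irreducible hint) h1
    trivial h2 (fun a ha i => sub_ne_zero.2 (hxD a ha (e0 i)))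
  have h4 := ht_min (k := k) x rfl (fun i => e0 i x) (fun i => e0 i) (fun i => rfl)
    (minpoly k x) h2
  have h5 : ∀ v, Qv (F v) D (fun i => e0 i x) = pairSum (F v) D x := by
    intro v
    unfold Qv pairSum
    rw [← Equiv.sum_comp e0]
    refine Finset.sum_congr rfl fun i _ => ?_
    rw [← Equiv.sum_comp e0]
  simp only [h5] at h3
  have h6 : (2 + ε) * (finrank k L : ℝ) *
      logHeight (fun l : Fin (finrank k L + 1) => (minpoly k x).coeff l) ≤
      (2 + ε) * (finrank k L : ℝ) * (logHeight₁ x +
        finrank ℚ k * ((finrank k L : ℝ) * Real.log 2)) :=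
    mul_le_mul_of_nonneg_left h4 (by positivity)
  linarith

end Pool.Agent.Run7.h860.Nk
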