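import Pool.Agent.Run7.h860.Nk.Gal

/-!
The bound for `ρ` at a place of `S`, absolute values.
-/

set_option autoImplicit false

open Finset Polynomial Module

namespace Pool.Agent.Run7.h860.Nk

variable {A : Type} [Field A]

/-- the exponent of the bound at the point `w` -/
noncomputable def Lv (F : AbsoluteValue A ℝ) (D : Finset (A × A)) {d : ℕ} (z : Fin d → A) (w : A) : ℝ :=
  Real.log (∏ k, max 1 (F (z k))) + d * Real.log (max 1 (F w)) -
    ∑ k, ∑ a ∈ D, min (lam F a w) (lam F a (z k))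

/-- the forms on the space with basis `e` -/
noncomputable def frm (d : ℕ) {D : Finset (A × A)} (b : A × A → A × A) {t : ℕ}
    (e : Fin t → Fin (d + 1) → A) (i : ↥D × Fin (d + 1)) (l : Fin t) : A :=
  ∑ k, e l k * W d i.1.1 (b i.1.1) (i.2 : ℕ) k

theorem loc_S (F : AbsoluteValue A ℝ) (d t' : ℕ) (D : Finset (A × A)) (b : A × A → A × A)
    (hb : ∀ a ∈ D, a.1 * (b a).2 - a.2 * (b a).1 ≠ 0)
    (hD : ∀ a ∈ D, ∀ b ∈ D, a ≠ b → a.1 * b.2 - a.2 * b.1 ≠ 0) (hne : D.Nonempty)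
    (e : Fin (t' + 1) → Fin (d + 1) → A)
    (hex : ∃ s : Fin (t' + 1) → ↥D × Fin (d + 1),
      (Matrix.of fun a => frm d b e (s a)).det ≠ 0) :
    ∃ Cc : ℝ, ∀ (u : Fin (t' + 1) → A) (z : Fin d → A),
      (∀ a ∈ D, ∀ i, a.1 - a.2 * z i ≠ 0) →
      (∏ i, (X - C (z i)) = toP (fun l => ∑ j, u j * e j l)) →
      (∀ i : ↥D × Fin (d + 1), frm d b e i ≠ 0 → ∑ l, frm d b e i l * u l ≠ 0) →
      ∃ β : Fin (t' + 1) → ↥D × Fin (d + 1), (Matrix.of fun a => frm d b e (β a)).det ≠ 0 ∧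
        ∀ (s : Fin t' → Fin d) (ρ : A), ρ ≠ 0 →
          (∀ y : Fin (t' + 1) → A, (Matrix.of (Fin.cons y (fun m j => (toP (e j)).eval (z (s m))) :
            Fin (t' + 1) → Fin (t' + 1) → A)).det = ρ * ∑ j, y j * u j) →
          Real.log (F ρ) + ∑ i, Real.log (F (∑ l, frm d b e (β i) l * u l)) ≤
            Cc + ∑ m, Lv F D z (z (s m)) := by
  classical
  obtain ⟨c, hc0, hc⟩ := local_main F d D b hb hD hne
  set Xb : (Fin (t' + 1) → ↥D × Fin (d + 1)) → ℝ := fun β => 1 + ∑ i : ↥D × Fin (d + 1), ∑ a,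
    F (Matrix.vecMul (frm d b e i) (Matrix.of fun a => frm d b e (β a))⁻¹ a) with hXb
  have hXb1 : ∀ β, 1 ≤ Xb β := by
    intro β
    have : 0 ≤ ∑ i : ↥D × Fin (d + 1), ∑ a, F (Matrix.vecMul (frm d b e i)
      (Matrix.of fun a => frm d b e (β a))⁻¹ a) := Finset.sum_nonneg fun _ _ =>
        Finset.sum_nonneg fun _ _ => F.nonneg _
    simp only [hXb]
    linarith
  set Cb : (Fin (t' + 1) → ↥D × Fin (d + 1)) → ℝ := fun β =>
    Real.log (F (Matrix.of fun a => frm d b e (β a)).det * (t'.factorial *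
      ((c + 1) * Xb β) ^ t')) with hCb
  refine ⟨∑ β, |Cb β|, fun u z hz hf hnz => ?_⟩
  obtain ⟨β, hβ, hgr⟩ := greedy (frm d b e) (fun i : ↥D × Fin (d + 1) => F (∑ l, frm d b e i l * u l))
    (fun i hi => F.pos (hnz i hi)) hex
  refine ⟨β, hβ, fun s ρ hρ0 hρ => ?_⟩
  have hgr' : ∀ a ∈ D, ∀ j ≤ d, ∀ i,
      Matrix.vecMul (fun l => ∑ k, e l k * W d a (b a) j k)
        (Matrix.of fun a => frm d b e (β a))⁻¹ i ≠ 0 →
      (F (∑ l, (Matrix.of fun a => frm d b e (β a)) i l * u l)) ≤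
        (F (∑ l, (∑ k, e l k * W d a (b a) j k) * u l)) := by
    intro a ha j hj i hi
    exact hgr (⟨a, ha⟩, ⟨j, Nat.lt_succ_of_le hj⟩) i hi
  have hXb' : ∀ a ∈ D, ∀ j ≤ d, ∀ i,
      (F (Matrix.vecMul (fun l => ∑ k, e l k * W d a (b a) j k)
        (Matrix.of fun a => frm d b e (β a))⁻¹ i)) ≤ Xb β := by
    intro a ha j hj i
    have h1 : F (Matrix.vecMul (frm d b e (⟨a, ha⟩, ⟨j, Nat.lt_succ_of_le hj⟩))
        (Matrix.of fun a => frm d b e (β a))⁻¹ i) ≤
        ∑ i : ↥D × Fin (d + 1), ∑ a, F (Matrix.vecMul (frm d b e i)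
          (Matrix.of fun a => frm d b e (β a))⁻¹ a) :=
      (Finset.single_le_sum (f := fun i' => F (Matrix.vecMul
        (frm d b e (⟨a, ha⟩, ⟨j, Nat.lt_succ_of_le hj⟩))
        (Matrix.of fun a => frm d b e (β a))⁻¹ i')) (fun _ _ => F.nonneg _)
        (Finset.mem_univ i)).trans
      (Finset.single_le_sum (f := fun i : ↥D × Fin (d + 1) => ∑ a, F (Matrix.vecMul (frm d b e i)
        (Matrix.of fun a => frm d b e (β a))⁻¹ a))
        (fun _ _ => Finset.sum_nonneg fun _ _ => F.nonneg _) (Finset.mem_univ _))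
    have h2 : F (Matrix.vecMul (frm d b e (⟨a, ha⟩, ⟨j, Nat.lt_succ_of_le hj⟩))
        (Matrix.of fun a => frm d b e (β a))⁻¹ i) ≤ Xb β := by
      simp only [hXb]
      linarith
    exact h2
  have h1 := rho_S F d D b (c + 1) (Xb β) (by linarith [hXb1 β]) (fun z G B h1 h2 h3 h4 i =>
    (hc z G B h1 h2 h3 h4 i).trans (by
      have hM : 0 ≤ (∏ k, max 1 (F (z k))) * (max 1 (F (z i))) ^ d *
        Real.exp (-∑ k, ∑ a ∈ D, min (lam F a (z i)) (lam F a (z k))) := by
        have : 0 ≤ ∏ k, max 1 (F (z k)) := Finset.prod_nonneg fun k _ =>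
          zero_le_one.trans (le_max_left _ _)
        positivity
      refine mul_le_mul_of_nonneg_right ?_ hM
      nlinarith)) e u z hz hf
    (Matrix.of fun a => frm d b e (β a)) hβ hgr' hXb' s ρ hρ
  -- logarithms
  set Φ : Matrix (Fin (t' + 1)) (Fin (t' + 1)) A := Matrix.of fun a => frm d b e (β a) with hΦ
  have hw0 : ∀ i, ∑ l, frm d b e (β i) l * u l ≠ 0 := by
    intro i
    apply hnz
    intro h0
    exact hβ (Matrix.det_eq_zero_of_row_eq_zero i fun j => congrFun h0 j)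
  have e1 : (F (ρ)) * ∏ i, (F (∑ l, Φ i l * u l)) =
      F ρ * ∏ i, F (∑ l, frm d b e (β i) l * u l) := rfl
  have e2 : ∀ w : A, (∏ k, max 1 (F (z k))) * (max 1 (F (w))) ^ d *
      Real.exp (-∑ k, ∑ a ∈ D, min (lam F a w) (lam F a (z k))) = Real.exp (Lv F D z w) := by
    intro w
    have hp : 0 < ∏ k, max 1 (F (z k)) := Finset.prod_pos fun k _ => lt_max_of_lt_left one_pos
    have hq : 0 < max 1 (F w) := lt_max_of_lt_left one_pos
    unfold Lv
    rw [sub_eq_add_neg, Real.exp_add, Real.exp_add, Real.exp_log hp]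
    have h3 : Real.exp (d * Real.log (max 1 (F w))) = (max 1 (F w)) ^ d := by
      rw [← Real.log_pow, Real.exp_log (pow_pos hq d)]
    rw [h3]
  simp only [e2] at h1
  rw [e1] at h1
  have hFΦ : 0 < F Φ.det := F.pos hβ
  have hcX : 0 < (c + 1) * Xb β := mul_pos (by linarith) (by linarith [hXb1 β])
  have h4 : (F (Φ.det)) * (t'.factorial * ∏ m, ((c + 1) * Xb β * Real.exp (Lv F D z (z (s m))))) =
      F Φ.det * (t'.factorial * ((c + 1) * Xb β) ^ t') * Real.exp (∑ m, Lv F D z (z (s m))) := by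
    rw [Finset.prod_mul_distrib, Finset.prod_const, Finset.card_univ, Fintype.card_fin,
      Real.exp_sum]
    ring
  rw [h4] at h1
  have hprod : 0 < ∏ i, F (∑ l, frm d b e (β i) l * u l) := Finset.prod_pos fun i _ => F.pos (hw0 i)
  have h5 := Real.log_le_log (mul_pos (F.pos hρ0) hprod) h1
  have hfac : (0 : ℝ) < t'.factorial := by exact_mod_cast t'.factorial_pos
  have hbig : F Φ.det * (t'.factorial * ((c + 1) * Xb β) ^ t') ≠ 0 :=
    (mul_pos hFΦ (mul_pos hfac (pow_pos hcX t'))).ne'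
  rw [Real.log_mul (F.pos hρ0).ne' hprod.ne', Real.log_prod (fun i _ => (F.pos (hw0 i)).ne'),
    Real.log_mul hbig (Real.exp_pos _).ne', Real.log_exp] at h5
  refine h5.trans (add_le_add ?_ le_rfl)
  exact (le_abs_self (Cb β)).trans (Finset.single_le_sum (f := fun β => |Cb β|)
    (fun _ _ => abs_nonneg _) (Finset.mem_univ β))

/-- the sum of `Lv` over the roots -/
theorem sum_Lv (F : AbsoluteValue A ℝ) (D : Finset (A × A)) {d : ℕ} (z : Fin d → A) :
    ∑ i, Lv F D z (z i) = 2 * d * (∑ k, Real.log (max 1 (F (z k)))) -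
      ∑ i, ∑ k, ∑ a ∈ D, min (lam F a (z i)) (lam F a (z k)) := by
  unfold Lv
  rw [Finset.sum_sub_distrib, Finset.sum_add_distrib, Finset.sum_const, Finset.card_univ,
    Fintype.card_fin, nsmul_eq_mul, ← Finset.mul_sum,
    Real.log_prod fun k _ => (show (max 1 (F (z k))) ≠ 0 from
      (lt_max_of_lt_left one_pos).ne')]
  ring

/-- the roots are bounded by the coefficients -/
theorem mh_F (F : AbsoluteValue A ℝ) {d : ℕ} (z : Fin d → A) (B : ℝ)
    (hB : ∀ j, F ((∏ i, (X - C (z i))).coeff j) ≤ B) (hB0 : 0 < B) :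
    ∑ k, Real.log (max 1 (F (z k))) ≤ d * Real.log (d + 1) + Real.log B := by
  classical
  let _ : NormedField A := F.toNormedField
  have h1 := Pool.Agent.Run7.h860.Ns.mh_le d (Finset.univ : Finset (Fin d))
    (by rw [Finset.card_univ, Fintype.card_fin]) (1 : A) z B (fun j => by
      rw [map_one, one_mul]
      exact hB j)
  have h2 : ∏ k, max 1 (F (z k)) ≤ ((d : ℝ) + 1) ^ d * B := by
    have h3 : ‖(1 : A)‖ * ∏ i ∈ (Finset.univ : Finset (Fin d)), max 1 ‖z i‖ =
        ∏ k, max 1 (F (z k)) := by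
      rw [norm_one, one_mul]
      rfl
    rw [h3, Finset.card_univ, Fintype.card_fin] at h1
    exact h1
  have hp : 0 < ∏ k, max 1 (F (z k)) := Finset.prod_pos fun k _ => lt_max_of_lt_left one_pos
  have h3 := Real.log_le_log hp h2
  rw [Real.log_prod fun k _ => (show (max 1 (F (z k))) ≠ 0 from
      (lt_max_of_lt_left one_pos).ne'), Real.log_mul (by positivity) hB0.ne', Real.log_pow] at h3
  exact h3

end Pool.Agent.Run7.h860.Nk
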