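import Pool.Agent.Run7.h860.Nk.Cor1

/-!
The norm of `ρ` at the places.
-/

set_option autoImplicit false

open Finset Polynomial Module

namespace Pool.Agent.Run7.h860.Nk

section General

variable {k M : Type} [Field k] [Field M] [Algebra k M] [FiniteDimensional k M] [IsGalois k M]

omit [FiniteDimensional k M] [IsGalois k M] in
/-- the conjugates of the roots are roots -/
theorem conj_root {d : ℕ} (z : Fin d → M) (f : k[X])
    (hf : f.map (algebraMap k M) = ∏ i, (X - C (z i))) (σ : M ≃ₐ[k] M) (i : Fin d) :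
    ∃ l, σ (z i) = z l := by
  have hroot : ∀ x : M, aeval x f = 0 ↔ ∃ l, x = z l := by
    intro x
    rw [aeval_def, ← eval_map, hf, eval_prod, Finset.prod_eq_zero_iff]
    simp [sub_eq_zero]
  rw [← hroot]
  have : aeval (σ (z i)) f = σ (aeval (z i) f) := by
    rw [← AlgEquiv.coe_toAlgHom, aeval_algHom_apply]
  rw [this, (hroot _).2 ⟨i, rfl⟩, map_zero]

/-- a bound for the conjugates of `ρ` gives a bound for its norm -/
theorem norm_le {A : Type} [Field A] [Algebra k A] (F : AbsoluteValue A ℝ) (φ : M →ₐ[k] A)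
    {d t' : ℕ} (hd : 0 < d) (z : Fin d → M) (hinj : Function.Injective z) (f : k[X])
    (hirr : Irreducible f) (hf : f.map (algebraMap k M) = ∏ i, (X - C (z i)))
    (s : Fin t' → Fin d) (ρ : M) (hρ0 : ρ ≠ 0) (c0 : ℝ) (β : M → ℝ)
    (H : ∀ σ : M ≃ₐ[k] M, Real.log (F (φ (σ ρ))) ≤ c0 + ∑ m, β (σ (z (s m)))) :
    Real.log (F (algebraMap k A (Algebra.norm k ρ))) ≤
      Fintype.card (M ≃ₐ[k] M) * (c0 + t' / d * ∑ i, β (z i)) := by
  classical
  have h1 : algebraMap k A (Algebra.norm k ρ) = ∏ σ : M ≃ₐ[k] M, φ (σ ρ) := by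
    rw [← φ.commutes, Algebra.norm_eq_prod_automorphisms, map_prod]
  have hne : ∀ σ : M ≃ₐ[k] M, F (φ (σ ρ)) ≠ 0 := by
    intro σ
    apply (F.pos _).ne'
    intro h
    exact hρ0 ((map_eq_zero σ).1 ((map_eq_zero φ).1 h))
  rw [h1, map_prod, Real.log_prod fun σ _ => hne σ]
  refine (Finset.sum_le_sum fun σ _ => H σ).trans (le_of_eq ?_)
  rw [Finset.sum_add_distrib, Finset.sum_const, Finset.card_univ, nsmul_eq_mul, Finset.sum_comm]
  have hd' : (d : ℝ) ≠ 0 := by exact_mod_cast hd.ne'
  have h2 : ∀ m, ∑ σ : M ≃ₐ[k] M, β (σ (z (s m))) =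
      Fintype.card (M ≃ₐ[k] M) / d * ∑ i, β (z i) := by
    intro m
    have h3 := gal_avg z hinj f hirr hf β (s m)
    field_simp
    linarith
  rw [Finset.sum_congr rfl fun m _ => h2 m, Finset.sum_const, Finset.card_univ, Fintype.card_fin,
    nsmul_eq_mul]
  field_simp

theorem at_S {A : Type} [Field A] [Algebra k A] (F : AbsoluteValue A ℝ) (D : Finset (A × A))
    {d t' : ℕ} (hd : 0 < d) (z : Fin d → M) (hinj : Function.Injective z) (f : k[X])
    (hirr : Irreducible f) (hf : f.map (algebraMap k M) = ∏ i, (X - C (z i))) (φ : M →ₐ[k] A)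
    (e : Fin (t' + 1) → Fin (d + 1) → k) (u : Fin (t' + 1) → k) (s : Fin t' → Fin d) (ρ : M)
    (hρ0 : ρ ≠ 0)
    (hρ : ∀ y : Fin (t' + 1) → M,
      (Matrix.of (Fin.cons y (fun m j => (toP (fun l => algebraMap k M (e j l))).eval (z (s m))) :
        Fin (t' + 1) → Fin (t' + 1) → M)).det = ρ * ∑ j, y j * algebraMap k M (u j))
    (Cc w0 : ℝ)
    (H : ∀ (s : Fin t' → Fin d) (ρ : A), ρ ≠ 0 → (∀ y : Fin (t' + 1) → A,
      (Matrix.of (Fin.cons y (fun m j => (toP (fun l => algebraMap k A (e j l))).eval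
        (φ (z (s m)))) : Fin (t' + 1) → Fin (t' + 1) → A)).det =
          ρ * ∑ j, y j * algebraMap k A (u j)) →
      Real.log (F ρ) + w0 ≤ Cc + ∑ m, Lv F D (fun i => φ (z i)) (φ (z (s m)))) :
    Real.log (F (algebraMap k A (Algebra.norm k ρ))) ≤
      Fintype.card (M ≃ₐ[k] M) * ((Cc - w0) + t' / d *
        ∑ i, Lv F D (fun i => φ (z i)) (φ (z i))) := by
  classical
  refine norm_le F φ hd z hinj f hirr hf s ρ hρ0 (Cc - w0)
    (fun x => Lv F D (fun i => φ (z i)) (φ x)) fun σ => ?_
  choose p hp using fun m => conj_root z f hf σ (s m)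
  have h1 : ∀ y : Fin (t' + 1) → A,
      (Matrix.of (Fin.cons y (fun m j => (toP (fun l => algebraMap k A (e j l))).eval
        (φ (z (p m)))) : Fin (t' + 1) → Fin (t' + 1) → A)).det =
          φ (σ ρ) * ∑ j, y j * algebraMap k A (u j) := by
    intro y
    have h2 := rel_map ((φ : M →+* A).comp (σ : M →+* M))
      (fun m j => (toP (fun l => algebraMap k M (e j l))).eval (z (s m)))
      (fun j => algebraMap k M (u j)) ρ hρ y
    have h3 : (fun m j => ((φ : M →+* A).comp (σ : M →+* M))
        ((toP (fun l => algebraMap k M (e j l))).eval (z (s m)))) =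
        fun m j => (toP (fun l => algebraMap k A (e j l))).eval (φ (z (p m))) := by
      funext m j
      rw [toP_eval, toP_eval, map_sum]
      refine Finset.sum_congr rfl fun l _ => ?_
      simp only [map_mul, map_pow, RingHom.coe_comp, Function.comp_apply, RingHom.coe_coe,
        AlgEquiv.commutes, AlgHom.commutes, hp]
    rw [h3] at h2
    rw [h2]
    simp only [RingHom.coe_comp, Function.comp_apply, RingHom.coe_coe, AlgEquiv.commutes,
      AlgHom.commutes]
  have hne : φ (σ ρ) ≠ 0 := by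
    intro h
    exact hρ0 ((map_eq_zero σ).1 ((map_eq_zero φ).1 h))
  have h4 := H p (φ (σ ρ)) hne h1
  have h5 : ∑ m, Lv F D (fun i => φ (z i)) (φ (σ (z (s m)))) =
      ∑ m, Lv F D (fun i => φ (z i)) (φ (z (p m))) :=
    Finset.sum_congr rfl fun m _ => by rw [hp]
  rw [h5]
  linarith

theorem at_T (g : AbsoluteValue M ℝ) (hna : IsNonarchimedean g) {d t' : ℕ} (hd : 0 < d)
    (z : Fin d → M) (hinj : Function.Injective z) (f : k[X])
    (hirr : Irreducible f) (hf : f.map (algebraMap k M) = ∏ i, (X - C (z i)))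
    (e : Fin (t' + 1) → Fin (d + 1) → k) (u : Fin (t' + 1) → k)
    (hfu : ∀ l : Fin (d + 1), f.coeff l = ∑ j, u j * e j l)
    (s : Fin t' → Fin d) (ρ : M) (hρ0 : ρ ≠ 0)
    (hρ : ∀ y : Fin (t' + 1) → M,
      (Matrix.of (Fin.cons y (fun m j => (toP (fun l => algebraMap k M (e j l))).eval (z (s m))) :
        Fin (t' + 1) → Fin (t' + 1) → M)).det = ρ * ∑ j, y j * algebraMap k M (u j))
    (E0 : ℝ) (hE1 : 1 ≤ E0) (hE : ∀ j l, g (algebraMap k M (e j l)) ≤ E0) (B : ℝ) (hB0 : 0 < B)
    (hB : ∀ l, g (algebraMap k M (f.coeff l)) ≤ B) (l0 : Fin (d + 1))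
    (hl0 : g (algebraMap k M (f.coeff l0)) = B) :
    Real.log (g (algebraMap k M (Algebra.norm k ρ))) ≤
      Fintype.card (M ≃ₐ[k] M) * (((t' : ℝ) - 1) * Real.log B + (t' + 1) * Real.log E0) := by
  classical
  have h0 := norm_le g (AlgHom.id k M) hd z hinj f hirr hf s ρ hρ0
    ((t' + 1) * Real.log E0 - Real.log B) (fun x => d * Real.log (max 1 (g x))) (fun σ => by
      have h1 : ∀ y : Fin (t' + 1) → M,
          (Matrix.of (Fin.cons y (fun m j => (toP (fun l => algebraMap k M (e j l))).eval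
            (σ (z (s m)))) : Fin (t' + 1) → Fin (t' + 1) → M)).det =
              σ ρ * ∑ j, y j * algebraMap k M (u j) := by
        intro y
        have h2 := rel_map (σ : M →+* M)
          (fun m j => (toP (fun l => algebraMap k M (e j l))).eval (z (s m)))
          (fun j => algebraMap k M (u j)) ρ hρ y
        have h3 : (fun m j => (σ : M →+* M)
            ((toP (fun l => algebraMap k M (e j l))).eval (z (s m)))) =
            fun m j => (toP (fun l => algebraMap k M (e j l))).eval (σ (z (s m))) := by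
          funext m j
          rw [toP_eval, toP_eval, map_sum]
          refine Finset.sum_congr rfl fun l _ => ?_
          simp only [map_mul, map_pow, RingHom.coe_coe, AlgEquiv.commutes]
        rw [h3] at h2
        rw [h2]
        simp only [RingHom.coe_coe, AlgEquiv.commutes]
      have h2 := rho_T g hna (fun j l => algebraMap k M (e j l)) (fun j => algebraMap k M (u j))
        (fun m => σ (z (s m))) E0 hE1 hE (σ ρ) h1 l0
      have h3 : ∑ j, algebraMap k M (u j) * algebraMap k M (e j l0) =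
          algebraMap k M (f.coeff l0) := by
        rw [hfu, map_sum]
        exact Finset.sum_congr rfl fun j _ => by rw [map_mul]
      rw [h3, hl0] at h2
      have hσρ : 0 < g (σ ρ) := by
        apply g.pos
        intro h
        apply hρ0
        apply σ.injective
        rw [h, map_zero]
      have hE0' : 0 < E0 := by linarith
      have hm : ∀ m, 0 < max 1 (g (σ (z (s m)))) := fun m => lt_max_of_lt_left one_pos
      have h4 := Real.log_le_log (mul_pos hσρ hB0) h2
      rw [Real.log_mul hσρ.ne' hB0.ne', Real.log_mul hE0'.ne' (Finset.prod_pos fun m _ =>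
        mul_pos hE0' (pow_pos (hm m) d)).ne', Real.log_prod fun m _ =>
        (mul_pos hE0' (pow_pos (hm m) d)).ne'] at h4
      have h5 : ∀ m, Real.log (E0 * max 1 (g (σ (z (s m)))) ^ d) =
          Real.log E0 + d * Real.log (max 1 (g (σ (z (s m))))) := by
        intro m
        rw [Real.log_mul hE0'.ne' (pow_pos (hm m) d).ne', Real.log_pow]
      rw [Finset.sum_congr rfl fun m _ => h5 m, Finset.sum_add_distrib, Finset.sum_const,
        Finset.card_univ, Fintype.card_fin, nsmul_eq_mul] at h4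
      show Real.log (g (σ ρ)) ≤ _
      linarith)
  refine h0.trans (mul_le_mul_of_nonneg_left ?_ (Nat.cast_nonneg _))
  have h6 := gauss_coeff g hna z B (fun j => by rw [← hf, coeff_map]; exact hB j)
  have hp : 0 < ∏ k, max 1 (g (z k)) := Finset.prod_pos fun k _ => lt_max_of_lt_left one_pos
  have h7 := Real.log_le_log hp h6
  rw [Real.log_prod fun k _ => (show (max 1 (g (z k))) ≠ 0 from
      (lt_max_of_lt_left one_pos).ne')] at h7
  have hd' : (d : ℝ) ≠ 0 := by exact_mod_cast hd.ne'
  have h8 : (t' : ℝ) / d * ∑ i, d * Real.log (max 1 (g (z i))) =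
      t' * ∑ i, Real.log (max 1 (g (z i))) := by
    rw [← Finset.mul_sum]
    field_simp
  rw [h8]
  have h9 : (t' : ℝ) * ∑ i, Real.log (max 1 (g (z i))) ≤ t' * Real.log B :=
    mul_le_mul_of_nonneg_left h7 (Nat.cast_nonneg _)
  linarith

end General

end Pool.Agent.Run7.h860.Nk
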