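import Pool.Agent.Run7.h860.Nk.Cor2
import Pool.Agent.R847.SN.Fld

/-!
The global inequality, for a given choice of the forms.
-/

set_option autoImplicit false

open Finset Polynomial Module

namespace Pool.Agent.Run7.h860.Nk

open NumberField IsDedekindDomain Height
open Pool.Agent.W180.OP (Pl av wt nrm le_nrm nrm_pos nrm_nonneg exists_nrm wt_nonneg
  fv_support_finite)
open Pool.Agent.R405 (Good exists_good logHeight_sum nrm_finite)

variable {k : Type} [Field k] [NumberField k]

theorem good_na {K : Type} [Field K] [NumberField K] [Algebra k K] {v : HeightOneSpectrum (𝓞 k)}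
    {g : AbsoluteValue K ℝ} (hg : Good (Sum.inr v : Pl k) g) : IsNonarchimedean g := by
  obtain ⟨Q, c, _, hc, _, hf⟩ := hg
  intro x y
  rw [hf, hf, hf]
  have h1 := Pool.Agent.Y742.SF.fv_add_le Q x y
  have h2 := Real.rpow_le_rpow (Pool.Agent.Y742.SF.fv_nonneg _ _) h1 (inv_pos.2 hc).le
  refine h2.trans (le_of_eq ?_)
  rcases le_total (Pool.Agent.Y742.SF.fv Q x) (Pool.Agent.Y742.SF.fv Q y) with h | h
  · rw [max_eq_right h, max_eq_right]
    exact Real.rpow_le_rpow (Pool.Agent.Y742.SF.fv_nonneg _ _) h (inv_pos.2 hc).le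
  · rw [max_eq_left h, max_eq_left]
    exact Real.rpow_le_rpow (Pool.Agent.Y742.SF.fv_nonneg _ _) h (inv_pos.2 hc).le

/-- the sum of the minima over all pairs of roots -/
noncomputable def Qv {A : Type} [Field A] (F : AbsoluteValue A ℝ) (D : Finset (A × A)) {d : ℕ}
    (z : Fin d → A) : ℝ :=
  ∑ i, ∑ l, ∑ a ∈ D, min (lam F a (z i)) (lam F a (z l))

/-- a bound for the coefficients of `e` at a finite place -/
noncomputable def Ev {t d : ℕ} (e : Fin t → Fin (d + 1) → k) (v : HeightOneSpectrum (𝓞 k)) : ℝ :=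
  ∏ j, ∏ l, max 1 (Pool.Agent.W180.OP.fv v (e j l))

theorem one_le_Ev {t d : ℕ} (e : Fin t → Fin (d + 1) → k) (v : HeightOneSpectrum (𝓞 k)) :
    1 ≤ Ev e v :=
  Finset.one_le_prod fun _ _ => Finset.one_le_prod fun _ _ => le_max_left _ _

theorem le_Ev {t d : ℕ} (e : Fin t → Fin (d + 1) → k) (v : HeightOneSpectrum (𝓞 k)) (j : Fin t)
    (l : Fin (d + 1)) : Pool.Agent.W180.OP.fv v (e j l) ≤ Ev e v := by
  classical
  unfold Ev
  rw [← Finset.mul_prod_erase _ _ (Finset.mem_univ j),
    ← Finset.mul_prod_erase _ _ (Finset.mem_univ l), mul_assoc]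
  have h1 : (1 : ℝ) ≤ (∏ x ∈ Finset.univ.erase l, max 1 (Pool.Agent.W180.OP.fv v (e j x))) *
      ∏ x ∈ Finset.univ.erase j, ∏ l, max 1 (Pool.Agent.W180.OP.fv v (e x l)) :=
    one_le_mul_of_one_le_of_one_le (Finset.one_le_prod fun _ _ => le_max_left _ _)
      (Finset.one_le_prod fun _ _ => Finset.one_le_prod fun _ _ => le_max_left _ _)
  have h2 : Pool.Agent.W180.OP.fv v (e j l) ≤ max 1 (Pool.Agent.W180.OP.fv v (e j l)) :=
    le_max_right _ _
  have h3 : (0 : ℝ) ≤ max 1 (Pool.Agent.W180.OP.fv v (e j l)) := zero_le_one.trans (le_max_left _ _)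
  calc _ ≤ max 1 (Pool.Agent.W180.OP.fv v (e j l)) * 1 := by rw [mul_one]; exact h2
    _ ≤ _ := mul_le_mul_of_nonneg_left h1 h3

theorem Ev_finite {t d : ℕ} (e : Fin t → Fin (d + 1) → k) : {v | Ev e v ≠ 1}.Finite := by
  have h1 : (⋃ (j : Fin t) (l : Fin (d + 1)),
      {v | e j l ≠ 0 ∧ Pool.Agent.W180.OP.fv v (e j l) ≠ 1}).Finite := by
    refine Set.finite_iUnion fun i => Set.finite_iUnion fun j => ?_
    by_cases h : e i j = 0
    · refine Set.finite_empty.subset ?_
      rintro v ⟨hv, -⟩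
      exact absurd h hv
    · exact (fv_support_finite h).subset fun v hv => hv.2
  refine h1.subset fun v hv => ?_
  by_contra hc
  apply hv
  simp only [Set.mem_iUnion, not_exists, Set.mem_ofPred_eq, not_and, not_not] at hc
  unfold Ev
  refine Finset.prod_eq_one fun j _ => Finset.prod_eq_one fun l _ => ?_
  by_cases h : e j l = 0
  · rw [h, map_zero]
    exact max_eq_left zero_le_one
  · rw [hc j l h]
    exact max_self _

theorem core {d t' : ℕ} (hd : 0 < d) (T : Finset (HeightOneSpectrum (𝓞 k)))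
    (F : Pl k → AbsoluteValue (AlgebraicClosure k) ℝ)
    (hF : ∀ v ∈ (Finset.univ : Finset (InfinitePlace k)).disjSum T, ∀ x : k,
      F v (algebraMap k (AlgebraicClosure k) x) = av v x)
    (D : Finset (AlgebraicClosure k × AlgebraicClosure k))
    (b : AlgebraicClosure k × AlgebraicClosure k → AlgebraicClosure k × AlgebraicClosure k)
    (hb : ∀ a ∈ D, a.1 * (b a).2 - a.2 * (b a).1 ≠ 0)
    (hD : ∀ a ∈ D, ∀ b ∈ D, a ≠ b → a.1 * b.2 - a.2 * b.1 ≠ 0) (hne : D.Nonempty)
    (e : Fin (t' + 1) → Fin (d + 1) → k) (P : Fin (t' + 1) → Fin (d + 1) → k)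
    (hP : ∀ i j, ∑ l, P i l * e j l = if i = j then 1 else 0)
    (hex : ∃ s : Fin (t' + 1) → ↥D × Fin (d + 1), (Matrix.of fun a =>
      frm d b (fun j l => algebraMap k (AlgebraicClosure k) (e j l)) (s a)).det ≠ 0) :
    ∃ C0 : ℝ, ∀ (f : k[X]) (u : Fin (t' + 1) → k) (z : Fin d → AlgebraicClosure k),
      f.Monic → Irreducible f → f.natDegree = d →
      (∀ l : Fin (d + 1), f.coeff l = ∑ j, u j * e j l) →
      f.map (algebraMap k (AlgebraicClosure k)) = ∏ i, (X - C (z i)) →
      (∀ a ∈ D, ∀ i, a.1 - a.2 * z i ≠ 0) →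
      (∀ i : ↥D × Fin (d + 1), frm d b (fun j l => algebraMap k (AlgebraicClosure k) (e j l)) i ≠ 0 →
        ∑ l, frm d b (fun j l => algebraMap k (AlgebraicClosure k) (e j l)) i l *
          algebraMap k (AlgebraicClosure k) (u l) ≠ 0) →
      ∃ β : Pl k → Fin (t' + 1) → ↥D × Fin (d + 1),
        (∀ v ∈ (Finset.univ : Finset (InfinitePlace k)).disjSum T, (Matrix.of fun a =>
          frm d b (fun j l => algebraMap k (AlgebraicClosure k) (e j l)) (β v a)).det ≠ 0) ∧
        (t' / d : ℝ) * ∑ v ∈ (Finset.univ : Finset (InfinitePlace k)).disjSum T,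
          wt v * Qv (F v) D z ≤
        ∑ v ∈ (Finset.univ : Finset (InfinitePlace k)).disjSum T, wt v * ∑ i,
          (Real.log (nrm (av v) (fun l : Fin (d + 1) => f.coeff l)) -
            Real.log (F v (∑ l, frm d b (fun j l => algebraMap k (AlgebraicClosure k) (e j l))
              (β v i) l * algebraMap k (AlgebraicClosure k) (u l)))) +
          ((t' : ℝ) - 1) * logHeight (fun l : Fin (d + 1) => f.coeff l) + C0 := by
  classical
  set S : Finset (Pl k) := (Finset.univ : Finset (InfinitePlace k)).disjSum T with hS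
  set eA : Fin (t' + 1) → Fin (d + 1) → AlgebraicClosure k :=
    fun j l => algebraMap k (AlgebraicClosure k) (e j l) with heA
  choose Cc hCc using fun v : Pl k => loc_S (F v) d t' D b hb hD hne eA hex
  set BE : Finset (HeightOneSpectrum (𝓞 k)) := (Ev_finite e).toFinset with hBE
  refine ⟨∑ v ∈ S, wt v * (|Cc v| + 2 * t' * (d * Real.log (d + 1))) +
    ∑ v ∈ BE, (t' + 1) * Real.log (Ev e v), ?_⟩
  intro f u z hmon hirr hfd hfu hfz hz hnz
  have hd0 : (0 : ℝ) < d := by exact_mod_cast hd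
  -- the roots in a Galois number field
  have hsep : Function.Injective z := by
    have h1 : (f.map (algebraMap k (AlgebraicClosure k))).Separable := hirr.separable.map
    rw [hfz] at h1
    exact separable_prod_X_sub_C_iff.1 h1
  obtain ⟨M, iM, hNF, iA, hGal, φ, -, hφ⟩ := Pool.Agent.R847.SN.exists_gal k (Set.range z)
    (Set.finite_range z)
  choose zM hzM using fun i => hφ (z i) ⟨i, rfl⟩
  have hGk : IsGalois k M := IsGalois.tower_top_of_isGalois ℚ k M
  have hfM : f.map (algebraMap k M) = ∏ i, (X - C (zM i)) := by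
    apply Polynomial.map_injective (φ : M →+* AlgebraicClosure k) φ.toRingHom.injective
    rw [Polynomial.map_map, Polynomial.map_prod]
    have h1 : (φ : M →+* AlgebraicClosure k).comp (algebraMap k M) =
        algebraMap k (AlgebraicClosure k) := φ.comp_algebraMap
    rw [h1, hfz]
    refine Finset.prod_congr rfl fun i _ => ?_
    rw [Polynomial.map_sub, Polynomial.map_X, Polynomial.map_C]
    congr 2
    exact (hzM i).symm
  have hinjM : Function.Injective zM := by
    intro i j hij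
    apply hsep
    rw [← hzM i, ← hzM j, hij]
  obtain ⟨s, ρ, hρ0, hρ⟩ := exists_rho_ne zM hinjM f hfd hmon hfM e P hP u hfu
  set N : k := Algebra.norm k ρ with hN
  have hN0 : N ≠ 0 := Algebra.norm_ne_zero_iff.2 hρ0
  set G : ℝ := ((Fintype.card (M ≃ₐ[k] M) : ℕ) : ℝ) with hG
  have hG0 : 0 < G := by
    rw [hG]
    exact_mod_cast Fintype.card_pos
  -- the vector of `f`
  set fv : Fin (d + 1) → k := fun l => f.coeff l with hfv
  have hlast : fv (Fin.last d) = 1 := by
    show f.coeff d = 1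
    rw [← hfd]
    exact hmon
  have hfv0 : fv ≠ 0 := by
    intro h
    rw [h] at hlast
    exact zero_ne_one hlast
  have hzf : (fun i => φ (zM i)) = z := funext hzM
  have hprodA : ∏ i, (X - C (z i)) = toP (fun l : Fin (d + 1) =>
      ∑ j, algebraMap k (AlgebraicClosure k) (u j) * eA j l) := by
    rw [← hfz, ← toP_self (d := d) (f.map (algebraMap k (AlgebraicClosure k))) (by
      rw [natDegree_map]
      exact hfd.le)]
    congr 1
    funext l
    rw [coeff_map, hfu, map_sum]
    exact Finset.sum_congr rfl fun j _ => by rw [map_mul]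
  -- places of `S`
  choose β hβ1 hβ2 using fun v : Pl k =>
    hCc v (fun j => algebraMap k (AlgebraicClosure k) (u j)) z hz hprodA hnz
  refine ⟨β, fun v _ => hβ1 v, ?_⟩
  set w0 : Pl k → ℝ := fun v => ∑ i, Real.log (F v (∑ l, frm d b eA (β v i) l *
    algebraMap k (AlgebraicClosure k) (u l))) with hw0
  have hSv : ∀ v ∈ S, Real.log (av v N) ≤ G * (|Cc v| - w0 v +
      2 * t' * (d * Real.log (d + 1) + Real.log (nrm (av v) fv)) - t' / d * Qv (F v) D z) := by
    intro v hv
    have h1 := at_S (F v) D hd zM hinjM f hirr hfM φ e u s ρ hρ0 hρ (Cc v) (w0 v)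
      (fun s' ρ' hρ'0 hρ' => by
        have h2 := hβ2 v s' ρ' hρ'0 (fun y => by
          have h3 := hρ' y
          simp only [hzM] at h3
          exact h3)
        simp only [hzf, hzM]
        exact h2)
    rw [hF v hv] at h1
    have h2 : ∑ i, Lv (F v) D (fun i => φ (zM i)) (φ (zM i)) = ∑ i, Lv (F v) D z (z i) := by
      rw [hzf]
      exact Finset.sum_congr rfl fun i _ => by rw [hzM]
    rw [h2, sum_Lv] at h1
    have hB0 : 0 < nrm (av v) fv := nrm_pos _ hfv0
    have h3 := mh_F (F v) z (nrm (av v) fv) (fun j => by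
      rw [← hfz, coeff_map, hF v hv]
      by_cases hj : j < d + 1
      · exact le_nrm (av v) fv ⟨j, hj⟩
      · rw [coeff_eq_zero_of_natDegree_lt (by omega), map_zero]
        exact hB0.le) hB0
    refine h1.trans (mul_le_mul_of_nonneg_left ?_ hG0.le)
    have h4 : (t' : ℝ) / d * (2 * d * ∑ k, Real.log (max 1 (F v (z k))) -
        ∑ i, ∑ k, ∑ a ∈ D, min (lam (F v) a (z i)) (lam (F v) a (z k))) =
        2 * t' * (∑ k, Real.log (max 1 (F v (z k)))) - t' / d * Qv (F v) D z := by
      unfold Qv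
      field_simp
    rw [h4]
    have h5 : 2 * (t' : ℝ) * (∑ k, Real.log (max 1 (F v (z k)))) ≤
        2 * t' * (d * Real.log (d + 1) + Real.log (nrm (av v) fv)) :=
      mul_le_mul_of_nonneg_left h3 (by positivity)
    have h6 := le_abs_self (Cc v)
    linarith
  -- the other places
  have hTv : ∀ v : HeightOneSpectrum (𝓞 k), Real.log (Pool.Agent.W180.OP.fv v N) ≤
      G * (((t' : ℝ) - 1) * Real.log (nrm (Pool.Agent.W180.OP.fv v) fv) +
        (t' + 1) * Real.log (Ev e v)) := by
    intro v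
    obtain ⟨g, hg⟩ := exists_good (K := M) (Sum.inr v : Pl k)
    have hext : ∀ x : k, g (algebraMap k M x) = Pool.Agent.W180.OP.fv v x := fun x => hg.ext x
    obtain ⟨l0, hl0⟩ := exists_nrm (Pool.Agent.W180.OP.fv v) (Nat.succ_pos d) fv
    have hB0 : 0 < nrm (Pool.Agent.W180.OP.fv v) fv := nrm_pos _ hfv0
    have h1 := at_T g (good_na hg) hd zM hinjM f hirr hfM e u hfu s ρ hρ0 hρ (Ev e v)
      (one_le_Ev e v) (fun j l => by rw [hext]; exact le_Ev e v j l)
      (nrm (Pool.Agent.W180.OP.fv v) fv) hB0 (fun j => by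
        rw [hext]
        by_cases hj : j < d + 1
        · exact le_nrm (Pool.Agent.W180.OP.fv v) fv ⟨j, hj⟩
        · rw [coeff_eq_zero_of_natDegree_lt (by omega), map_zero]
          exact hB0.le) l0 (by rw [hext]; exact hl0)
    rw [hext] at h1
    exact h1
  -- the product formula
  set T' : Finset (HeightOneSpectrum (𝓞 k)) := T ∪ ((fv_support_finite hN0).toFinset ∪
    (nrm_finite fv hfv0).toFinset) with hT'
  have hTsub : T ⊆ T' := Finset.subset_union_left
  have hpf := prod_formula N hN0 T' (fun v hv => by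
    by_contra hc
    apply hv
    rw [hT']
    simp only [Finset.mem_union, Set.Finite.mem_toFinset]
    exact Or.inr (Or.inl hc))
  have hlh := logHeight_sum fv hfv0 T' (fun v hv => by
    by_contra hc
    apply hv
    rw [hT']
    simp only [Finset.mem_union, Set.Finite.mem_toFinset, Set.mem_ofPred_eq]
    exact Or.inr (Or.inr hc))
  have hsplit : ∀ g : Pl k → ℝ, ∑ w : InfinitePlace k, (w.mult : ℝ) * g (Sum.inl w) +
      ∑ v ∈ T', g (Sum.inr v) = ∑ v ∈ S, wt v * g v + ∑ v ∈ T' \ T, g (Sum.inr v) := by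
    intro g
    rw [hS, Finset.sum_disjSum, ← Finset.sum_sdiff hTsub]
    have e1 : ∑ v ∈ T, wt (Sum.inr v : Pl k) * g (Sum.inr v) = ∑ v ∈ T, g (Sum.inr v) :=
      Finset.sum_congr rfl fun v _ => one_mul _
    have e2 : ∑ w : InfinitePlace k, wt (Sum.inl w : Pl k) * g (Sum.inl w) =
        ∑ w : InfinitePlace k, (w.mult : ℝ) * g (Sum.inl w) := rfl
    rw [e1, e2]
    ring
  have hpf' : ∑ v ∈ S, wt v * Real.log (av v N) +
      ∑ v ∈ T' \ T, Real.log (Pool.Agent.W180.OP.fv v N) = 0 := by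
    rw [← hpf]
    exact (hsplit fun v => Real.log (av v N)).symm
  have hlh' : logHeight fv = ∑ v ∈ S, wt v * Real.log (nrm (av v) fv) +
      ∑ v ∈ T' \ T, Real.log (nrm (Pool.Agent.W180.OP.fv v) fv) := by
    rw [hlh]
    exact hsplit fun v => Real.log (nrm (av v) fv)
  have k1 : ∑ v ∈ S, wt v * Real.log (av v N) ≤ G * ∑ v ∈ S, wt v * (|Cc v| - w0 v +
      2 * t' * (d * Real.log (d + 1) + Real.log (nrm (av v) fv)) - t' / d * Qv (F v) D z) := by
    rw [Finset.mul_sum]
    refine Finset.sum_le_sum fun v hv => ?_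
    calc wt v * Real.log (av v N) ≤ wt v * (G * (|Cc v| - w0 v +
      2 * t' * (d * Real.log (d + 1) + Real.log (nrm (av v) fv)) - t' / d * Qv (F v) D z)) :=
        mul_le_mul_of_nonneg_left (hSv v hv) (wt_nonneg v)
      _ = _ := by ring
  have k2 : ∑ v ∈ T' \ T, Real.log (Pool.Agent.W180.OP.fv v N) ≤
      G * ∑ v ∈ T' \ T, (((t' : ℝ) - 1) * Real.log (nrm (Pool.Agent.W180.OP.fv v) fv) +
        (t' + 1) * Real.log (Ev e v)) := by
    rw [Finset.mul_sum]
    exact Finset.sum_le_sum fun v _ => hTv v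
  have k3 : 0 ≤ ∑ v ∈ S, wt v * (|Cc v| - w0 v +
      2 * t' * (d * Real.log (d + 1) + Real.log (nrm (av v) fv)) - t' / d * Qv (F v) D z) +
      ∑ v ∈ T' \ T, (((t' : ℝ) - 1) * Real.log (nrm (Pool.Agent.W180.OP.fv v) fv) +
        (t' + 1) * Real.log (Ev e v)) := by
    by_contra hneg
    push Not at hneg
    have := mul_neg_of_pos_of_neg hG0 hneg
    rw [mul_add] at this
    linarith
  have k4 : ∑ v ∈ T' \ T, ((t' : ℝ) + 1) * Real.log (Ev e v) ≤
      ∑ v ∈ BE, ((t' : ℝ) + 1) * Real.log (Ev e v) := by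
    have hnn : ∀ v, 0 ≤ ((t' : ℝ) + 1) * Real.log (Ev e v) := fun v =>
      mul_nonneg (by positivity) (Real.log_nonneg (one_le_Ev e v))
    have e1 : ∑ v ∈ T' \ T, ((t' : ℝ) + 1) * Real.log (Ev e v) =
        ∑ v ∈ (T' \ T).filter fun v => v ∈ BE, ((t' : ℝ) + 1) * Real.log (Ev e v) := by
      rw [Finset.sum_filter]
      refine Finset.sum_congr rfl fun v _ => ?_
      split_ifs with h
      · rfl
      · have : Ev e v = 1 := by
          by_contra hc
          exact h ((Set.Finite.mem_toFinset _).2 hc)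
        rw [this, Real.log_one, mul_zero]
    rw [e1]
    exact Finset.sum_le_sum_of_subset_of_nonneg (fun v hv => (Finset.mem_filter.1 hv).2)
      fun v _ _ => hnn v
  have k5 : ∑ v ∈ S, wt v * (|Cc v| - w0 v +
      2 * t' * (d * Real.log (d + 1) + Real.log (nrm (av v) fv)) - t' / d * Qv (F v) D z) =
      ∑ v ∈ S, wt v * (|Cc v| + 2 * t' * (d * Real.log (d + 1))) +
      ∑ v ∈ S, wt v * ∑ i : Fin (t' + 1), (Real.log (nrm (av v) fv) -
        Real.log (F v (∑ l, frm d b eA (β v i) l * algebraMap k (AlgebraicClosure k) (u l)))) +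
      ((t' : ℝ) - 1) * ∑ v ∈ S, wt v * Real.log (nrm (av v) fv) -
      (t' / d : ℝ) * ∑ v ∈ S, wt v * Qv (F v) D z := by
    rw [Finset.mul_sum, Finset.mul_sum, ← Finset.sum_add_distrib, ← Finset.sum_add_distrib,
      ← Finset.sum_sub_distrib]
    refine Finset.sum_congr rfl fun v _ => ?_
    rw [Finset.sum_sub_distrib, Finset.sum_const, Finset.card_univ, Fintype.card_fin,
      nsmul_eq_mul]
    simp only [hw0]
    push_cast
    ring
  rw [Finset.sum_add_distrib, ← Finset.mul_sum] at k3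
  rw [k5] at k3
  rw [hlh', mul_add]
  linarith

end Pool.Agent.Run7.h860.Nk
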