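import Pool.Agent.Run7.h860.Nk.Poly
import Pool.Agent.R405.ProjH

/-!
The number `ρ` in the splitting field, averages over the Galois group, the product formula.
-/

set_option autoImplicit false

open Finset Polynomial Module

namespace Pool.Agent.Run7.h860.Nk

section Rel

variable {M A : Type} [Field M] [Field A]

/-- transport of the relation of `ρ` along a homomorphism -/
theorem rel_map (φ : M →+* A) {t' : ℕ} (E : Fin t' → Fin (t' + 1) → M) (u : Fin (t' + 1) → M)
    (ρ : M) (hρ : ∀ y : Fin (t' + 1) → M,
      (Matrix.of (Fin.cons y E : Fin (t' + 1) → Fin (t' + 1) → M)).det = ρ * ∑ j, y j * u j)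
    (y : Fin (t' + 1) → A) :
    (Matrix.of (Fin.cons y (fun m j => φ (E m j)) : Fin (t' + 1) → Fin (t' + 1) → A)).det =
      φ ρ * ∑ j, y j * φ (u j) := by
  classical
  have hlin : ∀ y : Fin (t' + 1) → A,
      (Matrix.of (Fin.cons y (fun m j => φ (E m j)) : Fin (t' + 1) → Fin (t' + 1) → A)).det =
      ∑ j, y j * ((-1) ^ (j : ℕ) *
        ((Matrix.of (fun m j => φ (E m j))).submatrix id j.succAbove).det) := by
    intro y
    rw [Matrix.det_succ_row_zero]
    refine Finset.sum_congr rfl fun j _ => ?_
    have h1 : (Matrix.of (Fin.cons y (fun m j => φ (E m j)) :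
        Fin (t' + 1) → Fin (t' + 1) → A)).submatrix
        Fin.succ j.succAbove = (Matrix.of (fun m j => φ (E m j))).submatrix id j.succAbove := by
      ext a b
      simp
    rw [h1]
    simp only [Matrix.of_apply, Fin.cons_zero]
    ring
  have hone : ∀ j : Fin (t' + 1), ((-1) ^ (j : ℕ) *
        ((Matrix.of (fun m j => φ (E m j))).submatrix id j.succAbove).det) = φ ρ * φ (u j) := by
    intro j
    have h1 := hlin (Pi.single j 1)
    rw [Finset.sum_eq_single j] at h1
    · rw [Pi.single_eq_same, one_mul] at h1
      rw [← h1]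
      have h2 : (Matrix.of (Fin.cons (Pi.single j 1) (fun m j => φ (E m j)) :
          Fin (t' + 1) → Fin (t' + 1) → A)) =
          φ.mapMatrix (Matrix.of (Fin.cons (Pi.single j 1) E : Fin (t' + 1) → Fin (t' + 1) → M)) := by
        ext a b
        refine Fin.cases ?_ (fun m => ?_) a
        · simp only [Matrix.of_apply, Fin.cons_zero, RingHom.mapMatrix_apply, Matrix.map_apply]
          by_cases hb : b = j
          · subst hb
            simp
          · rw [Pi.single_eq_of_ne hb, Pi.single_eq_of_ne hb, map_zero]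
        · simp
      rw [h2, ← RingHom.map_det, hρ, map_mul]
      congr 2
      rw [Finset.sum_eq_single j]
      · rw [Pi.single_eq_same, one_mul]
      · intro l _ hl
        rw [Pi.single_eq_of_ne hl, zero_mul]
      · intro hh
        exact absurd (Finset.mem_univ _) hh
    · intro l _ hl
      rw [Pi.single_eq_of_ne hl, zero_mul]
    · intro hh
      exact absurd (Finset.mem_univ _) hh
  rw [hlin, Finset.mul_sum]
  refine Finset.sum_congr rfl fun j _ => ?_
  rw [hone]
  ring

end Rel

section Galois

variable {k M : Type} [Field k] [Field M] [Algebra k M]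

theorem exists_rho_ne {d t' : ℕ} (z : Fin d → M) (hinj : Function.Injective z) (f : k[X])
    (hfd : f.natDegree = d) (hmon : f.Monic)
    (hf : f.map (algebraMap k M) = ∏ i, (X - C (z i))) (e : Fin (t' + 1) → Fin (d + 1) → k)
    (P : Fin (t' + 1) → Fin (d + 1) → k)
    (hP : ∀ i j, ∑ l, P i l * e j l = if i = j then 1 else 0) (u : Fin (t' + 1) → k)
    (hfu : ∀ l : Fin (d + 1), f.coeff l = ∑ j, u j * e j l) :
    ∃ (s : Fin t' → Fin d) (ρ : M), ρ ≠ 0 ∧ ∀ y : Fin (t' + 1) → M,
      (Matrix.of (Fin.cons y (fun m j => (toP (fun l => algebraMap k M (e j l))).eval (z (s m))) :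
        Fin (t' + 1) → Fin (t' + 1) → M)).det = ρ * ∑ j, y j * algebraMap k M (u j) := by
  classical
  have hu0 : (fun j => algebraMap k M (u j)) ≠ 0 := by
    intro h
    have h1 := hfu (Fin.last d)
    have h2 : ∀ j, u j = 0 := fun j => by
      have := congrFun h j
      simpa using this
    rw [Finset.sum_eq_zero fun j _ => by rw [h2 j, zero_mul]] at h1
    have h3 : f.coeff (Fin.last d : Fin (d + 1)) = 1 := by
      show f.coeff d = 1
      rw [← hfd]
      exact hmon
    rw [h3] at h1
    exact one_ne_zero h1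
  have hF : ∏ i, (X - C (z i)) = toP (fun l : Fin (d + 1) =>
      ∑ j, algebraMap k M (u j) * algebraMap k M (e j l)) := by
    rw [← hf, ← toP_self (d := d) (f.map (algebraMap k M)) (by
      rw [natDegree_map]
      exact hfd.le)]
    congr 1
    funext l
    rw [coeff_map, hfu, map_sum]
    exact Finset.sum_congr rfl fun j _ => by rw [map_mul]
  -- all rows kill `u`
  have hkill : ∀ i : Fin d, ∑ j, (toP (fun l => algebraMap k M (e j l))).eval (z i) *
      algebraMap k M (u j) = 0 := by
    intro i
    have h1 : (∏ i, (X - C (z i)) : M[X]).eval (z i) = 0 := by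
      rw [eval_prod]
      exact Finset.prod_eq_zero (Finset.mem_univ i) (by simp)
    rw [hF, toP_eval] at h1
    rw [← h1]
    simp only [toP_eval, Finset.sum_mul]
    rw [Finset.sum_comm]
    refine Finset.sum_congr rfl fun l _ => Finset.sum_congr rfl fun j _ => by ring
  -- the common kernel
  have hker : ∀ y : Fin (t' + 1) → M,
      (∀ i : Fin d, ∑ j, (toP (fun l => algebraMap k M (e j l))).eval (z i) * y j = 0) →
      ∃ c : M, y = c • fun j => algebraMap k M (u j) := by
    intro y hy
    set Y : M[X] := toP (fun l : Fin (d + 1) => ∑ j, y j * algebraMap k M (e j l)) with hY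
    have hYe : ∀ i, Y.eval (z i) = 0 := by
      intro i
      rw [← hy i, hY]
      simp only [toP_eval, Finset.sum_mul]
      rw [Finset.sum_comm]
      refine Finset.sum_congr rfl fun l _ => Finset.sum_congr rfl fun j _ => by ring
    set c := Y.coeff d with hc
    set Q : M[X] := Y - C c * f.map (algebraMap k M) with hQ
    have hQ0 : Q = 0 := by
      by_contra hne
      have h1 : Q.natDegree < d := by
        rw [natDegree_lt_iff_degree_lt hne, degree_lt_iff_coeff_zero]
        intro m hm
        rcases hm.eq_or_lt with rfl | hm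
        · rw [hQ, coeff_sub, coeff_C_mul, coeff_map]
          have h3 : f.coeff d = 1 := by rw [← hfd]; exact hmon
          rw [h3, map_one, mul_one, hc, sub_self]
        · rw [hQ, coeff_sub, coeff_C_mul, coeff_map,
            coeff_eq_zero_of_natDegree_lt (show Y.natDegree < m from
              lt_of_le_of_lt (toP_natDegree_le _) hm),
            coeff_eq_zero_of_natDegree_lt (show f.natDegree < m by omega), map_zero, mul_zero,
            sub_zero]
      apply hne
      refine eq_zero_of_natDegree_lt_card_of_eval_eq_zero Q hinj (fun i => ?_) (by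
        rw [Fintype.card_fin]; exact h1)
      rw [hQ, eval_sub, eval_mul, eval_C, hYe, hf, eval_prod,
        Finset.prod_eq_zero (Finset.mem_univ i) (by simp), mul_zero, sub_zero]
    refine ⟨c, funext fun i => ?_⟩
    have hYf : Y = C c * f.map (algebraMap k M) := sub_eq_zero.1 hQ0
    have h1 : ∀ l : Fin (d + 1), ∑ j, y j * algebraMap k M (e j l) =
        c * ∑ j, algebraMap k M (u j) * algebraMap k M (e j l) := by
      intro l
      have h2 := congrArg (fun p => p.coeff (l : ℕ)) hYf
      simp only [hY] at h2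
      rw [toP_coeff, coeff_C_mul, coeff_map, hfu, map_sum] at h2
      rw [h2]
      congr 1
      exact Finset.sum_congr rfl fun j _ => by rw [map_mul]
    have hPM : ∀ (w : Fin (t' + 1) → M) (i : Fin (t' + 1)),
        ∑ l, algebraMap k M (P i l) * ∑ j, w j * algebraMap k M (e j l) = w i := by
      intro w i
      have h3 : ∀ j, ∑ l, algebraMap k M (P i l) * algebraMap k M (e j l) =
          if i = j then 1 else 0 := by
        intro j
        have h4 := congrArg (algebraMap k M) (hP i j)
        rw [map_sum] at h4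
        simp only [map_mul] at h4
        rw [h4]
        split_ifs <;> simp
      calc ∑ l, algebraMap k M (P i l) * ∑ j, w j * algebraMap k M (e j l)
          = ∑ j, w j * ∑ l, algebraMap k M (P i l) * algebraMap k M (e j l) := by
            simp only [Finset.mul_sum]
            rw [Finset.sum_comm]
            refine Finset.sum_congr rfl fun l _ => Finset.sum_congr rfl fun j _ => by ring
        _ = w i := by
            simp only [h3, mul_ite, mul_one, mul_zero]
            rw [Finset.sum_ite_eq]
            simp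
    have h5 := hPM y i
    have h6 := hPM (fun j => algebraMap k M (u j)) i
    rw [← h5, Finset.sum_congr rfl fun l _ => by rw [h1 l]]
    simp only [Pi.smul_apply, smul_eq_mul]
    rw [← h6, Finset.mul_sum]
    exact Finset.sum_congr rfl fun l _ => by ring
  obtain ⟨s, y0, hs⟩ := exists_rows
    (fun (i : Fin d) j => (toP (fun l => algebraMap k M (e j l))).eval (z i))
    (fun j => algebraMap k M (u j)) hu0 hkill hker
  obtain ⟨ρ, hρ⟩ := exists_rho
    (fun (m : Fin t') j => (toP (fun l => algebraMap k M (e j l))).eval (z (s m)))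
    (fun j => algebraMap k M (u j)) hu0 (fun m => hkill (s m))
  refine ⟨s, ρ, ?_, hρ⟩
  rintro rfl
  apply hs
  rw [hρ y0, zero_mul]

variable [FiniteDimensional k M]

/-- averages over the Galois group -/
theorem gal_avg [Normal k M] {d : ℕ} (z : Fin d → M) (hinj : Function.Injective z) (f : k[X])
    (hirr : Irreducible f) (hf : f.map (algebraMap k M) = ∏ i, (X - C (z i))) (β : M → ℝ)
    (i : Fin d) :
    (d : ℝ) * ∑ σ : M ≃ₐ[k] M, β (σ (z i)) = Fintype.card (M ≃ₐ[k] M) * ∑ l, β (z l) := by
  classical
  have hroot : ∀ x : M, aeval x f = 0 ↔ ∃ l, x = z l := by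
    intro x
    rw [aeval_def, ← eval_map, hf, eval_prod, Finset.prod_eq_zero_iff]
    simp [sub_eq_zero]
  have htrans : ∀ i l : Fin d, ∃ τ : M ≃ₐ[k] M, τ (z i) = z l := by
    intro i l
    have h1 : Algebra.IsAlgebraic k M := inferInstance
    have h2 : Associated f (minpoly k (z i)) := by
      have h3 := minpoly.dvd k (z i) ((hroot _).2 ⟨i, rfl⟩)
      exact (minpoly.irreducible (h1.isAlgebraic (z i)).isIntegral).associated_of_dvd hirr h3
        |>.symm
    refine minpoly.exists_algEquiv_of_root' (h1.isAlgebraic (z i)) ?_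
    obtain ⟨c, hc⟩ := h2
    rw [← hc, map_mul, (hroot (z l)).2 ⟨l, rfl⟩, zero_mul]
  have hconst : ∀ l, ∑ σ : M ≃ₐ[k] M, β (σ (z l)) = ∑ σ : M ≃ₐ[k] M, β (σ (z i)) := by
    intro l
    obtain ⟨τ, hτ⟩ := htrans i l
    rw [← hτ]
    exact Fintype.sum_equiv (Equiv.mulRight τ) _ _ fun σ => rfl
  have hperm : ∀ σ : M ≃ₐ[k] M, ∑ l, β (σ (z l)) = ∑ l, β (z l) := by
    intro σ
    have h1 : ∀ l, ∃ l', σ (z l) = z l' := by
      intro l
      rw [← hroot]
      have : aeval (σ (z l)) f = σ (aeval (z l) f) := by
        rw [← AlgEquiv.coe_toAlgHom, aeval_algHom_apply]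
      rw [this, (hroot _).2 ⟨l, rfl⟩, map_zero]
    choose p hp using h1
    have hpinj : Function.Injective p := by
      intro a b hab
      apply hinj
      apply σ.injective
      rw [hp, hp, hab]
    have hbij := Finite.injective_iff_bijective.1 hpinj
    rw [← Equiv.sum_comp (Equiv.ofBijective p hbij) (fun l => β (z l))]
    exact Finset.sum_congr rfl fun l _ => by rw [hp l]; rfl
  have h1 : (d : ℝ) * ∑ σ : M ≃ₐ[k] M, β (σ (z i)) = ∑ l : Fin d, ∑ σ : M ≃ₐ[k] M, β (σ (z l)) := by
    rw [Finset.sum_congr rfl fun l _ => hconst l, Finset.sum_const, Finset.card_univ,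
      Fintype.card_fin, nsmul_eq_mul]
  rw [h1, Finset.sum_comm, Finset.sum_congr rfl fun σ _ => hperm σ, Finset.sum_const,
    Finset.card_univ, nsmul_eq_mul]

end Galois

section PF

open NumberField IsDedekindDomain Height
open Pool.Agent.W180.OP (Pl av wt nrm le_nrm nrm_pos nrm_nonneg exists_nrm)

variable {k : Type} [Field k] [NumberField k]

/-- the product formula -/
theorem prod_formula (N : k) (hN : N ≠ 0) (T : Finset (HeightOneSpectrum (𝓞 k)))
    (hT : ∀ v, v ∉ T → Pool.Agent.W180.OP.fv v N = 1) :
    ∑ w : InfinitePlace k, (w.mult : ℝ) * Real.log (w N) +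
      ∑ v ∈ T, Real.log (Pool.Agent.W180.OP.fv v N) = 0 := by
  classical
  have e : ∏ᶠ v : FinitePlace k, v N =
      ∏ᶠ v : HeightOneSpectrum (𝓞 k), Pool.Agent.W180.OP.fv v N := by
    rw [← finprod_comp_equiv (FinitePlace.equivHeightOneSpectrum (K := k)).symm]
    rfl
  have e2 : ∏ᶠ v : HeightOneSpectrum (𝓞 k), Pool.Agent.W180.OP.fv v N =
      ∏ v ∈ T, Pool.Agent.W180.OP.fv v N := by
    refine finprod_eq_prod_of_mulSupport_subset _ fun v hv => ?_
    by_contra hc
    exact hv (hT v hc)
  have h1 := NumberField.prod_abs_eq_one hN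
  rw [e, e2] at h1
  have h2 : ∀ w : InfinitePlace k, 0 < w N := fun w => InfinitePlace.pos_iff.2 hN
  have h3 : ∀ v : HeightOneSpectrum (𝓞 k), 0 < Pool.Agent.W180.OP.fv v N :=
    fun v => AbsoluteValue.pos _ hN
  have h4 := congrArg Real.log h1
  rw [Real.log_one, Real.log_mul (Finset.prod_pos fun w _ => pow_pos (h2 w) _).ne'
    (Finset.prod_pos fun v _ => h3 v).ne', Real.log_prod fun w _ => (pow_pos (h2 w) _).ne',
    Real.log_prod fun v _ => (h3 v).ne'] at h4
  simpa only [Real.log_pow] using h4

end PF

end Pool.Agent.Run7.h860.Nk
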