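import Pool.Agent.Run7.h860.Nk.Sub

/-!
Induction over the subspaces.
-/

set_option autoImplicit false

open Finset Polynomial Module

namespace Pool.Agent.Run7.h860.Nk

open NumberField IsDedekindDomain Height
open Pool.Agent.W180.OP (Pl av wt nrm le_nrm nrm_pos nrm_nonneg exists_nrm wt_nonneg
  fv_support_finite)
open Pool.Agent.R405 (Good)

variable {k : Type} [Field k] [NumberField k]

/-- the linear map with columns `e` -/
noncomputable def colMap {t n : ℕ} (e : Fin t → Fin n → k) : (Fin t → k) →ₗ[k] (Fin n → k) where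
  toFun := fun u l => ∑ j, u j * e j l
  map_add' := by
    intro u w
    funext l
    simp only [Pi.add_apply, add_mul, Finset.sum_add_distrib]
  map_smul' := by
    intro c u
    funext l
    simp only [Pi.smul_apply, smul_eq_mul, RingHom.id_apply, Finset.mul_sum, mul_assoc]

/-- a linear form with values in an extension -/
noncomputable def frmMap {K : Type} [Field K] [Algebra k K] {t : ℕ} (q : Fin t → K) :
    (Fin t → k) →ₗ[k] K where
  toFun := fun u => ∑ j, q j * algebraMap k K (u j)
  map_add' := by
    intro u w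
    simp only [Pi.add_apply, map_add, mul_add, Finset.sum_add_distrib]
  map_smul' := by
    intro c u
    simp only [Pi.smul_apply, smul_eq_mul, RingHom.id_apply, map_mul, Algebra.smul_def,
      Finset.mul_sum]
    exact Finset.sum_congr rfl fun j _ => by ring

theorem ind {d : ℕ} (hd : 0 < d) (T : Finset (HeightOneSpectrum (𝓞 k)))
    (F : Pl k → AbsoluteValue (AlgebraicClosure k) ℝ)
    (hF : ∀ v ∈ (Finset.univ : Finset (InfinitePlace k)).disjSum T, ∀ x : k,
      F v (algebraMap k (AlgebraicClosure k) x) = av v x)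
    (D : Finset (AlgebraicClosure k × AlgebraicClosure k))
    (b : AlgebraicClosure k × AlgebraicClosure k → AlgebraicClosure k × AlgebraicClosure k)
    (hb : ∀ a ∈ D, a.1 * (b a).2 - a.2 * (b a).1 ≠ 0)
    (hD : ∀ a ∈ D, ∀ b ∈ D, a ≠ b → a.1 * b.2 - a.2 * b.1 ≠ 0) (hne : D.Nonempty)
    {K : Type} [Field K] [NumberField K] [Algebra k K] [IsGalois ℚ K] (hi : ∃ z : K, z ^ 2 = -1)
    (φ : K →ₐ[k] AlgebraicClosure k)
    (hgood : ∀ v ∈ (Finset.univ : Finset (InfinitePlace k)).disjSum T,
      Good v ((F v).comp (φ : K →+* AlgebraicClosure k).injective))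
    (hDK : ∀ a ∈ D, ∃ y : K × K, (φ y.1, φ y.2) = a)
    (hbK : ∀ a ∈ D, ∃ y : K × K, (φ y.1, φ y.2) = b a) (ε : ℝ) (hε : 0 < ε) (n : ℕ) :
    ∀ U : Submodule k (Fin (d + 1) → k), finrank k U = n →
    ∃ C0 : ℝ, ∀ (f : k[X]) (z : Fin d → AlgebraicClosure k),
        f.Monic → Irreducible f → f.natDegree = d →
        (fun l : Fin (d + 1) => f.coeff l) ∈ U →
        f.map (algebraMap k (AlgebraicClosure k)) = ∏ i, (X - C (z i)) →
        (∀ a ∈ D, ∀ i, a.1 - a.2 * z i ≠ 0) →
        ∑ v ∈ (Finset.univ : Finset (InfinitePlace k)).disjSum T, wt v * Qv (F v) D z ≤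
          (2 + ε) * d * logHeight (fun l : Fin (d + 1) => f.coeff l) + C0 := by
  classical
  set S : Finset (Pl k) := (Finset.univ : Finset (InfinitePlace k)).disjSum T with hS
  induction n using Nat.strong_induction_on with
  | _ n ih =>
  intro U hU
  have hlastf : ∀ f : k[X], f.Monic → f.natDegree = d → f.coeff d = 1 := by
    intro f hmon hfd
    rw [← hfd]
    exact hmon
  rcases Nat.lt_or_ge n 2 with hn | hn
  · -- at most one polynomial
    by_cases hex : ∃ f : k[X], f.Monic ∧ f.natDegree = d ∧ (fun l : Fin (d + 1) => f.coeff l) ∈ U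
    · obtain ⟨f0, hm0, hd0, hU0⟩ := hex
      set R : Finset (AlgebraicClosure k) :=
        (f0.map (algebraMap k (AlgebraicClosure k))).roots.toFinset with hR
      refine ⟨∑ z ∈ Fintype.piFinset (fun _ : Fin d => R), |∑ v ∈ S, wt v * Qv (F v) D z|, ?_⟩
      intro f z hmon hirr hfd hfU hfz hz
      have hff : f = f0 := by
        have h1 : finrank k U ≤ 1 := by omega
        have h2 : ∃ c : k, (fun l : Fin (d + 1) => f.coeff l) =
            c • (fun l : Fin (d + 1) => f0.coeff l) := by
          have hne0 : (⟨_, hU0⟩ : U) ≠ 0 := by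
            intro h
            have h3 := congrFun (congrArg Subtype.val h) (Fin.last d)
            have h4 : f0.coeff ((Fin.last d : Fin (d + 1)) : ℕ) = 1 := hlastf f0 hm0 hd0
            have h5 : f0.coeff ((Fin.last d : Fin (d + 1)) : ℕ) = 0 := h3
            rw [h4] at h5
            exact one_ne_zero h5
          obtain ⟨c, hc⟩ := exists_smul_eq_of_finrank_eq_one (K := k) (V := U) (by
            have : 0 < finrank k U := finrank_pos_iff_exists_ne_zero.2 ⟨_, hne0⟩
            omega) hne0 ⟨_, hfU⟩
          exact ⟨c, (congrArg Subtype.val hc).symm⟩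
        obtain ⟨c, hc⟩ := h2
        have h3 := congrFun hc (Fin.last d)
        have h4 : f.coeff d = c * f0.coeff d := h3
        rw [hlastf f hmon hfd, hlastf f0 hm0 hd0, mul_one] at h4
        rw [← h4, one_smul] at hc
        rw [← toP_self f hfd.le, ← toP_self f0 hd0.le, hc]
      subst hff
      have hh0 : 0 ≤ logHeight (fun l : Fin (d + 1) => f.coeff l) := logHeight_nonneg _
      have hzR : z ∈ Fintype.piFinset (fun _ : Fin d => R) := by
        rw [Fintype.mem_piFinset]
        intro i
        rw [hR, Multiset.mem_toFinset, hfz, mem_roots (Finset.prod_ne_zero_iff.2 fun i _ =>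
          X_sub_C_ne_zero _), IsRoot.def, eval_prod]
        exact Finset.prod_eq_zero (Finset.mem_univ i) (by simp)
      have h1 := Finset.single_le_sum (f := fun z => |∑ v ∈ S, wt v * Qv (F v) D z|)
        (fun _ _ => abs_nonneg _) hzR
      have h2 := le_abs_self (∑ v ∈ S, wt v * Qv (F v) D z)
      have h3 : 0 ≤ (2 + ε) * d * logHeight (fun l : Fin (d + 1) => f.coeff l) := by positivity
      linarith
    · exact ⟨0, fun f z hmon _ hfd hfU _ _ => absurd ⟨f, hmon, hfd, hfU⟩ hex⟩
  · obtain ⟨t', ht', rfl⟩ : ∃ t', 0 < t' ∧ n = t' + 1 := ⟨n - 1, by omega, by omega⟩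
    let B := Module.finBasisOfFinrankEq k U hU
    set e : Fin (t' + 1) → Fin (d + 1) → k := fun j => (B j : Fin (d + 1) → k) with he
    have hli : LinearIndependent k e := by
      have h1 := B.linearIndependent
      exact h1.map' U.subtype U.ker_subtype
    have hcol : ∀ u : Fin (t' + 1) → k, colMap e u = ∑ j, u j • e j := by
      intro u
      funext l
      simp only [colMap, LinearMap.coe_mk, AddHom.coe_mk, Finset.sum_apply, Pi.smul_apply,
        smul_eq_mul]
    have hinj : Function.Injective (colMap e) := by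
      rw [← LinearMap.ker_eq_bot, LinearMap.ker_eq_bot']
      intro u hu
      rw [hcol] at hu
      exact funext fun j => Fintype.linearIndependent_iff.1 hli u hu j
    obtain ⟨g, hg⟩ := (colMap e).exists_leftInverse_of_injective (LinearMap.ker_eq_bot.2 hinj)
    set P : Fin (t' + 1) → Fin (d + 1) → k := fun i l => g (Pi.single l 1) i with hPd
    have hgP : ∀ x : Fin (d + 1) → k, ∀ i, g x i = ∑ l, P i l * x l := by
      intro x i
      have h1 : x = ∑ l, x l • (Pi.single l 1 : Fin (d + 1) → k) := by
        funext m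
        simp [Finset.sum_apply, Pi.single_apply]
      conv_lhs => rw [h1]
      rw [map_sum]
      simp only [map_smul, Finset.sum_apply, Pi.smul_apply, smul_eq_mul, hPd]
      exact Finset.sum_congr rfl fun l _ => mul_comm _ _
    have hP : ∀ i j, ∑ l, P i l * e j l = if i = j then 1 else 0 := by
      intro i j
      rw [← hgP]
      have h1 : e j = colMap e (Pi.single j 1) := by
        rw [hcol]
        simp [Pi.single_apply]
      have h2 := congrArg (fun m => m (Pi.single j 1) i) hg
      simp only [LinearMap.comp_apply, LinearMap.id_apply] at h2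
      rw [h1, h2, Pi.single_apply]
    obtain ⟨Z, C1, hZ, hC1⟩ := step hd ht' T F hF D b hb hD hne e P hP hi φ hgood hDK hbK ε hε
    -- the exceptional subspaces
    have hexc : ∀ q : Fin (t' + 1) → K, ∃ C0 : ℝ, q ≠ 0 →
        ∀ (f : k[X]) (z : Fin d → AlgebraicClosure k),
        f.Monic → Irreducible f → f.natDegree = d →
        (fun l : Fin (d + 1) => f.coeff l) ∈ Submodule.map (colMap e) (LinearMap.ker (frmMap q)) →
        f.map (algebraMap k (AlgebraicClosure k)) = ∏ i, (X - C (z i)) →
        (∀ a ∈ D, ∀ i, a.1 - a.2 * z i ≠ 0) →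
        ∑ v ∈ S, wt v * Qv (F v) D z ≤
          (2 + ε) * d * logHeight (fun l : Fin (d + 1) => f.coeff l) + C0 := by
      intro q
      by_cases hq : q = 0
      · exact ⟨0, fun h => absurd hq h⟩
      · have hlt : finrank k (Submodule.map (colMap e) (LinearMap.ker (frmMap q))) < t' + 1 := by
          have h1 : LinearMap.ker (frmMap (k := k) q) ≠ ⊤ := by
            intro htop
            apply hq
            funext j
            have h2 : (Pi.single j 1 : Fin (t' + 1) → k) ∈ LinearMap.ker (frmMap (k := k) q) := by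
              rw [htop]; trivial
            rw [LinearMap.mem_ker] at h2
            simp only [frmMap, LinearMap.coe_mk, AddHom.coe_mk] at h2
            rw [Finset.sum_eq_single j] at h2
            · rw [Pi.single_eq_same, map_one, mul_one] at h2
              exact h2
            · intro l _ hl
              rw [Pi.single_eq_of_ne hl, map_zero, mul_zero]
            · intro h
              exact absurd (Finset.mem_univ _) h
          have h2 := Submodule.finrank_lt h1
          rw [Module.finrank_fin_fun] at h2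
          exact (Submodule.finrank_map_le _ _).trans_lt h2
        obtain ⟨C0, hC0⟩ := ih _ hlt (Submodule.map (colMap e) (LinearMap.ker (frmMap q))) rfl
        exact ⟨C0, fun _ => hC0⟩
    choose Cq hCq using hexc
    refine ⟨|C1| + ∑ q ∈ Z, |Cq q|, ?_⟩
    intro f z hmon hirr hfd hfU hfz hz
    obtain ⟨u, hu⟩ : ∃ u : Fin (t' + 1) → k, colMap e u = fun l : Fin (d + 1) => f.coeff l := by
      refine ⟨fun j => B.repr ⟨_, hfU⟩ j, ?_⟩
      rw [hcol]
      have h1 := B.sum_repr ⟨_, hfU⟩
      have h2 := congrArg (fun x : U => (x : Fin (d + 1) → k)) h1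
      simp only [Submodule.coe_sum, Submodule.coe_smul] at h2
      exact h2
    have hfu : ∀ l : Fin (d + 1), f.coeff l = ∑ j, u j * e j l := by
      intro l
      exact (congrFun hu l).symm
    have hs0 : 0 ≤ ∑ q ∈ Z, |Cq q| := Finset.sum_nonneg fun _ _ => abs_nonneg _
    by_cases hq : ∀ q ∈ Z, ∑ j, q j * algebraMap k K (u j) ≠ 0
    · have h1 := hC1 f u z hmon hirr hfd hfu hfz hz hq
      have h2 := le_abs_self C1
      linarith
    · push Not at hq
      obtain ⟨q, hqZ, hq0⟩ := hq
      have h1 := hCq q (hZ q hqZ) f z hmon hirr hfd ⟨u, hq0, hu⟩ hfz hz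
      have h2 := le_abs_self (Cq q)
      have h3 := Finset.single_le_sum (f := fun q => |Cq q|) (fun _ _ => abs_nonneg _) hqZ
      have h4 := abs_nonneg C1
      linarith

end Pool.Agent.Run7.h860.Nk
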