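import Mathlib

/-!
Linear algebra: minors of rows which kill a vector, choice of rows, greedy bases, determinants.
-/

set_option autoImplicit false

open Finset Polynomial Module

namespace Pool.Agent.Run7.h860.Nk

section Lin

variable {L : Type} [Field L]

/-- the minors of `t'` rows which kill `u` are proportional to `u` -/
theorem exists_rho {t' : ℕ} (E : Fin t' → Fin (t' + 1) → L) (u : Fin (t' + 1) → L) (hu : u ≠ 0)
    (hE : ∀ m, ∑ j, E m j * u j = 0) :
    ∃ ρ : L, ∀ y : Fin (t' + 1) → L,
      (Matrix.of (Fin.cons y E : Fin (t' + 1) → Fin (t' + 1) → L)).det = ρ * ∑ j, y j * u j := by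
  classical
  set mm : Fin (t' + 1) → L := fun j => (-1) ^ (j : ℕ) *
    ((Matrix.of E).submatrix id j.succAbove).det with hmm
  have hlin : ∀ y : Fin (t' + 1) → L,
      (Matrix.of (Fin.cons y E : Fin (t' + 1) → Fin (t' + 1) → L)).det = ∑ j, y j * mm j := by
    intro y
    rw [Matrix.det_succ_row_zero]
    refine Finset.sum_congr rfl fun j _ => ?_
    have h1 : (Matrix.of (Fin.cons y E : Fin (t' + 1) → Fin (t' + 1) → L)).submatrix
        Fin.succ j.succAbove = (Matrix.of E).submatrix id j.succAbove := by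
      ext a b
      simp
    rw [h1]
    simp only [Matrix.of_apply, Fin.cons_zero, hmm]
    ring
  have hkill : ∀ y : Fin (t' + 1) → L, ∑ j, y j * u j = 0 → ∑ j, y j * mm j = 0 := by
    intro y hy
    rw [← hlin]
    refine Matrix.exists_mulVec_eq_zero_iff.1 ⟨u, hu, ?_⟩
    funext i
    refine Fin.cases ?_ (fun m => ?_) i
    · simpa [Matrix.mulVec, dotProduct] using hy
    · simpa [Matrix.mulVec, dotProduct] using hE m
  obtain ⟨j0, hj0⟩ := Function.ne_iff.1 hu
  have hj0' : u j0 ≠ 0 := hj0
  have hprop : ∀ j, mm j = mm j0 / u j0 * u j := by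
    intro j
    by_cases hjj : j = j0
    · subst hjj
      field_simp
    · have h1 := hkill (fun l => if l = j then u j0 else if l = j0 then -u j else 0) (by
        have : ∀ l, (if l = j then u j0 else if l = j0 then -u j else 0) * u l =
            (if l = j then u j0 * u j else 0) + (if l = j0 then -(u j) * u j0 else 0) := by
          intro l
          by_cases h1 : l = j
          · subst h1
            simp [hjj]
          · by_cases h2 : l = j0
            · subst h2
              simp [h1]
            · simp [h1, h2]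
        rw [Finset.sum_congr rfl fun l _ => this l, Finset.sum_add_distrib]
        simp only [Finset.sum_ite_eq', Finset.mem_univ, if_true]
        ring)
      have : ∀ l, (if l = j then u j0 else if l = j0 then -u j else 0) * mm l =
            (if l = j then u j0 * mm j else 0) + (if l = j0 then -(u j) * mm j0 else 0) := by
        intro l
        by_cases h3 : l = j
        · subst h3
          simp [hjj]
        · by_cases h2 : l = j0
          · subst h2
            simp [h3]
          · simp [h3, h2]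
      rw [Finset.sum_congr rfl fun l _ => this l, Finset.sum_add_distrib] at h1
      simp only [Finset.sum_ite_eq', Finset.mem_univ, if_true] at h1
      rw [div_mul_eq_mul_div, eq_div_iff hj0']
      linear_combination h1
  refine ⟨mm j0 / u j0, fun y => ?_⟩
  rw [hlin, Finset.mul_sum]
  refine Finset.sum_congr rfl fun j _ => ?_
  rw [hprop j]
  ring

/-- linearly independent rows -/
theorem exists_sel {ι : Type} [Finite ι] {n : ℕ} (R : ι → Fin n → L) :
    ∃ s : Fin (finrank L (Submodule.span L (Set.range R))) → ι, LinearIndependent L (R ∘ s) := by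
  classical
  obtain ⟨κ, a, ha, hsp, hli⟩ := exists_linearIndependent' L R
  have hfin : Finite κ := Finite.of_injective a ha
  have : Fintype κ := Fintype.ofFinite κ
  have hc : Fintype.card κ = finrank L (Submodule.span L (Set.range R)) := by
    rw [← hsp]
    exact (finrank_span_eq_card hli).symm
  let e : Fin (finrank L (Submodule.span L (Set.range R))) ≃ κ := (Fintype.equivFinOfCardEq hc).symm
  exact ⟨a ∘ e, hli.comp e e.injective⟩

theorem finrank_rows {ι : Type} [Fintype ι] {n : ℕ} (R : ι → Fin n → L) :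
    finrank L (Submodule.span L (Set.range R)) +
      finrank L (LinearMap.ker (Matrix.mulVecLin (Matrix.of R))) = n := by
  classical
  have h1 := LinearMap.finrank_range_add_finrank_ker (Matrix.mulVecLin (Matrix.of R))
  rw [Module.finrank_fin_fun] at h1
  have h2 : finrank L (LinearMap.range (Matrix.mulVecLin (Matrix.of R))) =
      finrank L (Submodule.span L (Set.range R)) := by
    have h3 := Matrix.rank_eq_finrank_span_row (Matrix.of R)
    exact h3
  rw [h2] at h1
  exact h1

/-- rows without common kernel contain a basis -/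
theorem exists_basis_rows {ι : Type} [Fintype ι] {n : ℕ} (R : ι → Fin n → L)
    (h : ∀ y : Fin n → L, (∀ i, ∑ j, R i j * y j = 0) → y = 0) :
    ∃ s : Fin n → ι, (Matrix.of fun a => R (s a)).det ≠ 0 := by
  classical
  have hker : LinearMap.ker (Matrix.mulVecLin (Matrix.of R)) = ⊥ := by
    rw [LinearMap.ker_eq_bot']
    intro y hy
    refine h y fun i => ?_
    have := congrFun hy i
    simpa [Matrix.mulVec, dotProduct] using this
  have h1 := finrank_rows R
  rw [hker, finrank_bot, add_zero] at h1
  obtain ⟨s, hs⟩ := exists_sel R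
  let e : Fin n ≃ Fin (finrank L (Submodule.span L (Set.range R))) := finCongr h1.symm
  refine ⟨s ∘ e, ?_⟩
  have h2 : LinearIndependent L fun a => R ((s ∘ e) a) := hs.comp e e.injective
  have h3 : LinearIndependent L (Matrix.of fun a => R ((s ∘ e) a)).row := h2
  exact ((Matrix.isUnit_iff_isUnit_det _).1 (Matrix.linearIndependent_rows_iff_isUnit.1 h3)).ne_zero

/-- rows with common kernel spanned by `u` -/
theorem exists_rows {ι : Type} [Fintype ι] {t' : ℕ} (R : ι → Fin (t' + 1) → L)
    (u : Fin (t' + 1) → L) (hu : u ≠ 0) (hR : ∀ i, ∑ j, R i j * u j = 0)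
    (h : ∀ y : Fin (t' + 1) → L, (∀ i, ∑ j, R i j * y j = 0) → ∃ c : L, y = c • u) :
    ∃ (s : Fin t' → ι) (y : Fin (t' + 1) → L),
      (Matrix.of (Fin.cons y (fun m => R (s m)) : Fin (t' + 1) → Fin (t' + 1) → L)).det ≠ 0 := by
  classical
  have hker : LinearMap.ker (Matrix.mulVecLin (Matrix.of R)) = Submodule.span L {u} := by
    ext y
    rw [LinearMap.mem_ker, Submodule.mem_span_singleton]
    constructor
    · intro hy
      obtain ⟨c, hc⟩ := h y fun i => by
        have := congrFun hy i
        simpa [Matrix.mulVec, dotProduct] using this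
      exact ⟨c, hc.symm⟩
    · rintro ⟨c, rfl⟩
      funext i
      have := hR i
      simp only [Matrix.mulVecLin_apply, Matrix.mulVec, dotProduct, Matrix.of_apply, Pi.smul_apply,
        smul_eq_mul, Pi.zero_apply]
      rw [← mul_zero c, ← this, Finset.mul_sum]
      exact Finset.sum_congr rfl fun j _ => by ring
  have h1 := finrank_rows R
  rw [hker, finrank_span_singleton hu] at h1
  have h1' : finrank L (Submodule.span L (Set.range R)) = t' := by omega
  obtain ⟨s, hs⟩ := exists_sel R
  let e : Fin t' ≃ Fin (finrank L (Submodule.span L (Set.range R))) := finCongr h1'.symm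
  obtain ⟨j0, hj0⟩ := Function.ne_iff.1 hu
  refine ⟨s ∘ e, Pi.single j0 1, ?_⟩
  have h2 : LinearIndependent L (fun a => R ((s ∘ e) a)) := hs.comp e e.injective
  have h3 : LinearIndependent L (Fin.cons (Pi.single j0 1) (fun a => R ((s ∘ e) a)) :
      Fin (t' + 1) → Fin (t' + 1) → L) := by
    rw [linearIndependent_finCons]
    refine ⟨h2, fun hmem => ?_⟩
    have h4 : ∀ w ∈ Submodule.span L (Set.range fun a => R ((s ∘ e) a)), ∑ j, w j * u j = 0 := by
      intro w hw
      induction hw using Submodule.span_induction with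
      | mem x hx =>
        obtain ⟨a, rfl⟩ := hx
        exact hR _
      | zero => simp
      | add x y _ _ hx hy =>
        simp only [Pi.add_apply, add_mul, Finset.sum_add_distrib, hx, hy, add_zero]
      | smul c x _ hx =>
        simp only [Pi.smul_apply, smul_eq_mul, mul_assoc, ← Finset.mul_sum, hx, mul_zero]
    have h5 := h4 _ hmem
    rw [Finset.sum_eq_single j0] at h5
    · rw [Pi.single_eq_same, one_mul] at h5
      exact hj0 h5
    · intro j _ hj
      rw [Pi.single_eq_of_ne hj, zero_mul]
    · intro hh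
      exact absurd (Finset.mem_univ _) hh
  have h4 : LinearIndependent L (Matrix.of (Fin.cons (Pi.single j0 1)
      (fun a => R ((s ∘ e) a)) : Fin (t' + 1) → Fin (t' + 1) → L)).row := h3
  exact ((Matrix.isUnit_iff_isUnit_det _).1 (Matrix.linearIndependent_rows_iff_isUnit.1 h4)).ne_zero

/-- a basis of minimal weight -/
theorem greedy {ι : Type} [Fintype ι] [DecidableEq ι] {n : ℕ} (c : ι → Fin n → L) (g : ι → ℝ)
    (hg : ∀ i, c i ≠ 0 → 0 < g i) (hex : ∃ s : Fin n → ι, (Matrix.of fun a => c (s a)).det ≠ 0) :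
    ∃ β : Fin n → ι, (Matrix.of fun a => c (β a)).det ≠ 0 ∧
      ∀ i a, Matrix.vecMul (c i) (Matrix.of fun a => c (β a))⁻¹ a ≠ 0 → g (β a) ≤ g i := by
  classical
  set T : Finset (Fin n → ι) := Finset.univ.filter fun s => (Matrix.of fun a => c (s a)).det ≠ 0
  have hT : T.Nonempty := by
    obtain ⟨s, hs⟩ := hex
    exact ⟨s, by simp [T, hs]⟩
  obtain ⟨β, hβ, hmin⟩ := Finset.exists_min_image T (fun s => ∏ a, g (s a)) hT
  have hβ' : (Matrix.of fun a => c (β a)).det ≠ 0 := (Finset.mem_filter.1 hβ).2
  have hpos : ∀ s ∈ T, ∀ a, 0 < g (s a) := by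
    intro s hs a
    apply hg
    intro h0
    apply (Finset.mem_filter.1 hs).2
    exact Matrix.det_eq_zero_of_row_eq_zero a fun j => congrFun h0 j
  refine ⟨β, hβ', fun i a hx => ?_⟩
  set Φ : Matrix (Fin n) (Fin n) L := Matrix.of fun a => c (β a) with hΦ
  have hu : IsUnit Φ.det := isUnit_iff_ne_zero.2 hβ'
  set x := Matrix.vecMul (c i) Φ⁻¹ with hxd
  have hci : c i = ∑ b, x b • Φ b := by
    have h1 : Matrix.vecMul x Φ = c i := by
      rw [hxd, Matrix.vecMul_vecMul, Matrix.nonsing_inv_mul _ hu, Matrix.vecMul_one]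
    rw [← h1]
    funext j
    simp [Matrix.vecMul, dotProduct, Finset.sum_apply]
  have hupd : (Matrix.of fun b => c (Function.update β a i b)) = Φ.updateRow a (c i) := by
    ext b j
    by_cases hb : b = a
    · subst hb
      simp
    · simp [hb, hΦ, Matrix.updateRow_apply]
  have hdet : (Matrix.of fun b => c (Function.update β a i b)).det = x a * Φ.det := by
    rw [hupd, hci, Matrix.det_updateRow_sum]
    rfl
  have hmem : Function.update β a i ∈ T := by
    simp only [T, Finset.mem_filter, Finset.mem_univ, true_and]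
    rw [hdet]
    exact mul_ne_zero hx hβ'
  have h1 := hmin _ hmem
  have h2 : ∏ b, g (Function.update β a i b) = g i * ∏ b ∈ Finset.univ.erase a, g (β b) := by
    rw [← Finset.mul_prod_erase Finset.univ (fun b => g (Function.update β a i b))
      (Finset.mem_univ a)]
    simp only [Function.update_self]
    congr 1
    refine Finset.prod_congr rfl fun b hb => ?_
    rw [Function.update_of_ne (Finset.ne_of_mem_erase hb)]
  have h3 : ∏ b, g (β b) = g (β a) * ∏ b ∈ Finset.univ.erase a, g (β b) :=
    (Finset.mul_prod_erase Finset.univ (fun b => g (β b)) (Finset.mem_univ a)).symm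
  rw [h2, h3] at h1
  exact le_of_mul_le_mul_right h1 (Finset.prod_pos fun b _ => hpos β hβ b)

theorem det_le (g : AbsoluteValue L ℝ) {n : ℕ} (N : Matrix (Fin n) (Fin n) L) (B : Fin n → ℝ)
    (h : ∀ m i, g (N m i) ≤ B m) : g N.det ≤ n.factorial * ∏ m, B m := by
  classical
  rw [Matrix.det_apply]
  refine (g.sum_le _ _).trans ?_
  have h1 : ∀ σ : Equiv.Perm (Fin n), g (Equiv.Perm.sign σ • ∏ i, N (σ i) i) ≤ ∏ m, B m := by
    intro σ
    have h2 : g (Equiv.Perm.sign σ • ∏ i, N (σ i) i) = ∏ i, g (N (σ i) i) := by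
      rw [Units.smul_def, zsmul_eq_mul, map_mul]
      rcases Int.units_eq_one_or (Equiv.Perm.sign σ) with h | h
      · rw [h]
        simp [map_prod]
      · rw [h]
        simp [map_prod]
    rw [h2, ← Equiv.prod_comp σ B]
    exact Finset.prod_le_prod (fun _ _ => g.nonneg _) fun i _ => h _ _
  refine (Finset.sum_le_sum fun σ _ => h1 σ).trans (le_of_eq ?_)
  rw [Finset.sum_const, Finset.card_univ, Fintype.card_perm, Fintype.card_fin, nsmul_eq_mul]

theorem det_le_na (g : AbsoluteValue L ℝ) (hna : IsNonarchimedean g) {n : ℕ}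
    (N : Matrix (Fin n) (Fin n) L) (B : Fin n → ℝ)
    (h : ∀ m i, g (N m i) ≤ B m) : g N.det ≤ ∏ m, B m := by
  classical
  rw [Matrix.det_apply]
  have h1 : ∀ σ : Equiv.Perm (Fin n), g (Equiv.Perm.sign σ • ∏ i, N (σ i) i) ≤ ∏ m, B m := by
    intro σ
    have h2 : g (Equiv.Perm.sign σ • ∏ i, N (σ i) i) = ∏ i, g (N (σ i) i) := by
      rw [Units.smul_def, zsmul_eq_mul, map_mul]
      rcases Int.units_eq_one_or (Equiv.Perm.sign σ) with h | h
      · rw [h]
        simp [map_prod]
      · rw [h]
        simp [map_prod]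
    rw [h2, ← Equiv.prod_comp σ B]
    exact Finset.prod_le_prod (fun _ _ => g.nonneg _) fun i _ => h _ _
  obtain ⟨σ, -, hσ⟩ := IsNonarchimedean.finset_image_add_of_nonempty hna
    (fun σ : Equiv.Perm (Fin n) => Equiv.Perm.sign σ • ∏ i, N (σ i) i) (t := Finset.univ)
    Finset.univ_nonempty
  exact hσ.trans (h1 σ)

/-- the minor identity -/
theorem rho_dual {t' : ℕ} (E : Fin t' → Fin (t' + 1) → L) (u : Fin (t' + 1) → L) (ρ : L)
    (hρ : ∀ y : Fin (t' + 1) → L,
      (Matrix.of (Fin.cons y E : Fin (t' + 1) → Fin (t' + 1) → L)).det = ρ * ∑ j, y j * u j)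
    (Φ : Matrix (Fin (t' + 1)) (Fin (t' + 1)) L) (hΦ : Φ.det ≠ 0) :
    Φ.det * (Matrix.of fun (m i : Fin t') => (∑ j, Φ i.succ j * u j) *
      ∑ j, E m j * Φ⁻¹ j i.succ).det = ρ * ∏ i, ∑ j, Φ i j * u j := by
  classical
  have hu : IsUnit Φ.det := isUnit_iff_ne_zero.2 hΦ
  have h1 := Matrix.det_mul_row (fun i : Fin t' => ∑ j, Φ i.succ j * u j)
    (Matrix.of fun (m i : Fin t') => ∑ j, E m j * Φ⁻¹ j i.succ)
  have h2 : (Matrix.of fun (m i : Fin t') => (∑ j, Φ i.succ j * u j) *
      ∑ j, E m j * Φ⁻¹ j i.succ).det =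
      (∏ i : Fin t', ∑ j, Φ i.succ j * u j) *
        (Matrix.of fun (m i : Fin t') => ∑ j, E m j * Φ⁻¹ j i.succ).det := h1
  have h3 : (Matrix.of (Fin.cons (Φ 0) E : Fin (t' + 1) → Fin (t' + 1) → L) * Φ⁻¹).det =
      (Matrix.of fun (m i : Fin t') => ∑ j, E m j * Φ⁻¹ j i.succ).det := by
    rw [Matrix.det_succ_row_zero, Finset.sum_eq_single 0]
    · have h4 : (Matrix.of (Fin.cons (Φ 0) E : Fin (t' + 1) → Fin (t' + 1) → L) * Φ⁻¹) 0 0 = 1 := by
        have h5 : (Matrix.of (Fin.cons (Φ 0) E : Fin (t' + 1) → Fin (t' + 1) → L) * Φ⁻¹) 0 0 =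
            (Φ * Φ⁻¹) 0 0 := by
          simp only [Matrix.mul_apply, Matrix.of_apply, Fin.cons_zero]
        rw [h5, Matrix.mul_nonsing_inv _ hu, Matrix.one_apply_eq]
      rw [h4]
      have h6 : (Matrix.of (Fin.cons (Φ 0) E : Fin (t' + 1) → Fin (t' + 1) → L) * Φ⁻¹).submatrix
          Fin.succ (Fin.succAbove 0) = Matrix.of fun (m i : Fin t') => ∑ j, E m j * Φ⁻¹ j i.succ := by
        ext m i
        simp [Matrix.mul_apply]
      rw [h6]
      simp
    · intro j _ hj
      have h5 : (Matrix.of (Fin.cons (Φ 0) E : Fin (t' + 1) → Fin (t' + 1) → L) * Φ⁻¹) 0 j =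
          (Φ * Φ⁻¹) 0 j := by
        simp only [Matrix.mul_apply, Matrix.of_apply, Fin.cons_zero]
      rw [h5, Matrix.mul_nonsing_inv _ hu, Matrix.one_apply_ne (Ne.symm hj)]
      ring
    · intro h
      exact absurd (Finset.mem_univ _) h
  rw [h2, ← h3, Matrix.det_mul, hρ, Matrix.det_nonsing_inv, Fin.prod_univ_succ,
    Ring.inverse_eq_inv']
  field_simp

end Lin

end Pool.Agent.Run7.h860.Nk
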