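import Mathlib

/-!
Local estimates: the values of a polynomial at the roots of another one, if its Taylor coefficients
at the points of `D` are not larger.
-/

set_option autoImplicit false

open Finset Polynomial

namespace Pool.Agent.Run7.h860.Nk

section Alg

variable {R : Type} [CommRing R]

/-- homogenisation -/
def hm (n : ℕ) (p : R[X]) (s u : R) : R := ∑ j ∈ Finset.range (n + 1), p.coeff j * s ^ (n - j) * u ^ j

theorem hm_lin (n : ℕ) (a b : R) (p : R[X]) (hp : p.natDegree ≤ n) (s u : R) :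
    hm (n + 1) ((C a + C b * X) * p) s u = (a * s + b * u) * hm n p s u := by
  have hc : ∀ j, ((C a + C b * X) * p).coeff (j + 1) = a * p.coeff (j + 1) + b * p.coeff j := by
    intro j
    rw [add_mul, coeff_add, coeff_C_mul, mul_assoc, coeff_C_mul, coeff_X_mul]
  have hc0 : ((C a + C b * X) * p).coeff 0 = a * p.coeff 0 := by
    rw [add_mul, coeff_add, coeff_C_mul, mul_assoc, coeff_C_mul, coeff_X_mul_zero]
    ring
  unfold hm
  rw [Finset.sum_range_succ' _ (n + 1), hc0]
  simp only [hc]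
  have h1 : ∑ j ∈ Finset.range (n + 1), (a * p.coeff (j + 1) + b * p.coeff j) *
      s ^ (n + 1 - (j + 1)) * u ^ (j + 1) =
      (∑ j ∈ Finset.range (n + 1), a * p.coeff (j + 1) * s ^ (n - j) * u ^ (j + 1)) +
        b * u * ∑ j ∈ Finset.range (n + 1), p.coeff j * s ^ (n - j) * u ^ j := by
    rw [Finset.mul_sum, ← Finset.sum_add_distrib]
    refine Finset.sum_congr rfl fun j _ => ?_
    have : n + 1 - (j + 1) = n - j := by omega
    rw [this]
    ring
  rw [h1]
  have h2 : (∑ j ∈ Finset.range (n + 1), a * p.coeff (j + 1) * s ^ (n - j) * u ^ (j + 1)) +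
      a * p.coeff 0 * s ^ (n + 1 - 0) * u ^ 0 =
      a * s * ∑ j ∈ Finset.range (n + 1), p.coeff j * s ^ (n - j) * u ^ j := by
    rw [Finset.sum_range_succ _ n, Finset.mul_sum, Finset.sum_range_succ' _ n]
    have h3 : p.coeff (n + 1) = 0 := coeff_eq_zero_of_natDegree_lt (by omega)
    rw [h3]
    have h4 : ∑ j ∈ Finset.range n, a * p.coeff (j + 1) * s ^ (n - j) * u ^ (j + 1) =
        ∑ j ∈ Finset.range n, a * s * (p.coeff (j + 1) * s ^ (n - (j + 1)) * u ^ (j + 1)) := by
      refine Finset.sum_congr rfl fun j hj => ?_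
      have h5 : n - j = (n - (j + 1)) + 1 := by
        have := Finset.mem_range.1 hj
        omega
      rw [h5, pow_succ]
      ring
    rw [h4]
    simp only [Nat.sub_zero, pow_zero, mul_one, mul_zero, zero_mul, add_zero]
    rw [pow_succ]
    ring
  linear_combination h2

theorem hm_C (a s u : R) : hm 0 (C a) s u = a := by simp [hm]

theorem hm_smul (n : ℕ) (a : R) (p : R[X]) (s u : R) : hm n (C a * p) s u = a * hm n p s u := by
  unfold hm
  rw [Finset.mul_sum]
  refine Finset.sum_congr rfl fun j _ => ?_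
  rw [coeff_C_mul]
  ring

theorem natDegree_lin_le (a b : R) : (C a + C b * X).natDegree ≤ 1 := by
  rw [add_comm]
  exact natDegree_linear_le

theorem natDegree_prod_lin_le {ι : Type} (T : Finset ι) (x y : ι → R) :
    (∏ i ∈ T, (C (x i) + C (y i) * X)).natDegree ≤ T.card := by
  refine (natDegree_prod_le _ _).trans ?_
  refine (Finset.sum_le_sum fun i _ => natDegree_lin_le (x i) (y i)).trans ?_
  simp

theorem hm_prod {ι : Type} (T : Finset ι) (x y : ι → R) (s u : R) :
    hm T.card (∏ i ∈ T, (C (x i) + C (y i) * X)) s u = ∏ i ∈ T, (x i * s + y i * u) := by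
  classical
  induction T using Finset.induction_on with
  | empty => simp [hm]
  | insert a T ha ih =>
    rw [Finset.prod_insert ha, Finset.card_insert_of_notMem ha,
      hm_lin _ _ _ _ (natDegree_prod_lin_le T x y), ih, Finset.prod_insert ha]

/-- homogenisation of a product of powers of two linear polynomials -/
theorem hm_pow (a b c d s u : R) (k l : ℕ) :
    hm (k + l) ((C a + C b * X) ^ k * (C c + C d * X) ^ l) s u =
      (a * s + b * u) ^ k * (c * s + d * u) ^ l := by
  induction k with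
  | zero =>
    rw [pow_zero, one_mul, pow_zero, one_mul, Nat.zero_add]
    induction l with
    | zero => simp [hm]
    | succ l ih =>
      rw [pow_succ', hm_lin _ _ _ _ _, ih, pow_succ']
      exact (natDegree_pow_le).trans (by
        have := natDegree_lin_le c d
        nlinarith)
  | succ k ih =>
    have h1 : k + 1 + l = (k + l) + 1 := by ring
    rw [h1, pow_succ', mul_assoc, hm_lin _ _ _ _ _, ih, pow_succ']
    · ring
    · refine natDegree_mul_le.trans ?_
      have h2 := (natDegree_pow_le (p := (C a + C b * X)) (n := k))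
      have h3 := (natDegree_pow_le (p := (C c + C d * X)) (n := l))
      have h4 := natDegree_lin_le a b
      have h5 := natDegree_lin_le c d
      nlinarith

/-- the Taylor expansion of `G` (of formal degree `d`) at the point `a` of the line, with respect to
the coordinate `U`, `(x : y) = (a₁ + b₁ U : a₂ + b₂ U)` -/
noncomputable def tr (d : ℕ) (a b : R × R) (G : R[X]) : R[X] :=
  ∑ k ∈ Finset.range (d + 1), C (G.coeff k) *
    ((C a.1 + C b.1 * X) ^ k * (C a.2 + C b.2 * X) ^ (d - k))

theorem tr_eval (d : ℕ) (a b : R × R) (G : R[X]) (hG : G.natDegree ≤ d) (z : R) :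
    hm d (tr d a b G) (b.2 * z - b.1) (a.1 - a.2 * z) = (a.1 * b.2 - a.2 * b.1) ^ d * G.eval z := by
  have h1 : ∀ s u : R, hm d (tr d a b G) s u = ∑ k ∈ Finset.range (d + 1), G.coeff k *
      ((a.1 * s + b.1 * u) ^ k * (a.2 * s + b.2 * u) ^ (d - k)) := by
    intro s u
    have h2 : hm d (tr d a b G) s u = ∑ k ∈ Finset.range (d + 1), hm d (C (G.coeff k) *
        ((C a.1 + C b.1 * X) ^ k * (C a.2 + C b.2 * X) ^ (d - k))) s u := by
      unfold hm tr
      simp only [finsetSum_coeff, Finset.sum_mul]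
      rw [Finset.sum_comm]
    rw [h2]
    refine Finset.sum_congr rfl fun k hk => ?_
    have h3 : k + (d - k) = d := by
      have := Finset.mem_range.1 hk
      omega
    rw [hm_smul]
    have h4 := hm_pow a.1 b.1 a.2 b.2 s u k (d - k)
    rw [h3] at h4
    rw [h4]
  rw [h1, eval_eq_sum_range' (Nat.lt_succ_of_le hG), Finset.mul_sum]
  refine Finset.sum_congr rfl fun k hk => ?_
  have h3 : d = k + (d - k) := by
    have := Finset.mem_range.1 hk
    omega
  have e1 : a.1 * (b.2 * z - b.1) + b.1 * (a.1 - a.2 * z) = (a.1 * b.2 - a.2 * b.1) * z := by ring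
  have e2 : a.2 * (b.2 * z - b.1) + b.2 * (a.1 - a.2 * z) = a.1 * b.2 - a.2 * b.1 := by ring
  rw [e1, e2, mul_pow]
  have e3 : (a.1 * b.2 - a.2 * b.1) ^ d =
      (a.1 * b.2 - a.2 * b.1) ^ k * (a.1 * b.2 - a.2 * b.1) ^ (d - k) := by
    rw [← pow_add, ← h3]
  rw [e3]
  ring

theorem tr_prod {d : ℕ} (a b : R × R) (z : Fin d → R) :
    tr d a b (∏ i, (X - C (z i))) =
      ∏ i, (C (a.1 - a.2 * z i) + C (b.1 - b.2 * z i) * X) := by
  have h0 : ∏ i, (X - C (z i)) = ∏ i : Fin d, (C (-z i) + C 1 * X) := by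
    refine Finset.prod_congr rfl fun i _ => ?_
    rw [map_neg, map_one, one_mul]
    ring
  have h1 := hm_prod (R := R[X]) (Finset.univ : Finset (Fin d)) (fun i => C (-z i)) (fun _ => C 1)
    (C a.2 + C b.2 * X) (C a.1 + C b.1 * X)
  rw [Finset.card_univ, Fintype.card_fin] at h1
  have h2 : tr d a b (∏ i, (X - C (z i))) =
      hm d (∏ i : Fin d, (C (C (-z i)) + C (C 1) * X))
        (C a.2 + C b.2 * X) (C a.1 + C b.1 * X) := by
    rw [h0]
    unfold tr hm
    refine Finset.sum_congr rfl fun k _ => ?_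
    have h3 : (∏ i : Fin d, (C (C (-z i)) + C (C 1) * X) : R[X][X]) =
        (∏ i : Fin d, (C (-z i) + C 1 * X) : R[X]).map C := by
      rw [Polynomial.map_prod]
      refine Finset.prod_congr rfl fun i _ => ?_
      simp
    rw [h3, coeff_map]
    ring
  rw [h2, h1]
  refine Finset.prod_congr rfl fun i _ => ?_
  simp only [map_neg, map_sub, map_mul, map_one]
  ring

/-- the coefficients of the Taylor expansion are linear forms in the coefficients of `G` -/
theorem tr_coeff (d : ℕ) (a b : R × R) (G : R[X]) (j : ℕ) :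
    (tr d a b G).coeff j = ∑ k ∈ Finset.range (d + 1), G.coeff k *
      ((C a.1 + C b.1 * X) ^ k * (C a.2 + C b.2 * X) ^ (d - k)).coeff j := by
  unfold tr
  rw [finsetSum_coeff]
  exact Finset.sum_congr rfl fun k _ => by rw [coeff_C_mul]

end Alg

section Norm

variable {K : Type} [Field K] (F : AbsoluteValue K ℝ)

theorem abv_sub_le (x y : K) : F (x - y) ≤ F x + F y := by
  rw [sub_eq_add_neg]
  refine (F.add_le _ _).trans ?_
  rw [AbsoluteValue.map_neg]

theorem coeff_prod_le {ι : Type} (T : Finset ι) (x y : ι → K) (j : ℕ) :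
    (F ((∏ i ∈ T, (C (x i) + C (y i) * X)).coeff j)) ≤
      (∏ i ∈ T, (C (F (x i)) + C (F (y i)) * X) : ℝ[X]).coeff j := by
  classical
  induction T using Finset.induction_on generalizing j with
  | empty =>
    simp only [Finset.prod_empty, coeff_one]
    split_ifs <;> simp
  | insert a T ha ih =>
    rw [Finset.prod_insert ha, Finset.prod_insert ha, add_mul, add_mul, coeff_add, coeff_add,
      coeff_C_mul, coeff_C_mul, mul_assoc, mul_assoc, coeff_C_mul, coeff_C_mul]
    cases j with
    | zero =>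
      rw [coeff_X_mul_zero, coeff_X_mul_zero, mul_zero, mul_zero, add_zero, add_zero, map_mul]
      exact mul_le_mul_of_nonneg_left (ih 0) (F.nonneg _)
    | succ j =>
      rw [coeff_X_mul, coeff_X_mul]
      refine (F.add_le _ _).trans ?_
      rw [map_mul, map_mul]
      exact add_le_add (mul_le_mul_of_nonneg_left (ih _) (F.nonneg _))
        (mul_le_mul_of_nonneg_left (ih _) (F.nonneg _))

/-- the local Weil function of the point `a` at `z` -/
noncomputable def lam (a : K × K) (z : K) : ℝ := Real.log (max 1 (F (z)) / (F (a.1 - a.2 * z)))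

theorem ab_le (p q z : K) : (F (p - q * z)) ≤ ((F (p)) + (F (q))) * max 1 (F (z)) := by
  have h3 : (1 : ℝ) ≤ max 1 (F (z)) := le_max_left _ _
  have h4 : (F (z)) ≤ max 1 (F (z)) := le_max_right _ _
  refine (abv_sub_le F _ _).trans ?_
  rw [map_mul, add_mul]
  refine add_le_add ?_ (mul_le_mul_of_nonneg_left h4 (F.nonneg _))
  nlinarith [F.nonneg p]

/-- the value at a root, for one point `a` -/
theorem value_le {d : ℕ} (a b : K × K) (z : Fin d → K)
    (hz : ∀ i, a.1 - a.2 * z i ≠ 0) (G : K[X]) (hG : G.natDegree ≤ d) (B : ℝ) (hB : 0 ≤ B)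
    (hc : ∀ j ≤ d, (F ((tr d a b G).coeff j)) ≤ B * (F ((tr d a b (∏ i, (X - C (z i)))).coeff j)))
    (i : Fin d) :
    (F (a.1 * b.2 - a.2 * b.1)) ^ d * (F (G.eval (z i))) ≤
      B * (2 * ((F (a.1)) + (F (a.2)) + (F (b.1)) + (F (b.2)))) ^ d * (∏ k, max 1 (F (z k))) *
        (max 1 (F (z i))) ^ d * ∏ k, Real.exp (-min (lam F a (z i)) (lam F a (z k))) := by
  set Q : ℝ := (F (a.1)) + (F (a.2)) + (F (b.1)) + (F (b.2)) with hQ
  have g1 := F.nonneg a.1
  have g2 := F.nonneg a.2
  have g3 := F.nonneg b.1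
  have g4 := F.nonneg b.2
  have hQ0 : 0 ≤ Q := by linarith
  set mz : Fin d → ℝ := fun k => max 1 (F (z k)) with hmz
  have hmz1 : ∀ k, 1 ≤ mz k := fun k => le_max_left _ _
  set al : Fin d → K := fun k => a.1 - a.2 * z k with hal
  set be : Fin d → K := fun k => b.1 - b.2 * z k with hbe
  have hal0 : ∀ k, 0 < (F (al k)) := fun k => F.pos (hz k)
  have hexp : ∀ k, Real.exp (-lam F a (z k)) = (F (al k)) / mz k := by
    intro k
    unfold lam
    rw [← Real.log_inv, Real.exp_log (inv_pos.2 (div_pos (by have := hmz1 k; linarith) (hal0 k))),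
      inv_div]
  have hmax : ∀ k, Real.exp (-min (lam F a (z i)) (lam F a (z k))) =
      max ((F (al i)) / mz i) ((F (al k)) / mz k) := by
    intro k
    rw [← hexp, ← hexp, ← max_neg_neg]
    exact (Real.exp_strictMono.monotone.map_max)
  have hale : ∀ k, (F (al k)) ≤ Q * mz k := fun k => (ab_le F a.1 a.2 (z k)).trans
    (mul_le_mul_of_nonneg_right (by linarith) (by have := hmz1 k; linarith))
  have hble : ∀ k, (F (be k)) ≤ Q * mz k := fun k => (ab_le F b.1 b.2 (z k)).trans
    (mul_le_mul_of_nonneg_right (by linarith) (by have := hmz1 k; linarith))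
  -- the expansion
  have h1 := tr_eval d a b G hG (z i)
  have e0 : b.2 * z i - b.1 = - be i := by simp only [hbe]; ring
  rw [e0] at h1
  have h2 : (F (a.1 * b.2 - a.2 * b.1)) ^ d * (F (G.eval (z i))) ≤
      ∑ j ∈ Finset.range (d + 1), (F ((tr d a b G).coeff j)) * (F (be i)) ^ (d - j) * (F (al i)) ^ j := by
    rw [← map_pow, ← map_mul, ← h1]
    unfold hm
    refine (F.sum_le _ _).trans (le_of_eq ?_)
    refine Finset.sum_congr rfl fun j _ => ?_
    rw [map_mul, map_mul, map_pow, map_pow, AbsoluteValue.map_neg]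
  set E : ℝ := ∏ k, Real.exp (-min (lam F a (z i)) (lam F a (z k))) with hE
  have hE0 : 0 < E := Finset.prod_pos fun k _ => Real.exp_pos _
  set Mh : ℝ := ∏ k, mz k with hMh
  have hMh0 : 0 ≤ Mh := Finset.prod_nonneg fun k _ => by
    have := hmz1 k; linarith
  -- the sum over the coefficients of `F`
  have h3 : ∑ j ∈ Finset.range (d + 1),
      (F ((tr d a b (∏ i, (X - C (z i)))).coeff j)) * (F (be i)) ^ (d - j) * (F (al i)) ^ j ≤
      (2 * Q) ^ d * Mh * mz i ^ d * E := by
    have h4 : ∑ j ∈ Finset.range (d + 1),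
        (F ((tr d a b (∏ i, (X - C (z i)))).coeff j)) * (F (be i)) ^ (d - j) * (F (al i)) ^ j ≤
        hm d (∏ k : Fin d, (C (F (al k)) + C (F (be k)) * X) : ℝ[X]) (F (be i)) (F (al i)) := by
      unfold hm
      refine Finset.sum_le_sum fun j _ => ?_
      rw [tr_prod]
      have := coeff_prod_le F (Finset.univ : Finset (Fin d)) al be j
      gcongr
    refine h4.trans ?_
    have h5 := hm_prod (Finset.univ : Finset (Fin d)) (fun k => (F (al k))) (fun k => (F (be k)))
      (F (be i)) (F (al i))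
    rw [Finset.card_univ, Fintype.card_fin] at h5
    rw [h5]
    have h6 : ∏ k, ((F (al k)) * (F (be i)) + (F (be k)) * (F (al i))) ≤
        ∏ k, (2 * Q * mz k * mz i * Real.exp (-min (lam F a (z i)) (lam F a (z k)))) := by
      refine Finset.prod_le_prod (fun k _ => by positivity) fun k _ => ?_
      rw [hmax k]
      have hi0 : 0 < mz i := by have := hmz1 i; linarith
      have hk0 : 0 < mz k := by have := hmz1 k; linarith
      set w := max ((F (al i)) / mz i) ((F (al k)) / mz k) with hw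
      have w1 : (F (al i)) ≤ w * mz i := by
        rw [← div_le_iff₀ hi0]; exact le_max_left _ _
      have w2 : (F (al k)) ≤ w * mz k := by
        rw [← div_le_iff₀ hk0]; exact le_max_right _ _
      have w0 : 0 ≤ w := (div_nonneg (F.nonneg _) hi0.le).trans (le_max_left _ _)
      have t1 : (F (al k)) * (F (be i)) ≤ (w * mz k) * (Q * mz i) :=
        mul_le_mul w2 (hble i) (F.nonneg _) (by positivity)
      have t2 : (F (be k)) * (F (al i)) ≤ (Q * mz k) * (w * mz i) :=
        mul_le_mul (hble k) w1 (F.nonneg _) (by positivity)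
      nlinarith
    refine h6.trans (le_of_eq ?_)
    rw [Finset.prod_mul_distrib, Finset.prod_mul_distrib, Finset.prod_mul_distrib,
      Finset.prod_const, Finset.prod_const, Finset.card_univ, Fintype.card_fin]
  -- conclusion
  refine h2.trans ?_
  have h16 : ∑ j ∈ Finset.range (d + 1), (F ((tr d a b G).coeff j)) * (F (be i)) ^ (d - j) * (F (al i)) ^ j ≤
      B * (∑ j ∈ Finset.range (d + 1),
        (F ((tr d a b (∏ i, (X - C (z i)))).coeff j)) * (F (be i)) ^ (d - j) * (F (al i)) ^ j) := by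
    rw [Finset.mul_sum]
    refine Finset.sum_le_sum fun j hj => ?_
    have h17 := hc j (Nat.lt_succ_iff.1 (Finset.mem_range.1 hj))
    calc (F ((tr d a b G).coeff j)) * (F (be i)) ^ (d - j) * (F (al i)) ^ j
        ≤ (B * (F ((tr d a b (∏ i, (X - C (z i)))).coeff j))) * (F (be i)) ^ (d - j) *
            (F (al i)) ^ j := by gcongr
      _ = _ := by ring
  refine h16.trans ?_
  calc B * _ ≤ B * ((2 * Q) ^ d * Mh * mz i ^ d * E) := mul_le_mul_of_nonneg_left h3 hB
    _ = B * (2 * Q) ^ d * Mh * mz i ^ d * E := by ring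

theorem sep_le (a b : K × K) (hab : a.1 * b.2 - a.2 * b.1 ≠ 0) (z : K)
    (ha : a.1 - a.2 * z ≠ 0) (hb : b.1 - b.2 * z ≠ 0) :
    min (lam F a z) (lam F b z) ≤ Real.log (((F (a.1)) + (F (a.2)) + (F (b.1)) + (F (b.2))) /
      (F (a.1 * b.2 - a.2 * b.1))) := by
  set dt := (F (a.1 * b.2 - a.2 * b.1)) with hdt
  have hdt0 : 0 < dt := F.pos hab
  set u := (F (a.1 - a.2 * z)) with hu
  set w := (F (b.1 - b.2 * z)) with hw
  have hu0 : 0 < u := F.pos ha
  have hw0 : 0 < w := F.pos hb
  have g1 := F.nonneg a.1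
  have g2 := F.nonneg a.2
  have g3 := F.nonneg b.1
  have g4 := F.nonneg b.2
  have hM0 : 0 < max u w := lt_max_of_lt_left hu0
  have e1 : a.1 * b.2 - a.2 * b.1 = b.2 * (a.1 - a.2 * z) - a.2 * (b.1 - b.2 * z) := by ring
  have e2 : (a.1 * b.2 - a.2 * b.1) * z = b.1 * (a.1 - a.2 * z) - a.1 * (b.1 - b.2 * z) := by ring
  have k1 : dt ≤ ((F (b.2)) + (F (a.2))) * max u w := by
    rw [hdt, e1]
    refine (abv_sub_le F _ _).trans ?_
    rw [map_mul, map_mul, add_mul]
    exact add_le_add (mul_le_mul le_rfl (le_max_left _ _) hu0.le g4)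
      (mul_le_mul le_rfl (le_max_right _ _) hw0.le g2)
  have k2 : dt * (F (z)) ≤ ((F (b.1)) + (F (a.1))) * max u w := by
    rw [hdt, ← map_mul, e2]
    refine (abv_sub_le F _ _).trans ?_
    rw [map_mul, map_mul, add_mul]
    exact add_le_add (mul_le_mul le_rfl (le_max_left _ _) hu0.le g3)
      (mul_le_mul le_rfl (le_max_right _ _) hw0.le g1)
  have k3 : dt * max 1 (F (z)) ≤ ((F (a.1)) + (F (a.2)) + (F (b.1)) + (F (b.2))) * max u w := by
    rcases le_total 1 (F (z)) with h | h
    · rw [max_eq_right h]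
      nlinarith
    · rw [max_eq_left h]
      nlinarith
  have hm0 : 0 < max 1 (F (z)) := lt_max_of_lt_left one_pos
  have k4 : min (lam F a z) (lam F b z) = Real.log (max 1 (F (z)) / max u w) := by
    unfold lam
    rcases le_total u w with h | h
    · rw [max_eq_right h, min_eq_right]
      exact Real.log_le_log (div_pos hm0 hw0) (div_le_div_of_nonneg_left hm0.le hu0 h)
    · rw [max_eq_left h, min_eq_left]
      exact Real.log_le_log (div_pos hm0 hu0) (div_le_div_of_nonneg_left hm0.le hw0 h)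
  rw [k4]
  refine Real.log_le_log (div_pos hm0 hM0) ?_
  rw [div_le_div_iff₀ hM0 hdt0]
  linarith

/-- the local estimate -/
theorem local_main (d : ℕ) (D : Finset (K × K)) (b : K × K → K × K)
    (hb : ∀ a ∈ D, a.1 * (b a).2 - a.2 * (b a).1 ≠ 0)
    (hD : ∀ a ∈ D, ∀ b ∈ D, a ≠ b → a.1 * b.2 - a.2 * b.1 ≠ 0) (hne : D.Nonempty) :
    ∃ c : ℝ, 0 ≤ c ∧ ∀ (z : Fin d → K) (G : K[X]) (B : ℝ), G.natDegree ≤ d → 0 ≤ B →
      (∀ a ∈ D, ∀ i, a.1 - a.2 * z i ≠ 0) →
      (∀ a ∈ D, ∀ j ≤ d, (F ((tr d a (b a) G).coeff j)) ≤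
        B * (F ((tr d a (b a) (∏ i, (X - C (z i)))).coeff j))) →
      ∀ i, (F (G.eval (z i))) ≤ c * B * ((∏ k, max 1 (F (z k))) * (max 1 (F (z i))) ^ d *
        Real.exp (-∑ k, ∑ a ∈ D, min (lam F a (z i)) (lam F a (z k)))) := by
  classical
  set c1 : ℝ := ∑ a ∈ D, ∑ b ∈ D,
    |Real.log (((F (a.1)) + (F (a.2)) + (F (b.1)) + (F (b.2))) / (F (a.1 * b.2 - a.2 * b.1)))| with hc1
  have hc1le : ∀ a ∈ D, ∀ b ∈ D,
      Real.log (((F (a.1)) + (F (a.2)) + (F (b.1)) + (F (b.2))) / (F (a.1 * b.2 - a.2 * b.1))) ≤ c1 := by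
    intro a ha b hb
    refine (le_abs_self _).trans ?_
    refine (Finset.single_le_sum (f := fun b =>
      |Real.log (((F (a.1)) + (F (a.2)) + (F (b.1)) + (F (b.2))) / (F (a.1 * b.2 - a.2 * b.1)))|)
      (fun _ _ => abs_nonneg _) hb).trans ?_
    exact Finset.single_le_sum (f := fun a => ∑ b ∈ D,
      |Real.log (((F (a.1)) + (F (a.2)) + (F (b.1)) + (F (b.2))) / (F (a.1 * b.2 - a.2 * b.1)))|)
      (fun _ _ => Finset.sum_nonneg fun _ _ => abs_nonneg _) ha
  have hc10 : 0 ≤ c1 := Finset.sum_nonneg fun _ _ => Finset.sum_nonneg fun _ _ => abs_nonneg _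
  set g : K × K → ℝ := fun a => (2 * ((F (a.1)) + (F (a.2)) + (F ((b a).1)) + (F ((b a).2)))) ^ d /
    (F (a.1 * (b a).2 - a.2 * (b a).1)) ^ d with hg
  have hg0 : ∀ a, 0 ≤ g a := fun a => by positivity
  set c2 : ℝ := ∑ a ∈ D, g a with hc2
  have hc2le : ∀ a ∈ D, g a ≤ c2 := fun a ha => Finset.single_le_sum (f := g)
    (fun _ _ => hg0 _) ha
  have hc20 : 0 ≤ c2 := Finset.sum_nonneg fun _ _ => hg0 _
  refine ⟨c2 * Real.exp (D.card * (d * c1)), by positivity, ?_⟩
  intro z G B hG hB hz hc i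
  obtain ⟨a, ha, hmax⟩ := Finset.exists_max_image D (fun a => lam F a (z i)) hne
  have h1 := value_le F a (b a) z (hz a ha) G hG B hB (hc a ha) i
  have hΔ0 : 0 < (F (a.1 * (b a).2 - a.2 * (b a).1)) := F.pos (hb a ha)
  -- only one point is close
  have h3 : ∑ k, ∑ b ∈ D, min (lam F b (z i)) (lam F b (z k)) ≤
      ∑ k, min (lam F a (z i)) (lam F a (z k)) + D.card * (d * c1) := by
    have h4 : ∀ k, ∑ b ∈ D, min (lam F b (z i)) (lam F b (z k)) ≤
        min (lam F a (z i)) (lam F a (z k)) + D.card * c1 := by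
      intro k
      rw [← Finset.add_sum_erase _ _ ha]
      refine add_le_add le_rfl ?_
      calc ∑ b ∈ D.erase a, min (lam F b (z i)) (lam F b (z k)) ≤ ∑ b ∈ D.erase a, c1 := by
            refine Finset.sum_le_sum fun b hb => ?_
            have hbD := Finset.mem_of_mem_erase hb
            have hba := Finset.ne_of_mem_erase hb
            refine (min_le_left _ _).trans ?_
            have h5 := sep_le F a b (hD a ha b hbD (Ne.symm hba)) (z i) (hz a ha i) (hz b hbD i)
            have h6 : min (lam F a (z i)) (lam F b (z i)) = lam F b (z i) := min_eq_right (hmax b hbD)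
            rw [h6] at h5
            exact h5.trans (hc1le a ha b hbD)
        _ = ((D.erase a).card : ℝ) * c1 := by rw [Finset.sum_const, nsmul_eq_mul]
        _ ≤ D.card * c1 := by
            refine mul_le_mul_of_nonneg_right ?_ hc10
            exact_mod_cast Finset.card_le_card (Finset.erase_subset _ _)
    refine (Finset.sum_le_sum fun k _ => h4 k).trans (le_of_eq ?_)
    rw [Finset.sum_add_distrib, Finset.sum_const, Finset.card_univ, Fintype.card_fin,
      nsmul_eq_mul]
    ring
  have h4 : ∏ k, Real.exp (-min (lam F a (z i)) (lam F a (z k))) ≤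
      Real.exp (D.card * (d * c1)) *
        Real.exp (-∑ k, ∑ a ∈ D, min (lam F a (z i)) (lam F a (z k))) := by
    rw [← Real.exp_sum, ← Real.exp_add, Finset.sum_neg_distrib]
    exact Real.exp_le_exp.2 (by linarith)
  set E' := Real.exp (-∑ k, ∑ a ∈ D, min (lam F a (z i)) (lam F a (z k))) with hE'
  have hE'0 : 0 < E' := Real.exp_pos _
  have hM0 : 0 ≤ ∏ k, max 1 (F (z k)) := Finset.prod_nonneg fun k _ =>
    zero_le_one.trans (le_max_left _ _)
  have hm0 : 0 ≤ max 1 (F (z i)) := zero_le_one.trans (le_max_left _ _)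
  have h5 : (F (G.eval (z i))) ≤ g a * B * ((∏ k, max 1 (F (z k))) * (max 1 (F (z i))) ^ d *
      ∏ k, Real.exp (-min (lam F a (z i)) (lam F a (z k)))) := by
    have h6 : (F (G.eval (z i))) = ((F (a.1 * (b a).2 - a.2 * (b a).1)) ^ d)⁻¹ *
        ((F (a.1 * (b a).2 - a.2 * (b a).1)) ^ d * (F (G.eval (z i)))) := by
      rw [← mul_assoc, inv_mul_cancel₀ (pow_pos hΔ0 d).ne', one_mul]
    rw [h6]
    refine (mul_le_mul_of_nonneg_left h1 (inv_nonneg.2 (pow_pos hΔ0 d).le)).trans (le_of_eq ?_)
    simp only [hg]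
    ring
  refine h5.trans ?_
  calc g a * B * ((∏ k, max 1 (F (z k))) * (max 1 (F (z i))) ^ d *
      ∏ k, Real.exp (-min (lam F a (z i)) (lam F a (z k))))
      ≤ c2 * B * ((∏ k, max 1 (F (z k))) * (max 1 (F (z i))) ^ d *
        (Real.exp (D.card * (d * c1)) * E')) := by
        have := hc2le a ha
        gcongr
    _ = _ := by ring

end Norm

end Pool.Agent.Run7.h860.Nk
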