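import Pool.Agent.R405.ProjH

/-!
Absolute values of number fields above a given place.
-/

set_option autoImplicit false

open Finset Polynomial Module

namespace Pool.Agent.Run7.h860.Nk

open NumberField IsDedekindDomain Height
open Pool.Agent.W180.OP (Pl av wt)
open Pool.Agent.R405 (Good fa fa_nontrivial fv_lt_one_iff)
open Pool.Agent.TeamU (Over)

variable {k K : Type} [Field k] [NumberField k] [Field K] [NumberField K] [Algebra k K]

omit [NumberField K] in
theorem na_of_nat (f : AbsoluteValue K ℝ) (h : ∀ n : ℕ, f n ≤ 1) : IsNonarchimedean f := by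
  let _ : NormedField K := f.toNormedField
  have h1 : IsUltrametricDist K :=
    IsUltrametricDist.isUltrametricDist_of_forall_norm_natCast_le_one h
  intro x y
  exact IsUltrametricDist.norm_add_le_max x y

theorem int_le_one (f : AbsoluteValue K ℝ) (h : ∀ n : ℕ, f n ≤ 1) (x : 𝓞 K) :
    f (x : K) ≤ 1 := by
  have hna := na_of_nat f h
  by_contra hx
  push Not at hx
  obtain ⟨p, hp, hpx⟩ := x.2
  set n := p.natDegree with hn
  have hz : ∀ m : ℤ, f (m : K) ≤ 1 := by
    intro m
    obtain ⟨l, rfl | rfl⟩ := m.eq_nat_or_neg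
    · simpa using h l
    · simpa using h l
  have hxx : (1 : ℝ) < f (x : K) := hx
  rw [eval₂_eq_sum_range, Finset.sum_range_succ, ← hn] at hpx
  have hlead : p.coeff n = 1 := hp
  rw [hlead, map_one, one_mul] at hpx
  rcases Nat.eq_zero_or_pos n with h0 | h0
  · rw [h0] at hpx
    simp at hpx
  · have h2 : (x : K) ^ n = -∑ i ∈ Finset.range n, algebraMap ℤ K (p.coeff i) * (x : K) ^ i := by
      have h3 := eq_neg_of_add_eq_zero_right hpx
      exact h3
    have h3 : f (x : K) ^ n ≤ f (x : K) ^ (n - 1) := by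
      rw [← map_pow, h2, AbsoluteValue.map_neg]
      obtain ⟨i, hi, hle⟩ := IsNonarchimedean.finset_image_add_of_nonempty hna
        (fun i => algebraMap ℤ K (p.coeff i) * (x : K) ^ i) (t := Finset.range n)
        (Finset.nonempty_range_iff.2 h0.ne')
      refine hle.trans ?_
      have hi' := Finset.mem_range.1 hi
      rw [map_mul, map_pow]
      calc f (algebraMap ℤ K (p.coeff i)) * f (x : K) ^ i ≤ 1 * f (x : K) ^ i :=
            mul_le_mul_of_nonneg_right (hz _) (by positivity)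
        _ = f (x : K) ^ i := one_mul _
        _ ≤ f (x : K) ^ (n - 1) := pow_le_pow_right₀ hxx.le (by omega)
    have h4 : f (x : K) ^ (n - 1) < f (x : K) ^ n := pow_lt_pow_right₀ hxx (by omega)
    linarith

theorem good_fin (v : HeightOneSpectrum (𝓞 k)) (f : AbsoluteValue K ℝ)
    (hf : ∀ x : k, f (algebraMap k K x) = Pool.Agent.W180.OP.fv v x) :
    Good (Sum.inr v : Pl k) f := by
  classical
  have hnat : ∀ n : ℕ, f n ≤ 1 := by
    intro n
    have h1 := hf (n : k)
    rw [map_natCast] at h1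
    rw [h1]
    have h2 := Pool.Agent.Y742.SF.fv_int v (n : 𝓞 k)
    have h3 : (((n : 𝓞 k) : 𝓞 k) : k) = (n : k) := map_natCast (algebraMap (𝓞 k) k) n
    rw [h3] at h2
    exact h2
  have hna := na_of_nat f hnat
  have hint := int_le_one f hnat
  let I : Ideal (𝓞 K) :=
    { carrier := {x | f (x : K) < 1}
      add_mem' := by
        intro a b ha hb
        show f ((a + b : 𝓞 K) : K) < 1
        have : ((a + b : 𝓞 K) : K) = (a : K) + (b : K) := map_add _ _ _
        rw [this]
        exact (hna _ _).trans_lt (max_lt ha hb)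
      zero_mem' := by
        show f ((0 : 𝓞 K) : K) < 1
        have : ((0 : 𝓞 K) : K) = 0 := map_zero (algebraMap (𝓞 K) K)
        rw [this, map_zero]
        exact one_pos
      smul_mem' := by
        intro a b hb
        show f ((a • b : 𝓞 K) : K) < 1
        have : ((a • b : 𝓞 K) : K) = (a : K) * (b : K) := map_mul _ _ _
        rw [this, map_mul]
        have h1 : f (b : K) < 1 := hb
        calc f (a : K) * f (b : K) ≤ 1 * f (b : K) :=
              mul_le_mul_of_nonneg_right (hint a) (f.nonneg _)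
          _ < 1 := by rw [one_mul]; exact h1 }
  have hI : ∀ x : 𝓞 K, x ∈ I ↔ f (x : K) < 1 := fun x => Iff.rfl
  have hprime : I.IsPrime := by
    refine ⟨?_, ?_⟩
    · have : ((1 : 𝓞 K) : K) = 1 := map_one (algebraMap (𝓞 K) K)
      rw [Ideal.ne_top_iff_one, hI, this, map_one]
      exact lt_irrefl _
    · intro x y hxy
      have hm : ((x * y : 𝓞 K) : K) = (x : K) * (y : K) := map_mul (algebraMap (𝓞 K) K) _ _
      rw [hI, hm, map_mul] at hxy
      by_contra hc
      push Not at hc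
      rw [hI, hI] at hc
      have h1 : f (x : K) = 1 := le_antisymm (hint x) (not_lt.1 hc.1)
      have h2 : f (y : K) = 1 := le_antisymm (hint y) (not_lt.1 hc.2)
      rw [h1, h2, one_mul] at hxy
      exact lt_irrefl _ hxy
  have hv1 : ∀ a : 𝓞 k, a ∈ v.asIdeal ↔ Pool.Agent.W180.OP.fv v (a : k) < 1 := by
    intro a
    have h1 := fv_lt_one_iff v (a : k)
    have h2 := v.valuation_lt_one_iff_mem (K := k) a
    exact h2.symm.trans h1.symm
  have hfa : ∀ a : 𝓞 k, f ((algebraMap (𝓞 k) (𝓞 K) a : 𝓞 K) : K) =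
      Pool.Agent.W180.OP.fv v (a : k) := by
    intro a
    rw [← hf]
    rfl
  have hcomap : ∀ a : 𝓞 k, a ∈ v.asIdeal ↔ algebraMap (𝓞 k) (𝓞 K) a ∈ I := by
    intro a
    rw [hv1, hI, hfa]
  have hbot : I ≠ ⊥ := by
    intro h0
    obtain ⟨a, ha, ha0⟩ := Submodule.exists_mem_ne_zero_of_ne_bot v.ne_bot
    have h1 := (hcomap a).1 ha
    rw [h0, Ideal.mem_bot] at h1
    exact ha0 ((FaithfulSMul.algebraMap_eq_zero_iff (𝓞 k) (𝓞 K)).1 h1)
  let Q : HeightOneSpectrum (𝓞 K) := ⟨I, hprime, hbot⟩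
  have hQ : Over Q v := by
    show _ = _
    ext a
    exact (hcomap a).symm
  have hequiv : (fa Q).IsEquiv f := by
    refine AbsoluteValue.isEquiv_of_lt_one_imp (fa_nontrivial Q) fun x hx => ?_
    have h1 : Q.valuation K x < 1 := (fv_lt_one_iff Q x).1 hx
    obtain ⟨n, d, hnd⟩ := Q.exists_primeCompl_mul_eq_of_integer (K := K) x h1.le
    have hd : (d : 𝓞 K) ∉ I := d.2
    have hd1 : f ((d : 𝓞 K) : K) = 1 := le_antisymm (hint _) (not_lt.1 fun h => hd ((hI _).2 h))
    have hn : n ∈ Q.asIdeal := by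
      have h0 : Q.valuation K (algebraMap (𝓞 K) K n) < 1 ↔ n ∈ Q.asIdeal :=
        Q.valuation_lt_one_iff_mem (K := K) n
      rw [← h0, ← hnd, map_mul]
      have h2 : Q.valuation K (algebraMap (𝓞 K) K d) ≤ 1 := Q.valuation_le_one _
      calc Q.valuation K x * Q.valuation K (algebraMap (𝓞 K) K d) ≤ Q.valuation K x * 1 :=
            mul_le_mul_right h2 _
        _ < 1 := by rw [mul_one]; exact h1
    have hn1 : f (algebraMap (𝓞 K) K n) < 1 := hn
    have h3 := congrArg f hnd
    rw [map_mul] at h3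
    have h4 : f (algebraMap (𝓞 K) K (d : 𝓞 K)) = 1 := hd1
    rw [h4, mul_one] at h3
    rw [h3]
    exact hn1
  obtain ⟨c, hc, h2⟩ := AbsoluteValue.isEquiv_iff_exists_rpow_eq.1 hequiv
  have h3 : ∀ y : K, f y = Pool.Agent.Y742.SF.fv Q y ^ c := fun y => (congrFun h2 y).symm
  refine ⟨Q, c⁻¹, hQ, inv_pos.2 hc, fun x => ?_, fun y => ?_⟩
  · have h4 := h3 (algebraMap k K x)
    rw [hf] at h4
    have h5 : Pool.Agent.Y742.SF.fv v x = Pool.Agent.W180.OP.fv v x := rfl
    rw [h5, h4, ← Real.rpow_mul (Pool.Agent.Y742.SF.fv_nonneg _ _), mul_inv_cancel₀ hc.ne',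
      Real.rpow_one]
  · rw [inv_inv]
    exact h3 y

theorem good_inf (w : InfinitePlace k) (ψ : K →+* ℂ)
    (hψ : InfinitePlace.mk (ψ.comp (algebraMap k K)) = w) (f : AbsoluteValue K ℝ)
    (hf : ∀ y, f y = ‖ψ y‖) : Good (Sum.inl w : Pl k) f := by
  refine ⟨InfinitePlace.mk ψ, ?_, hf⟩
  rw [← hψ]
  rfl

end Pool.Agent.Run7.h860.Nk
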