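import Pool.Agent.Run7.h860.Nk.Loc
import Pool.Agent.Run7.h860.Nk.Lin
import Pool.Agent.Run7.h860.Ns.Mh

/-!
Coefficient vectors, and the local bounds for `ρ`.
-/

set_option autoImplicit false

open Finset Polynomial Module

namespace Pool.Agent.Run7.h860.Nk

section ToP

variable {R : Type} [CommRing R]

/-- the polynomial with coefficient vector `x` -/
noncomputable def toP {d : ℕ} (x : Fin (d + 1) → R) : R[X] := ∑ k : Fin (d + 1), C (x k) * X ^ (k : ℕ)

theorem toP_coeff {d : ℕ} (x : Fin (d + 1) → R) (l : Fin (d + 1)) : (toP x).coeff l = x l := by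
  classical
  unfold toP
  rw [finsetSum_coeff, Finset.sum_eq_single l]
  · rw [coeff_C_mul, coeff_X_pow, if_pos rfl, mul_one]
  · intro k _ hk
    rw [coeff_C_mul, coeff_X_pow, if_neg, mul_zero]
    intro h
    exact hk (Fin.ext h.symm)
  · intro h
    exact absurd (Finset.mem_univ _) h

theorem toP_natDegree_le {d : ℕ} (x : Fin (d + 1) → R) : (toP x).natDegree ≤ d := by
  unfold toP
  refine natDegree_sum_le_of_forall_le _ _ fun k _ => ?_
  refine (natDegree_C_mul_X_pow_le _ _).trans ?_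
  exact Nat.lt_succ_iff.1 k.2

theorem toP_eval {d : ℕ} (x : Fin (d + 1) → R) (z : R) :
    (toP x).eval z = ∑ k : Fin (d + 1), x k * z ^ (k : ℕ) := by
  unfold toP
  rw [eval_finsetSum]
  simp

theorem toP_self {d : ℕ} (f : R[X]) (hf : f.natDegree ≤ d) :
    toP (fun k : Fin (d + 1) => f.coeff k) = f := by
  ext l
  by_cases hl : l < d + 1
  · exact toP_coeff _ ⟨l, hl⟩
  · rw [coeff_eq_zero_of_natDegree_lt (lt_of_le_of_lt (toP_natDegree_le _) (by omega)),
      coeff_eq_zero_of_natDegree_lt (by omega)]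

/-- the coefficients of the Taylor expansions as linear forms -/
noncomputable def W (d : ℕ) (a b : R × R) (j : ℕ) (l : Fin (d + 1)) : R :=
  ((C a.1 + C b.1 * X) ^ (l : ℕ) * (C a.2 + C b.2 * X) ^ (d - (l : ℕ))).coeff j

theorem tr_toP (d : ℕ) (a b : R × R) (x : Fin (d + 1) → R) (j : ℕ) :
    (tr d a b (toP x)).coeff j = ∑ l, x l * W d a b j l := by
  rw [tr_coeff, Finset.sum_range]
  refine Finset.sum_congr rfl fun l _ => ?_
  rw [toP_coeff]
  rfl

end ToP

theorem W_map {R R' : Type} [CommRing R] [CommRing R'] (φ : R →+* R') (d : ℕ) (a b : R × R) (j : ℕ)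
    (l : Fin (d + 1)) : φ (W d a b j l) = W d (φ a.1, φ a.2) (φ b.1, φ b.2) j l := by
  unfold W
  rw [← coeff_map]
  simp

section Local

variable {A : Type} [Field A] (F : AbsoluteValue A ℝ)

/-- the bound for `ρ` at a place of `S` -/
theorem rho_S (d : ℕ) (D : Finset (A × A)) (b : A × A → A × A) (c X : ℝ)
    (hX : 0 ≤ X)
    (hc : ∀ (z : Fin d → A) (G : A[X]) (B : ℝ), G.natDegree ≤ d → 0 ≤ B →
      (∀ a ∈ D, ∀ i, a.1 - a.2 * z i ≠ 0) →
      (∀ a ∈ D, ∀ j ≤ d, (F ((tr d a (b a) G).coeff j)) ≤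
        B * (F ((tr d a (b a) (∏ i, (Polynomial.X - C (z i)))).coeff j))) →
      ∀ i, (F (G.eval (z i))) ≤ c * B * ((∏ k, max 1 (F (z k))) * (max 1 (F (z i))) ^ d *
        Real.exp (-∑ k, ∑ a ∈ D, min (lam F a (z i)) (lam F a (z k)))))
    {t' : ℕ} (e : Fin (t' + 1) → Fin (d + 1) → A) (u : Fin (t' + 1) → A) (z : Fin d → A)
    (hz : ∀ a ∈ D, ∀ i, a.1 - a.2 * z i ≠ 0)
    (hf : ∏ i, (Polynomial.X - C (z i)) = toP (fun l => ∑ j, u j * e j l))
    (Φ : Matrix (Fin (t' + 1)) (Fin (t' + 1)) A) (hΦ : Φ.det ≠ 0)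
    (hgr : ∀ a ∈ D, ∀ j ≤ d, ∀ i,
      Matrix.vecMul (fun l => ∑ k, e l k * W d a (b a) j k) Φ⁻¹ i ≠ 0 →
      (F (∑ l, Φ i l * u l)) ≤ (F (∑ l, (∑ k, e l k * W d a (b a) j k) * u l)))
    (hXb : ∀ a ∈ D, ∀ j ≤ d, ∀ i,
      (F (Matrix.vecMul (fun l => ∑ k, e l k * W d a (b a) j k) Φ⁻¹ i)) ≤ X)
    (s : Fin t' → Fin d) (ρ : A)
    (hρ : ∀ y : Fin (t' + 1) → A, (Matrix.of (Fin.cons y (fun m j => (toP (e j)).eval (z (s m))) :
      Fin (t' + 1) → Fin (t' + 1) → A)).det = ρ * ∑ j, y j * u j) :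
    (F (ρ)) * ∏ i, (F (∑ l, Φ i l * u l)) ≤ (F (Φ.det)) * (t'.factorial * ∏ m, (c * X *
      ((∏ k, max 1 (F (z k))) * (max 1 (F (z (s m)))) ^ d *
        Real.exp (-∑ k, ∑ a ∈ D, min (lam F a (z (s m))) (lam F a (z k)))))) := by
  classical
  have h1 := rho_dual _ u ρ hρ Φ hΦ
  have h2 := congrArg (fun x => (F (x))) h1
  simp only [map_mul, map_prod] at h2
  rw [← h2]
  refine mul_le_mul_of_nonneg_left ?_ (F.nonneg _)
  refine det_le F _ _ fun m i => ?_
  simp only [Matrix.of_apply]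
  set w : A := ∑ l, Φ i.succ l * u l with hw
  set G : A[X] := toP (fun l => ∑ j, w * Φ⁻¹ j i.succ * e j l) with hG
  have h3 : w * ∑ j, (toP (e j)).eval (z (s m)) * Φ⁻¹ j i.succ = G.eval (z (s m)) := by
    rw [hG, toP_eval, Finset.mul_sum]
    simp only [toP_eval, Finset.sum_mul, Finset.mul_sum]
    rw [Finset.sum_comm]
    refine Finset.sum_congr rfl fun l _ => Finset.sum_congr rfl fun j _ => by ring
  rw [h3]
  refine hc z G X (toP_natDegree_le _) hX hz (fun a ha j hj => ?_) (s m)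
  rw [hf, hG, tr_toP, tr_toP]
  have h4 : ∑ l, (∑ j, w * Φ⁻¹ j i.succ * e j l) * W d a (b a) j l =
      w * Matrix.vecMul (fun l => ∑ k, e l k * W d a (b a) j k) Φ⁻¹ i.succ := by
    simp only [Matrix.vecMul, dotProduct, Finset.sum_mul, Finset.mul_sum]
    rw [Finset.sum_comm]
    refine Finset.sum_congr rfl fun l _ => Finset.sum_congr rfl fun k _ => by ring
  have h5 : ∑ l, (∑ j, u j * e j l) * W d a (b a) j l =
      ∑ l, (∑ k, e l k * W d a (b a) j k) * u l := by
    simp only [Finset.sum_mul]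
    rw [Finset.sum_comm]
    refine Finset.sum_congr rfl fun l _ => Finset.sum_congr rfl fun k _ => by ring
  rw [h4, h5, map_mul]
  by_cases h0 : Matrix.vecMul (fun l => ∑ k, e l k * W d a (b a) j k) Φ⁻¹ i.succ = 0
  · rw [h0, map_zero, mul_zero]
    positivity
  · have h6 := hgr a ha j hj i.succ h0
    have h7 := hXb a ha j hj i.succ
    calc (F (w)) * (F (Matrix.vecMul (fun l => ∑ k, e l k * W d a (b a) j k) Φ⁻¹ i.succ))
        ≤ (F (∑ l, (∑ k, e l k * W d a (b a) j k) * u l)) * X :=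
          mul_le_mul h6 h7 (F.nonneg _) (F.nonneg _)
      _ = _ := mul_comm _ _

end Local

section NA

variable {M : Type} [Field M]

/-- the bound for `ρ` at the other places -/
theorem rho_T (g : AbsoluteValue M ℝ) (hna : IsNonarchimedean g) {d : ℕ} {t' : ℕ}
    (e : Fin (t' + 1) → Fin (d + 1) → M) (u : Fin (t' + 1) → M) (z : Fin t' → M) (E0 : ℝ)
    (hE1 : 1 ≤ E0) (hE : ∀ j l, g (e j l) ≤ E0) (ρ : M)
    (hρ : ∀ y : Fin (t' + 1) → M, (Matrix.of (Fin.cons y (fun m j => (toP (e j)).eval (z m)) :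
      Fin (t' + 1) → Fin (t' + 1) → M)).det = ρ * ∑ j, y j * u j) (l : Fin (d + 1)) :
    g ρ * g (∑ j, u j * e j l) ≤ E0 * ∏ m, (E0 * max 1 (g (z m)) ^ d) := by
  classical
  set P : ℝ := ∏ m, (E0 * max 1 (g (z m)) ^ d) with hP
  have hP0 : 0 ≤ P := Finset.prod_nonneg fun m _ => by positivity
  have h1 : ∀ j, g (ρ * u j) ≤ P := by
    intro j
    have h2 := hρ (Pi.single j 1)
    have h3 : ∑ l, (Pi.single j 1 : Fin (t' + 1) → M) l * u l = u j := by
      rw [Finset.sum_eq_single j]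
      · rw [Pi.single_eq_same, one_mul]
      · intro l _ hl
        rw [Pi.single_eq_of_ne hl, zero_mul]
      · intro hh
        exact absurd (Finset.mem_univ _) hh
    rw [h3] at h2
    rw [← h2]
    have h4 := det_le_na g hna (Matrix.of (Fin.cons (Pi.single j 1)
      (fun m j => (toP (e j)).eval (z m)) : Fin (t' + 1) → Fin (t' + 1) → M))
      (Fin.cons 1 fun m => E0 * max 1 (g (z m)) ^ d) (fun m i => by
        refine Fin.cases ?_ (fun m => ?_) m
        · simp only [Matrix.of_apply, Fin.cons_zero]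
          by_cases hij : i = j
          · subst hij
            rw [Pi.single_eq_same, map_one]
          · rw [Pi.single_eq_of_ne hij, map_zero]
            exact zero_le_one
        · simp only [Matrix.of_apply, Fin.cons_succ]
          rw [toP_eval]
          obtain ⟨k, -, hk⟩ := IsNonarchimedean.finset_image_add_of_nonempty hna
            (fun k : Fin (d + 1) => e i k * z m ^ (k : ℕ)) (t := Finset.univ)
            Finset.univ_nonempty
          refine hk.trans ?_
          rw [map_mul, map_pow]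
          refine mul_le_mul (hE i k) ?_ (pow_nonneg (g.nonneg _) _) (by linarith)
          calc g (z m) ^ (k : ℕ) ≤ (max 1 (g (z m))) ^ (k : ℕ) :=
                pow_le_pow_left₀ (g.nonneg _) (le_max_right _ _) _
            _ ≤ (max 1 (g (z m))) ^ d :=
                pow_le_pow_right₀ (le_max_left _ _) (Nat.lt_succ_iff.1 k.2))
    rw [Fin.prod_univ_succ] at h4
    simpa using h4
  rw [← map_mul, Finset.mul_sum]
  obtain ⟨j, -, hj⟩ := IsNonarchimedean.finset_image_add_of_nonempty hna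
    (fun j : Fin (t' + 1) => ρ * (u j * e j l)) (t := Finset.univ) Finset.univ_nonempty
  refine hj.trans ?_
  rw [← mul_assoc, map_mul, mul_comm]
  exact mul_le_mul (hE j l) (h1 j) (g.nonneg _) (by linarith)

/-- Gauss' lemma -/
theorem gauss_le (g : AbsoluteValue M ℝ) (hna : IsNonarchimedean g) {ι : Type} (T : Finset ι)
    (z : ι → M) : ∏ k ∈ T, max 1 (g (z k)) ≤ (∏ k ∈ T, (X - C (z k))).gaussNorm g 1 := by
  classical
  induction T using Finset.induction_on with
  | empty =>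
    simp only [Finset.prod_empty]
    have := (1 : M[X]).le_gaussNorm g zero_le_one 0
    simpa using this
  | insert a T ha ih =>
    rw [Finset.prod_insert ha, Finset.prod_insert ha, gaussNorm_mul hna one_pos]
    refine mul_le_mul ?_ ih (Finset.prod_nonneg fun k _ => zero_le_one.trans (le_max_left _ _))
      (gaussNorm_nonneg _ _ zero_le_one)
    refine max_le ?_ ?_
    · have := (X - C (z a)).le_gaussNorm g zero_le_one 1
      simpa [coeff_C] using this
    · have := (X - C (z a)).le_gaussNorm g zero_le_one 0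
      simpa using this

theorem gauss_coeff (g : AbsoluteValue M ℝ) (hna : IsNonarchimedean g) {d : ℕ} (z : Fin d → M)
    (B : ℝ) (h : ∀ j, g ((∏ k, (X - C (z k))).coeff j) ≤ B) : ∏ k, max 1 (g (z k)) ≤ B := by
  refine (gauss_le g hna Finset.univ z).trans ?_
  obtain ⟨i, hi⟩ := exists_eq_gaussNorm g (1 : ℝ) (∏ k, (X - C (z k)))
  rw [hi, one_pow, mul_one]
  exact h i

end NA

end Pool.Agent.Run7.h860.Nk
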