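import Pool.Agent.Run7.h860.Nk.Cor3
import Pool.Agent.Run7.h860.Nk.Pla

/-!
The subspace theorem for the Taylor coefficients.
-/

set_option autoImplicit false

open Finset Polynomial Module

namespace Pool.Agent.Run7.h860.Nk

open NumberField IsDedekindDomain Height
open Pool.Agent.W180.OP (Pl av wt nrm le_nrm nrm_pos nrm_nonneg exists_nrm wt_nonneg
  fv_support_finite)
open Pool.Agent.R405 (Good exists_good logHeight_sum nrm_finite sch projH)

variable {k : Type} [Field k] [NumberField k]

/-- the forms separate the points of the space with basis `e` -/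
theorem frm_ker {A : Type} [Field A] [Infinite A] {d t : ℕ} (D : Finset (A × A))
    (b : A × A → A × A) (hb : ∀ a ∈ D, a.1 * (b a).2 - a.2 * (b a).1 ≠ 0) (hne : D.Nonempty)
    (e : Fin t → Fin (d + 1) → A) (P : Fin t → Fin (d + 1) → A)
    (hP : ∀ i j, ∑ l, P i l * e j l = if i = j then 1 else 0) (y : Fin t → A)
    (hy : ∀ i : ↥D × Fin (d + 1), ∑ l, frm d b e i l * y l = 0) : y = 0 := by
  classical
  obtain ⟨a, ha⟩ := hne
  set G : A[X] := toP (fun l => ∑ j, y j * e j l) with hG
  have h1 : ∀ j ≤ d, (tr d a (b a) G).coeff j = 0 := by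
    intro j hj
    have h2 := hy (⟨a, ha⟩, ⟨j, Nat.lt_succ_of_le hj⟩)
    rw [hG, tr_toP, ← h2]
    unfold frm
    simp only [Finset.sum_mul]
    rw [Finset.sum_comm]
    refine Finset.sum_congr rfl fun l _ => Finset.sum_congr rfl fun k _ => by ring
  have h2 : ∀ z : A, G.eval z = 0 := by
    intro z
    have h3 := tr_eval d a (b a) G (toP_natDegree_le _) z
    have h4 : hm d (tr d a (b a) G) ((b a).2 * z - (b a).1) (a.1 - a.2 * z) = 0 := by
      unfold hm
      refine Finset.sum_eq_zero fun j hj => ?_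
      rw [h1 j (Nat.lt_succ_iff.1 (Finset.mem_range.1 hj)), zero_mul, zero_mul]
    rw [h4] at h3
    exact (mul_eq_zero.1 h3.symm).resolve_left (pow_ne_zero _ (hb a ha))
  have h3 : G = 0 := Polynomial.funext fun z => by rw [h2 z, eval_zero]
  have h4 : ∀ l : Fin (d + 1), ∑ j, y j * e j l = 0 := by
    intro l
    have h5 := congrArg (fun p => p.coeff (l : ℕ)) h3
    simp only [hG, toP_coeff, coeff_zero] at h5
    exact h5
  funext i
  have h5 : ∑ l, P i l * ∑ j, y j * e j l = y i := by
    calc ∑ l, P i l * ∑ j, y j * e j l = ∑ j, y j * ∑ l, P i l * e j l := by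
          simp only [Finset.mul_sum]
          rw [Finset.sum_comm]
          refine Finset.sum_congr rfl fun l _ => Finset.sum_congr rfl fun j _ => by ring
      _ = y i := by
          simp only [hP, mul_ite, mul_one, mul_zero]
          rw [Finset.sum_ite_eq]
          simp
  rw [← h5]
  refine Finset.sum_eq_zero fun l _ => by rw [h4 l, mul_zero]

theorem step {d t' : ℕ} (hd : 0 < d) (ht : 0 < t') (T : Finset (HeightOneSpectrum (𝓞 k)))
    (F : Pl k → AbsoluteValue (AlgebraicClosure k) ℝ)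
    (hF : ∀ v ∈ (Finset.univ : Finset (InfinitePlace k)).disjSum T, ∀ x : k,
      F v (algebraMap k (AlgebraicClosure k) x) = av v x)
    (D : Finset (AlgebraicClosure k × AlgebraicClosure k))
    (b : AlgebraicClosure k × AlgebraicClosure k → AlgebraicClosure k × AlgebraicClosure k)
    (hb : ∀ a ∈ D, a.1 * (b a).2 - a.2 * (b a).1 ≠ 0)
    (hD : ∀ a ∈ D, ∀ b ∈ D, a ≠ b → a.1 * b.2 - a.2 * b.1 ≠ 0) (hne : D.Nonempty)
    (e : Fin (t' + 1) → Fin (d + 1) → k) (P : Fin (t' + 1) → Fin (d + 1) → k)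
    (hP : ∀ i j, ∑ l, P i l * e j l = if i = j then 1 else 0)
    {K : Type} [Field K] [NumberField K] [Algebra k K] [IsGalois ℚ K] (hi : ∃ z : K, z ^ 2 = -1)
    (φ : K →ₐ[k] AlgebraicClosure k)
    (hgood : ∀ v ∈ (Finset.univ : Finset (InfinitePlace k)).disjSum T,
      Good v ((F v).comp (φ : K →+* AlgebraicClosure k).injective))
    (hDK : ∀ a ∈ D, ∃ y : K × K, (φ y.1, φ y.2) = a)
    (hbK : ∀ a ∈ D, ∃ y : K × K, (φ y.1, φ y.2) = b a) (ε : ℝ) (hε : 0 < ε) :
    ∃ (Z : Finset (Fin (t' + 1) → K)) (C0 : ℝ), (∀ q ∈ Z, q ≠ 0) ∧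
      ∀ (f : k[X]) (u : Fin (t' + 1) → k) (z : Fin d → AlgebraicClosure k),
        f.Monic → Irreducible f → f.natDegree = d →
        (∀ l : Fin (d + 1), f.coeff l = ∑ j, u j * e j l) →
        f.map (algebraMap k (AlgebraicClosure k)) = ∏ i, (X - C (z i)) →
        (∀ a ∈ D, ∀ i, a.1 - a.2 * z i ≠ 0) →
        (∀ q ∈ Z, ∑ j, q j * algebraMap k K (u j) ≠ 0) →
        ∑ v ∈ (Finset.univ : Finset (InfinitePlace k)).disjSum T, wt v * Qv (F v) D z ≤
          (2 + ε) * d * logHeight (fun l : Fin (d + 1) => f.coeff l) + C0 := by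
  classical
  set S : Finset (Pl k) := (Finset.univ : Finset (InfinitePlace k)).disjSum T with hS
  set eA : Fin (t' + 1) → Fin (d + 1) → AlgebraicClosure k :=
    fun j l => algebraMap k (AlgebraicClosure k) (e j l) with heA
  have hex : ∃ s : Fin (t' + 1) → ↥D × Fin (d + 1),
      (Matrix.of fun a => frm d b eA (s a)).det ≠ 0 := by
    refine exists_basis_rows (frm d b eA) fun y hy => ?_
    refine frm_ker D b hb hne eA (fun i l => algebraMap k (AlgebraicClosure k) (P i l))
      (fun i j => ?_) y hy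
    have h4 := congrArg (algebraMap k (AlgebraicClosure k)) (hP i j)
    rw [map_sum] at h4
    simp only [map_mul] at h4
    rw [h4]
    split_ifs <;> simp
  obtain ⟨C1, hC1⟩ := core hd T F hF D b hb hD hne e P hP hex
  -- the forms over `K`
  choose yD hyD using fun a : ↥D => hDK a.1 a.2
  choose yb hyb using fun a : ↥D => hbK a.1 a.2
  set fK : ↥D × Fin (d + 1) → Fin (t' + 1) → K := fun i l =>
    ∑ m, algebraMap k K (e l m) * W d (yD i.1) (yb i.1) (i.2 : ℕ) m with hfK
  have hφf : ∀ i l, φ (fK i l) = frm d b eA i l := by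
    intro i l
    simp only [hfK, frm, map_sum, map_mul, heA, AlgHom.commutes]
    refine Finset.sum_congr rfl fun m _ => ?_
    congr 1
    have h1 := W_map (φ : K →+* AlgebraicClosure k) d (yD i.1) (yb i.1) (i.2 : ℕ) m
    have h2 : ((φ : K →+* AlgebraicClosure k) (yD i.1).1, (φ : K →+* AlgebraicClosure k) (yD i.1).2) =
        i.1.1 := hyD i.1
    have h3 : ((φ : K →+* AlgebraicClosure k) (yb i.1).1, (φ : K →+* AlgebraicClosure k) (yb i.1).2) =
        b i.1.1 := hyb i.1
    rw [h2, h3] at h1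
    exact h1
  -- the subspace theorem for all choices
  set fF : Pl k → AbsoluteValue K ℝ := fun v =>
    (F v).comp (φ : K →+* AlgebraicClosure k).injective with hfF
  set Bm : (↥S → Fin (t' + 1) → ↥D × Fin (d + 1)) → Pl k → Fin (t' + 1) → Fin (t' + 1) → K :=
    fun γ v a => if h : v ∈ S then fK (γ ⟨v, h⟩ a) else 0 with hBm
  have hsub : ∀ γ : ↥S → Fin (t' + 1) → ↥D × Fin (d + 1),
      ∃ (Z : Finset (Fin (t' + 1) → K)) (C0 : ℝ), (∀ q ∈ Z, q ≠ 0) ∧
      ((∀ v ∈ S, (Matrix.of (Bm γ v)).det ≠ 0) → ∀ x : Fin (t' + 1) → k,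
      (∀ q ∈ Z, ∑ j, q j * algebraMap k K (x j) ≠ 0) →
      ∑ v ∈ S, wt v * ∑ a, (Real.log (nrm (av v) x) -
        Real.log (fF v (∑ j, Bm γ v a j * algebraMap k K (x j)))) ≤
        (((t' + 1 : ℕ) : ℝ) + ε) * logHeight x + C0) := by
    intro γ
    by_cases hdet : ∀ v ∈ S, (Matrix.of (Bm γ v)).det ≠ 0
    · obtain ⟨Z, C0, h1, h2⟩ := sch hi (Nat.succ_pos t') S fF hgood (Bm γ) hdet ε hε
      exact ⟨Z, C0, h1, fun _ => h2⟩
    · exact ⟨∅, 0, by simp, fun h => absurd h hdet⟩
  choose Zs Cs hZs hCs using hsub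
  obtain ⟨CP, hCP0, hCP⟩ := projH P S
  obtain ⟨CP', hCP'0, hCP'⟩ := projH P (∅ : Finset (Pl k))
  set Z : Finset (Fin (t' + 1) → K) := (Finset.univ.biUnion Zs) ∪
    ((Finset.univ.image fK).filter fun q => q ≠ 0) with hZ
  set Cm : ℝ := ∑ γ, |Cs γ| with hCm
  refine ⟨Z, d / t' * (ε * CP' + (t' + 1) * CP + Cm + |C1|), ?_, ?_⟩
  · intro q hq
    rw [hZ] at hq
    rcases Finset.mem_union.1 hq with hq | hq
    · obtain ⟨γ, -, hγ⟩ := Finset.mem_biUnion.1 hq
      exact hZs γ q hγ
    · exact (Finset.mem_filter.1 hq).2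
  · intro f u z hmon hirr hfd hfu hfz hz hq
    set fv : Fin (d + 1) → k := fun l => f.coeff l with hfv
    have hlast : fv (Fin.last d) = 1 := by
      show f.coeff d = 1
      rw [← hfd]
      exact hmon
    have hPu : (fun i => ∑ j, P i j * fv j) = u := by
      funext i
      have h1 : ∀ l, fv l = ∑ j, u j * e j l := hfu
      calc ∑ l, P i l * fv l = ∑ l, P i l * ∑ j, u j * e j l :=
            Finset.sum_congr rfl fun l _ => by rw [h1]
        _ = ∑ j, u j * ∑ l, P i l * e j l := by
            simp only [Finset.mul_sum]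
            rw [Finset.sum_comm]
            refine Finset.sum_congr rfl fun l _ => Finset.sum_congr rfl fun j _ => by ring
        _ = u i := by
            simp only [hP, mul_ite, mul_one, mul_zero]
            rw [Finset.sum_ite_eq]
            simp
    have hu0 : u ≠ 0 := by
      intro h
      have h1 := hfu (Fin.last d)
      rw [h] at h1
      simp only [Pi.zero_apply, zero_mul, Finset.sum_const_zero] at h1
      exact one_ne_zero (hlast.symm.trans h1)
    have hformA : ∀ i, φ (∑ l, fK i l * algebraMap k K (u l)) =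
        ∑ l, frm d b eA i l * algebraMap k (AlgebraicClosure k) (u l) := by
      intro i
      simp only [map_sum, map_mul, hφf, AlgHom.commutes]
    have hnz : ∀ i : ↥D × Fin (d + 1), frm d b eA i ≠ 0 →
        ∑ l, frm d b eA i l * algebraMap k (AlgebraicClosure k) (u l) ≠ 0 := by
      intro i hi0
      rw [← hformA]
      intro h0
      have h1 : ∑ l, fK i l * algebraMap k K (u l) = 0 := (map_eq_zero φ).1 h0
      refine hq (fK i) ?_ h1
      rw [hZ]
      refine Finset.mem_union_right _ (Finset.mem_filter.2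
        ⟨Finset.mem_image_of_mem _ (Finset.mem_univ i), ?_⟩)
      intro h2
      apply hi0
      funext l
      rw [← hφf, h2]
      simp
    obtain ⟨β, hβ1, hβ2⟩ := hC1 f u z hmon hirr hfd hfu hfz hz hnz
    set γ : ↥S → Fin (t' + 1) → ↥D × Fin (d + 1) := fun v => β v.1 with hγ
    have hBγ : ∀ v ∈ S, ∀ a, Bm γ v a = fK (β v a) := by
      intro v hv a
      simp only [hBm, hγ, dif_pos hv]
    have hdet : ∀ v ∈ S, (Matrix.of (Bm γ v)).det ≠ 0 := by
      intro v hv h0
      apply hβ1 v hv
      have h1 : (Matrix.of fun a => frm d b eA (β v a)) =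
          (φ : K →+* AlgebraicClosure k).mapMatrix (Matrix.of (Bm γ v)) := by
        ext a j
        simp only [Matrix.of_apply, RingHom.mapMatrix_apply, Matrix.map_apply, RingHom.coe_coe]
        rw [hBγ v hv a, hφf]
      rw [h1, ← RingHom.map_det, h0, map_zero]
    have h1 := hCs γ hdet u (fun q hq' => hq q (Finset.mem_union_left _
      (Finset.mem_biUnion.2 ⟨γ, Finset.mem_univ _, hq'⟩)))
    have hCs' : Cs γ ≤ Cm := (le_abs_self _).trans (Finset.single_le_sum (f := fun γ => |Cs γ|)
      (fun _ _ => abs_nonneg _) (Finset.mem_univ γ))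
    have h2 := hCP fv (by rw [hPu]; exact hu0)
    have h3 := hCP' fv (by rw [hPu]; exact hu0)
    rw [hPu] at h2 h3
    rw [Finset.sum_empty, add_zero] at h3
    have hh0 : 0 ≤ logHeight fv := logHeight_nonneg _
    have hhu0 : 0 ≤ logHeight u := logHeight_nonneg _
    -- comparison
    have h4 : ∑ v ∈ S, wt v * ∑ i, (Real.log (nrm (av v) fv) -
        Real.log (F v (∑ l, frm d b eA (β v i) l * algebraMap k (AlgebraicClosure k) (u l)))) =
        ∑ v ∈ S, wt v * ∑ a, (Real.log (nrm (av v) u) -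
          Real.log (fF v (∑ j, Bm γ v a j * algebraMap k K (u j)))) +
        (t' + 1) * ∑ v ∈ S, wt v * (Real.log (nrm (av v) fv) - Real.log (nrm (av v) u)) := by
      rw [Finset.mul_sum, ← Finset.sum_add_distrib]
      refine Finset.sum_congr rfl fun v hv => ?_
      have h5 : ∀ i, fF v (∑ j, Bm γ v i j * algebraMap k K (u j)) =
          F v (∑ l, frm d b eA (β v i) l * algebraMap k (AlgebraicClosure k) (u l)) := by
        intro i
        rw [← hformA, hBγ v hv i]
        rfl
      simp only [h5, Finset.sum_sub_distrib, Finset.sum_const, Finset.card_univ, Fintype.card_fin,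
        nsmul_eq_mul]
      push_cast
      ring
    rw [h4] at hβ2
    have h6 : (t' / d : ℝ) * ∑ v ∈ S, wt v * Qv (F v) D z ≤
        (2 * t' + ε) * logHeight fv + (ε * CP' + (t' + 1) * CP + Cm + |C1|) := by
      have h7 : ((t' : ℝ) + 1) * ∑ v ∈ S, wt v * (Real.log (nrm (av v) fv) -
          Real.log (nrm (av v) u)) ≤ (t' + 1) * (logHeight fv + CP - logHeight u) :=
        mul_le_mul_of_nonneg_left (by linarith) (by positivity)
      have h8 : ε * logHeight u ≤ ε * (logHeight fv + CP') := mul_le_mul_of_nonneg_left h3 hε.le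
      have h9 := le_abs_self C1
      push_cast at h1
      nlinarith
    have hd0 : (0 : ℝ) < d := by exact_mod_cast hd
    have ht0 : (0 : ℝ) < t' := by exact_mod_cast ht
    have ht1 : (1 : ℝ) ≤ t' := by exact_mod_cast ht
    have h10 : ∑ v ∈ S, wt v * Qv (F v) D z = d / t' * ((t' / d : ℝ) *
        ∑ v ∈ S, wt v * Qv (F v) D z) := by
      field_simp
    rw [h10]
    refine (mul_le_mul_of_nonneg_left h6 (by positivity)).trans ?_
    rw [mul_add]
    refine add_le_add ?_ le_rfl
    have h11 : (d : ℝ) / t' * ((2 * t' + ε) * logHeight fv) = (2 + ε / t') * d * logHeight fv := by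
      field_simp
    rw [h11]
    have h12 : ε / t' ≤ ε := div_le_self hε.le ht1
    gcongr

end Pool.Agent.Run7.h860.Nk
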